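import Pool.Agent.Run7.h945.TR.Good

set_option autoImplicit false

namespace Pool.Agent.Run7.h945.TR

section blocks

variable {σ : Type*} [DecidableEq σ] {ι : Type*} [DecidableEq ι] {S : Type*} [CommRing S]

/-- The vector `g * v` on the block `i`, `0` on the other blocks. -/
def bv (β : σ → ι) (v : σ → S) (i : ι) (g : S) : σ → S := fun j => if β j = i then g * v j else 0

/-- In each block one of the functions divides the others. -/
def Piv (β : σ → ι) (v : σ → S) : Prop :=
  ∀ i, (∃ j, β j = i) → ∃ j0, β j0 = i ∧ ∃ c : σ → S, ∀ j, β j = i → v j = c j * v j0

theorem good_blocks {p : ℕ} [Fact p.Prime] [IsDomain S] (β : σ → ι) (n : ℕ) :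
    ∀ (v : σ → S), Piv β v → ∀ l : List (S × (σ → S)), l.length = n →
      (∀ x ∈ l, ∃ i g, x.2 = bv β v i g) → Good p l := by
  have hp : p.Prime := Fact.out
  induction n with
  | zero =>
    intro v _ l hl _
    rw [List.length_eq_zero_iff] at hl
    subst hl
    exact Good.nil
  | succ n ih =>
    intro v hv l hl hx
    obtain ⟨⟨b, w⟩, l, rfl⟩ : ∃ x l', l = x :: l' := by
      cases l with
      | nil => simp at hl
      | cons x l' => exact ⟨x, l', rfl⟩
    rw [List.length_cons, Nat.add_right_cancel_iff] at hl
    obtain ⟨i, g, hw⟩ := hx (b, w) List.mem_cons_self
    simp only at hw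
    by_cases hz : w = fun _ => 0
    · exact Good.zero b w l hz (ih v hv l hl fun x hx' => hx x (List.mem_cons_of_mem _ hx'))
    · obtain ⟨j1, hj1⟩ : ∃ j, w j ≠ 0 := by
        by_contra h
        push Not at h
        exact hz (funext h)
      have hβ1 : β j1 = i := by
        by_contra h
        apply hj1
        rw [hw]
        simp only [bv, if_neg h]
      obtain ⟨j0, hj0, c, hc⟩ := hv i ⟨j1, hβ1⟩
      have hg : g ≠ 0 := by
        rintro rfl
        apply hj1
        rw [hw]
        simp [bv]
      have hv0 : v j0 ≠ 0 := by
        intro h
        apply hj1
        rw [hw]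
        simp only [bv, if_pos hβ1]
        rw [hc j1 hβ1, h, mul_zero, mul_zero]
      have hw0 : w j0 ≠ 0 := by
        rw [hw]
        simp only [bv, if_pos hj0]
        exact mul_ne_zero hg hv0
      let c' : σ → S := fun j => if β j = i then c j else 0
      refine Good.step b w l j0 c' hw0 ?_ ?_
      · intro j
        rw [hw]
        simp only [bv, c', if_pos hj0]
        by_cases hj : β j = i
        · rw [if_pos hj, if_pos hj, hc j hj]
          ring
        · rw [if_neg hj, if_neg hj, zero_mul]
      · -- the new vector
        let v' : σ → S := fun j => if β j = i then (if j = j0 then 1 else 0) else v j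
        refine ih v' ?_ _ (by rw [List.length_map, hl]) ?_
        · intro i' hi'
          by_cases hii : i' = i
          · refine ⟨j0, by rw [hj0, hii], fun j => if j = j0 then 1 else 0, ?_⟩
            intro j hj
            simp only [v', if_pos (hj.trans hii), if_pos hj0, if_true, mul_one]
          · obtain ⟨j', hj', d, hd⟩ := hv i' hi'
            refine ⟨j', hj', d, ?_⟩
            intro j hj
            have h1 : ¬ β j = i := by rw [hj]; exact hii
            have h2 : ¬ β j' = i := by rw [hj']; exact hii
            simp only [v', if_neg h1, if_neg h2]
            exact hd j hj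
        · intro x hx'
          obtain ⟨⟨b', w'⟩, hmem, rfl⟩ := List.mem_map.1 hx'
          obtain ⟨i', g', hw'⟩ := hx (b', w') (List.mem_cons_of_mem _ hmem)
          simp only at hw'
          by_cases hii : i' = i
          · refine ⟨i, b' * w' j0 ^ p - b * w j0 ^ (p - 1) * w' j0, ?_⟩
            funext j
            simp only [nxt, nx, bv, v']
            by_cases hj : j = j0
            · rw [if_pos hj, if_pos (by rw [hj]; exact hj0), if_pos (by rw [hj]; exact hj0),
                if_pos hj, mul_one]
            · rw [if_neg hj]
              by_cases hjb : β j = i
              · rw [if_pos hjb, if_pos hjb, if_neg hj, mul_zero, hw', hii]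
                simp only [bv, c', if_pos hjb, if_pos hj0]
                rw [hc j hjb]
                ring
              · rw [if_neg hjb, hw', hii]
                simp only [bv, c', if_neg hjb, zero_mul, sub_zero]
          · refine ⟨i', g', ?_⟩
            funext j
            have h1 : w' j0 = 0 := by
              rw [hw']
              simp only [bv]
              rw [if_neg]
              rw [hj0]
              exact fun h => hii h.symm
            simp only [nxt, nx, h1, mul_zero, sub_zero, zero_pow hp.ne_zero]
            by_cases hj : j = j0
            · rw [if_pos hj]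
              simp only [bv]
              rw [if_neg]
              rw [hj, hj0]
              exact fun h => hii h.symm
            · rw [if_neg hj, hw']
              simp only [bv, v']
              by_cases hjb : β j = i'
              · rw [if_pos hjb, if_pos hjb, if_neg]
                rw [hjb]
                exact hii
              · rw [if_neg hjb, if_neg hjb]

end blocks

end Pool.Agent.Run7.h945.TR
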