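import Pool.Agent.W22.W558Restr
import Pool.Agent.W558.WD.All
import Pool.Agent.N98.Basic
import Pool.Agent.N98.PJ.RelP

set_option autoImplicit false

open Pool.Agent.W558 Pool.Agent.N98 Pool.Agent.N98.PJ

universe u

namespace Pool.Agent.Run7.h945.TR

section aux

variable {k K : Type u} [Field k] [Field K] [Algebra k K]

lemma isIntegral_mono {A B : Subalgebra k K} (h : A ≤ B) {x : K} (hx : IsIntegral A x) :
    IsIntegral B x := by
  obtain ⟨P, hP, hP0⟩ := hx
  refine ⟨P.map (Subalgebra.inclusion h : A →+* B), hP.map _, ?_⟩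
  rw [Polynomial.eval₂_map]
  exact hP0

/-- Restriction of a model to the part over an affine variety. -/
theorem restr_gen {T I : Type} [Finite T] (M : LM (⊥ : Subalgebra k K) ⊤ T I) (hFr : Frc M)
    (Y : Finset K) (hY0 : ∀ y ∈ Y, y ≠ 0) (hY : ∀ t, ∀ y ∈ Y, y ∈ M.A t ∨ y⁻¹ ∈ M.A t)
    (R : Subalgebra k K) (hYR : ∀ y ∈ Y, y ∈ R)
    (hint : ∀ x ∈ R, IsIntegral (Algebra.adjoin k (Y : Set K)) x)
    (hfrac : ∀ x : K, ∃ a ∈ R, ∃ b ∈ R, b ≠ 0 ∧ x = a * b⁻¹) :
    ∃ M' : LM R R T I, ∀ t, M.A t ≤ M'.A t := by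
  classical
  have hT : Nonempty T := by
    obtain ⟨t, -⟩ := M.cv ⊤ (fun a _ => trivial)
    exact ⟨t⟩
  -- the functions which are inverted
  let s : T → Finset K := fun t => Y.filter fun y => y ∉ M.A t
  have hs : ∀ t y, y ∈ s t ↔ y ∈ Y ∧ y ∉ M.A t := by
    intro t b
    simp [s]
  let r : T → K := fun t => ∏ y ∈ s t, y⁻¹
  have hrmem : ∀ t, r t ∈ M.A t := by
    intro t
    refine (M.A t).prod_mem fun b hb => ?_
    exact (hY t b ((hs t b).1 hb).1).resolve_left ((hs t b).1 hb).2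
  have hr0 : ∀ t, r t ≠ 0 := fun t =>
    Finset.prod_ne_zero_iff.2 fun b hb => inv_ne_zero (hY0 b ((hs t b).1 hb).1)
  have hrR : ∀ t, (r t)⁻¹ ∈ R := by
    intro t
    have h1 : (r t)⁻¹ = ∏ b ∈ s t, b := by
      simp only [r]
      rw [← Finset.prod_inv_distrib]
      exact Finset.prod_congr rfl fun b _ => inv_inv _
    rw [h1]
    exact R.prod_mem fun b hb => hYR b ((hs t b).1 hb).1
  let C : T → Subalgebra k K := fun t => adj (M.A t) (r t)⁻¹
  have hleC : ∀ t, M.A t ≤ C t := fun t => le_adj _ _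
  have hrC : ∀ t, (r t)⁻¹ ∈ C t := fun t => self_mem_adj _ _
  have hgC : ∀ t, ∀ b ∈ Y, b ∈ C t := by
    intro t b hb
    by_cases h : b ∈ M.A t
    · exact hleC t h
    · have h1 : b ∈ s t := (hs t b).2 ⟨hb, h⟩
      have h2 : r t = b⁻¹ * ∏ b' ∈ (s t).erase b, b'⁻¹ := (Finset.mul_prod_erase _ _ h1).symm
      have h3 : ∏ b' ∈ (s t).erase b, b'⁻¹ ∈ M.A t := by
        refine (M.A t).prod_mem fun b' hb' => ?_
        have h4 := (hs t b').1 (Finset.mem_of_mem_erase hb')
        exact (hY t b' h4.1).resolve_left h4.2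
      have h4 : b = (∏ b' ∈ (s t).erase b, b'⁻¹) * (r t)⁻¹ := by
        have h5 : ∏ b' ∈ (s t).erase b, b'⁻¹ ≠ 0 :=
          Finset.prod_ne_zero_iff.2 fun b' hb' =>
            inv_ne_zero (hY0 b' ((hs t b').1 (Finset.mem_of_mem_erase hb')).1)
        rw [h2, mul_inv, inv_inv, mul_left_comm, mul_inv_cancel₀ h5, mul_one]
      rw [h4]
      exact (C t).mul_mem (hleC t h3) (hrC t)
  have hYC : ∀ t, Algebra.adjoin k (Y : Set K) ≤ C t := fun t => Algebra.adjoin_le (hgC t)
  have hsmC : ∀ t, Algebra.Smooth k (C t) := by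
    intro t
    have := M.sm t
    exact smooth_adj_inv (hrmem t) (hr0 t)
  have hRC : ∀ t, R ≤ C t := by
    intro t x hx
    have h0 := hsmC t
    have h1 : IsIntegrallyClosed (C t) := wd_norm k (C t)
    have h2 : IsFractionRing (C t) K := by
      refine IsFractionRing.of_field _ _ fun z => ?_
      obtain ⟨u, hu, v, hv, hv0, h⟩ := hFr t z
      exact ⟨⟨u, hleC t hu⟩, ⟨v, hleC t hv⟩, by rw [h, div_eq_mul_inv]; rfl⟩
    obtain ⟨y, hy⟩ := IsIntegrallyClosed.isIntegral_iff.1 (isIntegral_mono (hYC t) (hint x hx))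
    rw [← hy]
    exact y.2
  -- generators
  have hfg : ∀ t, ∃ y : Finset K, M.A t = Algebra.adjoin k (y : Set K) := by
    intro t
    have := M.sm t
    have h1 : Algebra.FiniteType k (M.A t) := inferInstance
    obtain ⟨y, hy⟩ := (M.A t).fg_iff_finiteType.2 h1
    exact ⟨y, hy.symm⟩
  choose y hy using hfg
  have : Fintype T := Fintype.ofFinite T
  obtain ⟨c, hcR, hc0, hc⟩ := Pool.Agent.W22.W558Restr.exists_den R hfrac
    (Finset.univ.image M.H ∪ Finset.univ.biUnion fun t => (y t).image fun z => M.H t * z)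
  have hcH : ∀ t, c * M.H t ∈ R := fun t =>
    hc _ (Finset.mem_union_left _ (Finset.mem_image_of_mem _ (Finset.mem_univ t)))
  have hcHy : ∀ t, ∀ z ∈ y t, c * (M.H t * z) ∈ R := fun t z hz =>
    hc _ (Finset.mem_union_right _ (Finset.mem_biUnion.2 ⟨t, Finset.mem_univ t,
      Finset.mem_image_of_mem _ hz⟩))
  have hdn1 : ∀ t, ∀ f ∈ M.A t, ∃ n : ℕ, (c * M.H t) ^ n * f ∈ R := by
    intro t f hf
    have hmono : ∀ (n m : ℕ) (f : K), n ≤ m → (c * M.H t) ^ n * f ∈ R →
        (c * M.H t) ^ m * f ∈ R := by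
      intro n m f hnm h
      obtain ⟨e, rfl⟩ := Nat.exists_eq_add_of_le hnm
      rw [add_comm, pow_add, mul_assoc]
      exact R.mul_mem (R.pow_mem (hcH t) e) h
    rw [hy t] at hf
    induction hf using Algebra.adjoin_induction with
    | mem x hx =>
      refine ⟨1, ?_⟩
      rw [pow_one, mul_assoc]
      exact hcHy t x hx
    | algebraMap a => exact ⟨0, by rw [pow_zero, one_mul]; exact R.algebraMap_mem a⟩
    | add a b _ _ ha hb =>
      obtain ⟨n, hn⟩ := ha
      obtain ⟨m, hm⟩ := hb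
      refine ⟨max n m, ?_⟩
      rw [mul_add]
      exact R.add_mem (hmono _ _ _ (le_max_left _ _) hn) (hmono _ _ _ (le_max_right _ _) hm)
    | mul a b _ _ ha hb =>
      obtain ⟨n, hn⟩ := ha
      obtain ⟨m, hm⟩ := hb
      refine ⟨n + m, ?_⟩
      rw [pow_add, mul_mul_mul_comm]
      exact R.mul_mem hn hm
  have hcan : ∀ (t : T) (n : ℕ) (f : K), f = f * r t ^ n * ((r t)⁻¹) ^ n := by
    intro t n f
    rw [mul_assoc, ← mul_pow, mul_inv_cancel₀ (hr0 t), one_pow, mul_one]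
  have hrat : ∀ t t', (c * M.H t') / (c * M.H t) = M.H t' / M.H t := by
    intro t t'
    rw [mul_div_mul_left _ _ hc0]
  refine ⟨
    { A := C
      H := fun t => c * M.H t
      x := M.x
      sm := hsmC
      base := hRC
      H0 := fun t => mul_ne_zero hc0 (M.H0 t)
      HR := hcH
      rt := fun t t' => by
        rw [hrat]
        exact hleC t (M.rt t t')
      gl := by
        intro t t' f hf
        obtain ⟨n, hn⟩ := (mem_adj_inv (hrmem t') (hr0 t')).1 hf
        obtain ⟨m, hm⟩ := M.gl t t' _ hn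
        refine ⟨m, ?_⟩
        rw [hrat]
        have h1 : (M.H t' / M.H t) ^ m * f =
            (M.H t' / M.H t) ^ m * (f * r t' ^ n) * ((r t')⁻¹) ^ n := by
          rw [mul_assoc, ← hcan]
        rw [h1]
        exact (C t).mul_mem (hleC t hm) ((C t).pow_mem (hRC t (hrR t')) n)
      dn := by
        intro t f hf
        obtain ⟨n, hn⟩ := (mem_adj_inv (hrmem t) (hr0 t)).1 hf
        obtain ⟨m, hm⟩ := hdn1 t _ hn
        refine ⟨m, ?_⟩
        have h1 : (c * M.H t) ^ m * f = (c * M.H t) ^ m * (f * r t ^ n) * ((r t)⁻¹) ^ n := by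
          rw [mul_assoc, ← hcan]
        rw [h1]
        exact R.mul_mem hm (R.pow_mem (hrR t) n)
      cv := by
        intro V hV
        obtain ⟨t, ht⟩ := M.cv V (fun a ha => hV a ((bot_le : (⊥ : Subalgebra k K) ≤ R) ha))
        refine ⟨t, ?_⟩
        refine adj_induction (M.A t) (r t)⁻¹ (p := fun f => f ∈ V) (fun a ha => ht a ha)
          (fun a b ha hb => V.add_mem _ _ ha hb)
          (fun a ha => V.mul_mem _ _ ha (hV _ (hrR t)))
      xA := fun t i => hleC t (M.xA t i)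
      x0 := M.x0
      gi := by
        intro t t' i
        obtain ⟨n, hn⟩ := M.gi t t' i
        exact ⟨n, by rw [hrat]; exact hleC t hn⟩
      snc := fun t => SNC.loc (M.snc t) (M.xA t) (hrmem t) (hr0 t) }, hleC⟩

end aux

/-- Principalization of boundary functions. -/
theorem exists_cmp {k K : Type} [Field k] [Field K] [Algebra k K] {T I : Type} [Finite T]
    [Fintype I] (M : LM (⊥ : Subalgebra k K) ⊤ T I) (hFr : Frc M) {ι : Type} [Finite ι]
    (y : ι → K) (hy : ∀ i, IsBr M (y i)) :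
    ∃ (T' I' : Type) (_ : Finite T') (_ : Fintype I') (M' : LM (⊥ : Subalgebra k K) ⊤ T' I'),
      Frc M' ∧ ∀ t i j, y i / y j ∈ M'.A t ∨ y j / y i ∈ M'.A t := by
  classical
  have hy0 : ∀ i, y i ≠ 0 := fun i => (hy i).ne
  obtain ⟨N, hN, hB⟩ := exists_common hy
  have hN0 : N ≠ 0 := by
    rintro rfl
    exact hN Nat.cast_zero
  obtain ⟨T', I', hT', hI', M', q, hq, hpr⟩ := exists_princ M (fun i => y i ^ N) hB
  have hFr' := hq.frc hFr
  refine ⟨T', I', hT', hI', M', hFr', fun t i j => ?_⟩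
  have hsm := M'.sm t
  have hic : IsIntegrallyClosed (M'.A t) := wd_norm k (M'.A t)
  have hfrac : IsFractionRing (M'.A t) K := by
    refine IsFractionRing.of_field _ _ fun z => ?_
    obtain ⟨u, hu, v, hv, hv0, h⟩ := hFr' t z
    exact ⟨⟨u, hu⟩, ⟨v, hv⟩, by rw [h, div_eq_mul_inv]; rfl⟩
  have key : ∀ a b : K, a ^ N / b ^ N ∈ M'.A t → a / b ∈ M'.A t := by
    intro a b h
    have h1 : IsIntegral (M'.A t) (a / b) := by
      refine IsIntegral.of_pow (Nat.pos_of_ne_zero hN0) ?_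
      rw [div_pow]
      exact isIntegral_algebraMap (x := (⟨_, h⟩ : M'.A t))
    obtain ⟨w, hw⟩ := IsIntegrallyClosed.isIntegral_iff.1 h1
    rw [← hw]
    exact w.2
  rcases hpr t i j with h | h
  · exact Or.inr (key _ _ h)
  · exact Or.inl (key _ _ h)

end Pool.Agent.Run7.h945.TR
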