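import Pool.Agent.Run7.h945.TR.Fin
import Pool.Agent.Run7.h945.TR.Blocks
import Pool.Agent.Run7.h945.TR.Restr
import Pool.Agent.N762.FP.Cls

set_option autoImplicit false
set_option linter.unusedSectionVars false

open Polynomial AlgebraicGeometry CategoryTheory Pool.Agent.H920R2 Pool.Agent.W558
  Pool.Agent.N98 Pool.Agent.N98.PJ Pool.Agent.N762.FP

namespace Pool.Agent.Run7.h945.TR

/-- Comparable functions on a model over an affine variety, for functions in `P`. -/
theorem exists_model2 {k B K : Type} [Field k] [CommRing B] [IsDomain B] [Algebra k B]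
    [Field K] [Algebra k K] [Algebra B K] [IsScalarTower k B K] [IsFractionRing B K]
    {P : Set K} (hP : Mod k P) (s : Finset B) (hs : ∀ a ∈ s, algebraMap B K a ∈ P)
    (hint : ∀ a : B, IsIntegral (Algebra.adjoin k (s : Set B)) a)
    {r : ℕ} (v : Fin r → B) (hv : ∀ j, algebraMap B K (v j) ∈ P) :
    ∃ (T I : Type) (_ : Finite T) (R : Subalgebra k K) (M : LM R R T I),
      (∀ x, x ∈ R ↔ ∃ b, algebraMap B K b = x) ∧
      ∀ t i j, v i ≠ 0 → v j ≠ 0 → algebraMap B K (v i) / algebraMap B K (v j) ∈ M.A t ∨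
        algebraMap B K (v j) / algebraMap B K (v i) ∈ M.A t := by
  classical
  have hBK : Function.Injective (algebraMap B K) := IsFractionRing.injective B K
  let Y : Finset K := (s.image (algebraMap B K)).filter fun x => x ≠ 0
  let ι := {x : K // x ∈ Y} ⊕ {j : Fin r // v j ≠ 0}
  let y : ι → K := Sum.elim (fun x => x.1) (fun j => algebraMap B K (v j.1))
  have hyP : ∀ i, y i ∈ P := by
    rintro (⟨x, hx⟩ | ⟨j, hj⟩)
    · obtain ⟨a, ha, hax⟩ := Finset.mem_image.1 (Finset.mem_filter.1 hx).1
      change x ∈ P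
      rw [← hax]
      exact hs a ha
    · exact hv j
  have hy0 : ∀ i, y i ≠ 0 := by
    rintro (⟨x, hx⟩ | ⟨j, hj⟩)
    · exact (Finset.mem_filter.1 hx).2
    · intro h
      exact hj (hBK (by rw [map_zero]; exact h))
  obtain ⟨T, I, hT, hI, M, hFr, hM⟩ := hP ι y hyP hy0
  -- add the constant function 1
  let y' : Option ι → K := fun o => o.elim 1 y
  have hM' : ∀ i, IsBr M (y' i) := by
    rintro (_ | i)
    · refine ⟨1, by simp, 0, fun t => ⟨1, one_ne_zero, (M.A t).one_mem, ?_, ?_⟩⟩
      · rw [inv_one]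
        exact (M.A t).one_mem
      · simp [y']
    · exact hM i
  obtain ⟨T1, I1, hT1, hI1, M1, hFr1, hc⟩ := exists_cmp M hFr y' hM'
  let R : Subalgebra k K := (IsScalarTower.toAlgHom k B K).range
  have hR : ∀ x, x ∈ R ↔ ∃ b, algebraMap B K b = x := fun x => Iff.rfl
  obtain ⟨M2, hM2⟩ := restr_gen M1 hFr1 Y (fun y hy => (Finset.mem_filter.1 hy).2) (by
      intro t x hx
      rcases hc t (some (Sum.inl ⟨x, hx⟩)) none with h | h
      · left
        have e : y' (some (Sum.inl ⟨x, hx⟩)) / y' none = x := div_one x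
        rwa [e] at h
      · right
        have e : y' none / y' (some (Sum.inl ⟨x, hx⟩)) = x⁻¹ := one_div x
        rwa [e] at h) R (by
      intro x hx
      obtain ⟨a, ha, hax⟩ := Finset.mem_image.1 (Finset.mem_filter.1 hx).1
      exact ⟨a, hax⟩) (by
      rintro _ ⟨a, rfl⟩
      obtain ⟨Q, hQ, hQ0⟩ := hint a
      have hle : ∀ c : Algebra.adjoin k (s : Set B), algebraMap B K (c : B) ∈
          Algebra.adjoin k (Y : Set K) := by
        intro c
        have h1 : (Algebra.adjoin k (s : Set B)).map (IsScalarTower.toAlgHom k B K) ≤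
            Algebra.adjoin k (Y : Set K) := by
          rw [AlgHom.map_adjoin]
          refine Algebra.adjoin_le ?_
          rintro _ ⟨b, hb, rfl⟩
          by_cases h0 : algebraMap B K b = 0
          · change algebraMap B K b ∈ _
            rw [h0]
            exact Subalgebra.zero_mem _
          · exact Algebra.subset_adjoin
              (Finset.mem_filter.2 ⟨Finset.mem_image.2 ⟨b, hb, rfl⟩, h0⟩)
        exact h1 ⟨c, c.2, rfl⟩
      let κ : Algebra.adjoin k (s : Set B) →+* Algebra.adjoin k (Y : Set K) :=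
        ((algebraMap B K).comp (Algebra.adjoin k (s : Set B)).val.toRingHom).codRestrict
          (Algebra.adjoin k (Y : Set K)) hle
      refine ⟨Q.map κ, hQ.map _, ?_⟩
      rw [eval₂_map]
      have h2 := congrArg (algebraMap B K) hQ0
      rw [map_zero, Polynomial.hom_eval₂] at h2
      exact h2) (by
      intro x
      obtain ⟨a, b, hb, rfl⟩ := IsFractionRing.div_surjective (A := B) x
      refine ⟨_, ⟨a, rfl⟩, _, ⟨b, rfl⟩, ?_, ?_⟩
      · exact (FaithfulSMul.algebraMap_eq_zero_iff B K).not.2 (nonZeroDivisors.ne_zero hb)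
      · rw [div_eq_mul_inv]
        rfl)
  refine ⟨T1, I1, hT1, R, M2, hR, ?_⟩
  intro t i j hi hj
  rcases hc t (some (Sum.inr ⟨i, hi⟩)) (some (Sum.inr ⟨j, hj⟩)) with h | h
  · exact Or.inl (hM2 t h)
  · exact Or.inr (hM2 t h)

/-- A pivot in a finite family. -/
lemma exists_pivot {σ : Type*} [Finite σ] {A K : Type*} [CommRing A] [Field K] (ι : A →+* K)
    (hι : Function.Injective ι) (w : σ → A)
    (hc : ∀ i j, w i ≠ 0 → w j ≠ 0 → (∃ s, ι (w i) / ι (w j) = ι s) ∨
      ∃ s, ι (w j) / ι (w i) = ι s) (hne : Nonempty σ) :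
    ∃ j0, ∀ j, ∃ c, w j = c * w j0 := by
  classical
  have := Fintype.ofFinite σ
  by_cases hz : ∀ j, w j = 0
  · obtain ⟨j0⟩ := hne
    exact ⟨j0, fun j => ⟨0, by rw [hz j, zero_mul]⟩⟩
  · push Not at hz
    have hdvd : ∀ i j, w i ≠ 0 → w j ≠ 0 → (∃ c, w i = c * w j) ∨ ∃ c, w j = c * w i := by
      intro i j hi hj
      have hi' : ι (w i) ≠ 0 := fun h => hi (hι (by rw [h, map_zero]))
      have hj' : ι (w j) ≠ 0 := fun h => hj (hι (by rw [h, map_zero]))
      rcases hc i j hi hj with ⟨s, hs⟩ | ⟨s, hs⟩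
      · left
        refine ⟨s, hι ?_⟩
        rw [map_mul, ← hs, div_mul_cancel₀ _ hj']
      · right
        refine ⟨s, hι ?_⟩
        rw [map_mul, ← hs, div_mul_cancel₀ _ hi']
    have key : ∀ F : Finset σ, (∃ j ∈ F, w j ≠ 0) →
        ∃ j0, w j0 ≠ 0 ∧ ∀ j ∈ F, ∃ c, w j = c * w j0 := by
      intro F
      induction F using Finset.induction_on with
      | empty => rintro ⟨j, hj, -⟩; simp at hj
      | insert q F hq ihF =>
        intro hF
        by_cases h1 : ∃ j ∈ F, w j ≠ 0
        · obtain ⟨i, hi, h2⟩ := ihF h1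
          by_cases hqz : w q = 0
          · refine ⟨i, hi, fun j hj => ?_⟩
            rcases Finset.mem_insert.1 hj with rfl | hj
            · exact ⟨0, by rw [hqz, zero_mul]⟩
            · exact h2 j hj
          · rcases hdvd q i hqz hi with ⟨s, hs⟩ | ⟨s, hs⟩
            · refine ⟨i, hi, fun j hj => ?_⟩
              rcases Finset.mem_insert.1 hj with rfl | hj
              · exact ⟨s, hs⟩
              · exact h2 j hj
            · refine ⟨q, hqz, fun j hj => ?_⟩
              rcases Finset.mem_insert.1 hj with rfl | hj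
              · exact ⟨1, by rw [one_mul]⟩
              · obtain ⟨c, hc'⟩ := h2 j hj
                exact ⟨c * s, by rw [hc', hs, mul_assoc]⟩
        · push Not at h1
          obtain ⟨j, hj, hj0⟩ := hF
          have hjq : j = q := by
            rcases Finset.mem_insert.1 hj with h | h
            · exact h
            · exact absurd (h1 j h) hj0
          subst hjq
          refine ⟨j, hj0, fun j' hj' => ?_⟩
          rcases Finset.mem_insert.1 hj' with rfl | hj'
          · exact ⟨1, by rw [one_mul]⟩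
          · exact ⟨0, by rw [h1 j' hj', zero_mul]⟩
    obtain ⟨j, hj⟩ := hz
    obtain ⟨j0, -, h⟩ := key Finset.univ ⟨j, Finset.mem_univ j, hj⟩
    exact ⟨j0, fun j => h j (Finset.mem_univ j)⟩

/-- The main theorem for blocks of functions in `P`. -/
theorem hasResolution_blocks {k B K : Type} [Field k] [CommRing B] [IsDomain B] [Algebra k B]
    [Field K] [Algebra k K] [Algebra B K] [IsScalarTower k B K] [IsFractionRing B K]
    {p : ℕ} [Fact p.Prime] [CharP k p]
    {P : Set K} (hP : Mod k P) (s : Finset B) (hs : ∀ a ∈ s, algebraMap B K a ∈ P)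
    (hint : ∀ a : B, IsIntegral (Algebra.adjoin k (s : Set B)) a)
    {r n : ℕ} (v : Fin r → B) (hv : ∀ j, algebraMap B K (v j) ∈ P) (β : Fin r → Fin n)
    (l : List (B × (Fin r → B))) (hl : ∀ x ∈ l, ∃ i g, x.2 = bv β v i g) :
    HasResolution (X := Spec (CommRingCat.of (CI k p l)))
      (Spec.map (CommRingCat.ofHom (algebraMap k (CI k p l)))) := by
  have hBK : Function.Injective (algebraMap B K) := IsFractionRing.injective B K
  obtain ⟨T, I, iT, R, M, hR, hM⟩ := exists_model2 hP s hs hint v hv
  have hA : ∀ t, ∀ b : B, algebraMap B K b ∈ M.A t := fun t b => M.base t ((hR _).2 ⟨b, rfl⟩)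
  refine hasResolution_of_atl (gI k K p l) ?_ (atl_of_LM (p := p) hBK l hR M hA fun t => ?_)
  · intro f g h
    rw [gI_apply, gI_apply] at h
    exact Subtype.val_injective (MvPolynomial.map_injective _ hBK
      (IsFractionRing.injective (MvPolynomial (Fin r) K) (LL (Fin r) K) h))
  · refine good_blocks β _ (fun j => jm (M.A t) (hA t) (v j)) ?_ _ rfl ?_
    · intro i ⟨j1, hj1⟩
      have hjm : Function.Injective (jm (M.A t) (hA t)) := fun x y h =>
        hBK (congrArg Subtype.val h)
      obtain ⟨j0, hj0⟩ := exists_pivot (σ := {j : Fin r // β j = i})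
        ((M.A t).val : M.A t →+* K) Subtype.val_injective
        (fun j => jm (M.A t) (hA t) (v j.1)) (by
          intro i' j' hi' hj'
          have hi2 : v i'.1 ≠ 0 := by
            intro h
            apply hi'
            rw [h, map_zero]
          have hj2 : v j'.1 ≠ 0 := by
            intro h
            apply hj'
            rw [h, map_zero]
          rcases hM t i'.1 j'.1 hi2 hj2 with h | h
          · exact Or.inl ⟨⟨_, h⟩, rfl⟩
          · exact Or.inr ⟨⟨_, h⟩, rfl⟩) ⟨⟨j1, hj1⟩⟩
      choose c hc using hj0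
      refine ⟨j0.1, j0.2, fun j => if h : β j = i then c ⟨j, h⟩ else 0, ?_⟩
      intro j hj
      simp only [dif_pos hj]
      exact hc ⟨j, hj⟩
    · intro x hx
      obtain ⟨⟨b, w⟩, hmem, rfl⟩ := List.mem_map.1 hx
      obtain ⟨i, g, hg⟩ := hl _ hmem
      refine ⟨i, jm (M.A t) (hA t) g, ?_⟩
      funext j
      simp only at hg ⊢
      rw [hg]
      simp only [bv]
      split_ifs
      · rw [map_mul]
      · rw [map_zero]

end Pool.Agent.Run7.h945.TR
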