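import Pool.Agent.Run7.h945.TR.Good

set_option autoImplicit false

open Polynomial

namespace Pool.Agent.Run7.h945.TR

section special

variable {σ S : Type*} [CommRing S]

lemma eval_Fs (v : σ → S) (a : S) (f : MvPolynomial σ S) :
    (Fs v f).eval (MvPolynomial.C a) =
      MvPolynomial.aeval (fun j => MvPolynomial.X j + MvPolynomial.C (a * v j)) f := by
  have : ((Polynomial.aeval (R := MvPolynomial σ S) (MvPolynomial.C a : MvPolynomial σ S)
      ).restrictScalars S).comp (Fs v) =
      MvPolynomial.aeval (fun j => MvPolynomial.X j + MvPolynomial.C (a * v j)) := by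
    apply MvPolynomial.algHom_ext
    intro j
    rw [AlgHom.comp_apply, Fs_X, MvPolynomial.aeval_X, AlgHom.restrictScalars_apply]
    simp
    ring
  exact congrArg (fun ψ : MvPolynomial σ S →ₐ[S] MvPolynomial σ S => ψ f) this

lemma eval_zero_Fs (v : σ → S) (f : MvPolynomial σ S) : (Fs v f).eval 0 = f := by
  have h := eval_Fs v 0 f
  rw [map_zero] at h
  rw [h]
  simp

/-- The case `b = 1`: translations. -/
theorem inv_one_iff {p : ℕ} [Fact p.Prime] [CharP S p] [IsDomain S] (v : σ → S)
    (f : MvPolynomial σ S) : Inv p 1 v f ↔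
      MvPolynomial.aeval (fun j => MvPolynomial.X j + MvPolynomial.C (v j)) f = f := by
  have hp : p.Prime := Fact.out
  unfold Inv
  constructor
  · intro h
    obtain ⟨q, hq⟩ := h
    have h1 := congrArg (fun g => g.eval (MvPolynomial.C 1 : MvPolynomial σ S)) hq
    simp only [eval_sub, eval_mul, eval_C, eval_Fs, one_mul] at h1
    have h2 : (AS p (MvPolynomial.C 1 : MvPolynomial σ S)).eval (MvPolynomial.C 1) = 0 := by
      unfold AS
      simp
    rw [h2, zero_mul] at h1
    exact sub_eq_zero.1 h1
  · intro h
    have hP : CharP (MvPolynomial σ S) p :=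
      charP_of_injective_ringHom (MvPolynomial.C_injective σ S) p
    have hm : (AS p (MvPolynomial.C 1 : MvPolynomial σ S)).Monic := AS_monic hp.one_lt _
    rw [← modByMonic_eq_zero_iff_dvd hm]
    set D := Fs v f - C f with hD
    have h3 : ∀ i : ℕ, D.eval (i : MvPolynomial σ S) = 0 := by
      intro i
      have e : (i : MvPolynomial σ S) = MvPolynomial.C (i : S) := by simp
      rw [hD, eval_sub, eval_C, e, eval_Fs, sub_eq_zero]
      induction i with
      | zero => simp
      | succ i ih =>
        have h4 := ih (by simp)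
        have h5 : (MvPolynomial.aeval fun j => MvPolynomial.X j +
            MvPolynomial.C (((i + 1 : ℕ) : S) * v j) : MvPolynomial σ S →ₐ[S] MvPolynomial σ S) =
            (MvPolynomial.aeval fun j => MvPolynomial.X j + MvPolynomial.C (v j)).comp
              (MvPolynomial.aeval fun j => MvPolynomial.X j + MvPolynomial.C ((i : S) * v j)) := by
          apply MvPolynomial.algHom_ext
          intro j
          rw [AlgHom.comp_apply, MvPolynomial.aeval_X, MvPolynomial.aeval_X, map_add,
            MvPolynomial.aeval_X]
          have e6 : MvPolynomial.aeval (R := S) (fun j => MvPolynomial.X (R := S) j +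
              MvPolynomial.C (v j)) (MvPolynomial.C ((i : S) * v j)) =
              (MvPolynomial.C ((i : S) * v j) : MvPolynomial σ S) :=
            MvPolynomial.aeval_C _ _
          rw [e6, Nat.cast_succ, add_mul, one_mul, map_add]
          ring
        rw [h5, AlgHom.comp_apply, h4, h]
    have h4 : ∀ i : ℕ, (AS p (MvPolynomial.C 1 : MvPolynomial σ S)).eval
        (i : MvPolynomial σ S) = 0 := by
      intro i
      unfold AS
      rw [eval_sub, eval_mul, eval_C, eval_pow, eval_X, map_one, one_mul, sub_eq_zero]
      exact map_natCast (frobenius (MvPolynomial σ S) p) i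
    classical
    have hinj : Set.InjOn (fun i : ℕ => (i : MvPolynomial σ S)) (Finset.range p : Set ℕ) := by
      intro i hi j hj hij
      have h6 := (CharP.natCast_eq_natCast (MvPolynomial σ S) p).1 hij
      rw [Finset.coe_range, Set.mem_Iio] at hi hj
      exact Nat.ModEq.eq_of_lt_of_lt h6 hi hj
    refine eq_zero_of_natDegree_lt_card_of_eval_eq_zero' _
      ((Finset.range p).image fun i : ℕ => (i : MvPolynomial σ S)) ?_ ?_
    · intro x hx
      obtain ⟨i, -, rfl⟩ := Finset.mem_image.1 hx
      have h5 := modByMonic_add_div D (AS p (MvPolynomial.C 1 : MvPolynomial σ S))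
      have h6 := congrArg (fun g => g.eval (i : MvPolynomial σ S)) h5
      simp only [eval_add, eval_mul, h3, h4, zero_mul, add_zero] at h6
      exact h6
    · rw [Finset.card_image_of_injOn hinj, Finset.card_range]
      have h7 : (D %ₘ AS p (MvPolynomial.C 1 : MvPolynomial σ S)).natDegree <
          (AS p (MvPolynomial.C 1 : MvPolynomial σ S)).natDegree := by
        refine natDegree_modByMonic_lt D hm ?_
        intro h8
        have := AS_natDegree hp.one_lt (MvPolynomial.C 1 : MvPolynomial σ S)
        rw [h8, natDegree_one] at this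
        exact hp.ne_zero this.symm
      rwa [AS_natDegree hp.one_lt] at h7

/-- The vector field. -/
noncomputable def vf [Fintype σ] (v : σ → S) (f : MvPolynomial σ S) : MvPolynomial σ S :=
  ∑ j, MvPolynomial.C (v j) * MvPolynomial.pderiv j f

lemma vf_mul [Fintype σ] (v : σ → S) (f g : MvPolynomial σ S) :
    vf v (f * g) = vf v f * g + f * vf v g := by
  unfold vf
  rw [Finset.sum_mul, Finset.mul_sum, ← Finset.sum_add_distrib]
  refine Finset.sum_congr rfl fun j _ => ?_
  rw [Derivation.leibniz, smul_eq_mul, smul_eq_mul]
  ring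

lemma vf_X [Fintype σ] (v : σ → S) (j : σ) : vf v (MvPolynomial.X j) = MvPolynomial.C (v j) := by
  classical
  unfold vf
  rw [Finset.sum_eq_single j]
  · rw [MvPolynomial.pderiv_X_self, mul_one]
  · intro i _ hi
    rw [MvPolynomial.pderiv_X_of_ne hi.symm, mul_zero]
  · intro h
    exact absurd (Finset.mem_univ j) h

lemma derivative_Fs [Fintype σ] (v : σ → S) (f : MvPolynomial σ S) :
    derivative (Fs v f) = Fs v (vf v f) := by
  induction f using MvPolynomial.induction_on with
  | C a =>
    rw [Fs_C, derivative_C]
    have : vf v (MvPolynomial.C a) = 0 := by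
      unfold vf
      exact Finset.sum_eq_zero fun j _ => by rw [MvPolynomial.pderiv_C, mul_zero]
    rw [this, map_zero]
  | add f g hf hg =>
    have : vf v (f + g) = vf v f + vf v g := by
      unfold vf
      rw [← Finset.sum_add_distrib]
      exact Finset.sum_congr rfl fun j _ => by rw [map_add, mul_add]
    rw [map_add, derivative_add, hf, hg, this, map_add]
  | mul_X f j hf =>
    rw [vf_mul, vf_X, map_mul, derivative_mul, hf, map_add, map_mul, map_mul, Fs_X, Fs_C]
    congr 1
    simp

/-- The case `b = 0`: vector fields. -/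
theorem inv_zero_iff [Fintype σ] {p : ℕ} [Fact p.Prime] [CharP S p] [IsDomain S] (v : σ → S)
    (f : MvPolynomial σ S) : Inv p 0 v f ↔
      ∑ j, MvPolynomial.C (v j) * MvPolynomial.pderiv j f = 0 := by
  have hp : p.Prime := Fact.out
  have hP : CharP (MvPolynomial σ S) p :=
    charP_of_injective_ringHom (MvPolynomial.C_injective σ S) p
  change _ ↔ vf v f = 0
  have e : AS p (MvPolynomial.C 0 : MvPolynomial σ S) = X ^ p := by
    unfold AS
    simp
  unfold Inv
  rw [e]
  constructor
  · intro h
    rw [X_pow_dvd_iff] at h
    have h1 := h 1 hp.one_lt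
    rw [coeff_sub, coeff_C, if_neg one_ne_zero, sub_zero] at h1
    have h2 : (derivative (Fs v f)).coeff 0 = 0 := by
      rw [coeff_derivative, h1, zero_mul]
    rw [derivative_Fs, coeff_zero_eq_eval_zero, eval_zero_Fs] at h2
    exact h2
  · intro h
    have h1 : derivative (Fs v f) = 0 := by rw [derivative_Fs, h, map_zero]
    have h2 := expand_contract p h1 hp.ne_zero
    rw [X_pow_dvd_iff]
    intro d hd
    rw [coeff_sub, coeff_C]
    by_cases hd0 : d = 0
    · rw [if_pos hd0, hd0, coeff_zero_eq_eval_zero, eval_zero_Fs, sub_self]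
    · rw [if_neg hd0, sub_zero, ← h2, coeff_expand hp.pos, if_neg]
      intro h3
      exact hd0 (Nat.eq_zero_of_dvd_of_lt h3 hd)

end special

end Pool.Agent.Run7.h945.TR
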