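import Pool.Agent.Run7.h945.TR.Rep
import Pool.Agent.Run7.h945.TR.Fin2

set_option autoImplicit false
set_option linter.unusedSectionVars false

open Polynomial AlgebraicGeometry CategoryTheory Pool.Agent.H920R2 Pool.Agent.W558
  Pool.Agent.N98 Pool.Agent.N98.PJ Pool.Agent.N762.FP

namespace Pool.Agent.Run7.h945.TR

section int

variable {σ S : Type*} [DecidableEq σ] [CommRing S]

/-- The invariants under the additive group of the translations `z + t * v`. -/
def GA (v : σ → S) : Subring (MvPolynomial σ S) where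
  carrier := {a | Fs v a = C a}
  mul_mem' := by
    intro a b ha hb
    simp only [Set.mem_ofPred_eq] at ha hb ⊢
    rw [map_mul, ha, hb, C_mul]
  one_mem' := by
    simp only [Set.mem_ofPred_eq]
    rw [map_one, C_1]
  add_mem' := by
    intro a b ha hb
    simp only [Set.mem_ofPred_eq] at ha hb ⊢
    rw [map_add, ha, hb, C_add]
  zero_mem' := by
    simp only [Set.mem_ofPred_eq]
    rw [map_zero, C_0]
  neg_mem' := by
    intro a ha
    simp only [Set.mem_ofPred_eq] at ha ⊢
    rw [map_neg, ha, C_neg]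

lemma mem_GA {v : σ → S} {a : MvPolynomial σ S} : a ∈ GA v ↔ Fs v a = C a := Iff.rfl

lemma C_mem_GA (v : σ → S) (a : S) : MvPolynomial.C a ∈ GA v := by
  rw [mem_GA, Fs_C]

/-- The evaluation at the coordinate `z j`. -/
noncomputable def evj (v : σ → S) (j : σ) : MvPolynomial PUnit.{1} (GA v) →+* MvPolynomial σ S :=
  MvPolynomial.eval₂Hom (GA v).subtype fun _ => MvPolynomial.X j

lemma evj_C (v : σ → S) (j : σ) (a : GA v) : evj v j (MvPolynomial.C a) = a := by
  unfold evj
  rw [MvPolynomial.eval₂Hom_C]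
  rfl

lemma evj_X (v : σ → S) (j : σ) (u : PUnit.{1}) :
    evj v j (MvPolynomial.X u) = MvPolynomial.X j := by
  unfold evj
  rw [MvPolynomial.eval₂Hom_X']

lemma Fw_evj (v : σ → S) (j : σ) (g h : GA v)
    (hh : (h : MvPolynomial σ S) = (g : MvPolynomial σ S) * MvPolynomial.C (v j))
    (F : MvPolynomial PUnit.{1} (GA v)) :
    Fw (gv (g : MvPolynomial σ S) v) (evj v j F) = (Fs (fun _ => h) F).map (evj v j) := by
  induction F using MvPolynomial.induction_on with
  | C a =>
    rw [evj_C, Fs_C, map_C, evj_C]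
    exact Fw_of_inv a.2 _
  | add f g hf hg => rw [map_add, map_add, map_add, Polynomial.map_add, hf, hg]
  | mul_X f u hf =>
    have h1 : Fw (gv (g : MvPolynomial σ S) v) (evj v j (MvPolynomial.X u)) =
        (Fs (fun _ => h) (MvPolynomial.X u : MvPolynomial PUnit.{1} (GA v))).map (evj v j) := by
      have h2 : gv (g : MvPolynomial σ S) v j = h := hh.symm
      rw [evj_X, Fw_X, h2, Fs_X, Polynomial.map_add, Polynomial.map_mul, map_C, map_C, map_X,
        evj_X, evj_C]
    rw [map_mul, map_mul, hf, h1, map_mul, Polynomial.map_mul]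

lemma invR_evj {p : ℕ} (v : σ → S) (j : σ) (b g h : GA v)
    (hh : (h : MvPolynomial σ S) = (g : MvPolynomial σ S) * MvPolynomial.C (v j))
    (F : MvPolynomial PUnit.{1} (GA v)) (hF : Inv p b (fun _ => h) F) :
    InvR p (b : MvPolynomial σ S) (gv (g : MvPolynomial σ S) v) (evj v j F) := by
  unfold InvR
  unfold Inv at hF
  rw [Fw_evj v j g h hh F]
  have h1 := Polynomial.map_dvd (evj v j) hF
  rw [AS_map, evj_C, Polynomial.map_sub, map_C] at h1
  exact h1

/-- There are sufficiently many invariants. -/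
theorem exists_inv_hom {Q R : Type*} [CommRing Q] [CommRing R] {p : ℕ} [Fact p.Prime] [CharP Q p]
    (ev : MvPolynomial PUnit.{1} Q →+* R) (l0 : List (Q × (PUnit.{1} → Q))) (D : Subring R)
    (hD : ∀ F, INV p l0 F → ev F ∈ D) : IsIntegral D (ev (MvPolynomial.X PUnit.unit)) := by
  obtain ⟨ψ, h1, h2⟩ := exists_psi (p := p) l0.length l0 rfl
  obtain ⟨P, hP, hP0⟩ := h2 (MvPolynomial.X PUnit.unit)
  have hmem : ∀ F, ev (ψ F) ∈ D := fun F => hD _ (h1 F)
  let ψ' : MvPolynomial PUnit.{1} Q →+* D :=
    (ev.comp (ψ : MvPolynomial PUnit.{1} Q →+* MvPolynomial PUnit.{1} Q)).codRestrict D hmem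
  refine ⟨P.map ψ', hP.map _, ?_⟩
  rw [eval₂_map]
  have h4 := congrArg ev hP0
  rw [map_zero, Polynomial.hom_eval₂] at h4
  exact h4

/-- The coordinates are integral over the invariants. -/
theorem isIntegral_rep {p : ℕ} [Fact p.Prime] [CharP S p] {v : σ → S}
    (l : List (MvPolynomial σ S × MvPolynomial σ S))
    (hl : ∀ x ∈ l, Fs v x.1 = C x.1 ∧ Fs v x.2 = C x.2) (D : Subring (MvPolynomial σ S))
    (hD : ∀ f, (∀ x ∈ l, InvR p x.1 (gv x.2 v) f) → f ∈ D) (j : σ) :
    IsIntegral D (MvPolynomial.X j : MvPolynomial σ S) := by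
  have hp : p.Prime := Fact.out
  have hQp : CharP (GA v) p := by
    have h0 : CharP (MvPolynomial σ S) p := inferInstance
    exact (RingHom.charP_iff (GA v).subtype Subtype.val_injective p).2 h0
  let l0 : List (GA v × (PUnit.{1} → GA v)) := l.pmap
    (fun x hx => ((⟨x.1, hx.1⟩ : GA v), fun _ => (⟨x.2 * MvPolynomial.C (v j),
      (GA v).mul_mem hx.2 (C_mem_GA v _)⟩ : GA v))) hl
  have h1 := exists_inv_hom (p := p) (evj v j) l0 D (by
    intro F hF
    apply hD
    intro x hx
    have h3 := hF ((⟨x.1, (hl x hx).1⟩ : GA v), fun _ => (⟨x.2 * MvPolynomial.C (v j),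
      (GA v).mul_mem (hl x hx).2 (C_mem_GA v _)⟩ : GA v)) (List.mem_pmap.2 ⟨x, hx, rfl⟩)
    exact invR_evj v j ⟨x.1, (hl x hx).1⟩ ⟨x.2, (hl x hx).2⟩ _ rfl F h3)
  rwa [evj_X] at h1

end int

section alg

variable {σ S : Type*} [CommRing S]

/-- The algebra of invariants. -/
def RI (k : Type*) [CommRing k] [Algebra k S] (p : ℕ) (v : σ → S)
    (l : List (MvPolynomial σ S × MvPolynomial σ S)) : Subalgebra k (MvPolynomial σ S) where
  carrier := {f | ∀ x ∈ l, InvR p x.1 (gv x.2 v) f}
  mul_mem' := fun hf hg x hx => (hf x hx).mul (hg x hx)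
  add_mem' := fun hf hg x hx => (hf x hx).add (hg x hx)
  algebraMap_mem' := fun a x _ => InvR.const p x.1 (gv x.2 v) (algebraMap k S a)

lemma mem_RI {k : Type*} [CommRing k] [Algebra k S] {p : ℕ} {v : σ → S}
    {l : List (MvPolynomial σ S × MvPolynomial σ S)} {f : MvPolynomial σ S} :
    f ∈ RI k p v l ↔ ∀ x ∈ l, InvR p x.1 (gv x.2 v) f := Iff.rfl

lemma C_mem_RI (k : Type*) [CommRing k] [Algebra k S] (p : ℕ) (v : σ → S)
    (l : List (MvPolynomial σ S × MvPolynomial σ S)) (a : S) : MvPolynomial.C a ∈ RI k p v l :=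
  fun x _ => InvR.const p x.1 (gv x.2 v) a

/-- The data over another ring. -/
noncomputable def mr {S' : Type*} [CommRing S'] (ι : S →+* S')
    (l : List (MvPolynomial σ S × MvPolynomial σ S)) :
    List (MvPolynomial σ S' × MvPolynomial σ S') :=
  l.map fun x => (MvPolynomial.map ι x.1, MvPolynomial.map ι x.2)

lemma RI_map {S' : Type*} [CommRing S'] {k k' : Type*} [CommRing k] [Algebra k S] [CommRing k']
    [Algebra k' S'] {p : ℕ} (hp : 1 < p) (ι : S →+* S') (hι : Function.Injective ι)
    (v : σ → S) (l : List (MvPolynomial σ S × MvPolynomial σ S)) (f : MvPolynomial σ S) :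
    MvPolynomial.map ι f ∈ RI k' p (fun j => ι (v j)) (mr ι l) ↔ f ∈ RI k p v l := by
  rw [mem_RI, mem_RI]
  unfold mr
  rw [List.forall_mem_map]
  refine forall₂_congr fun x _ => ?_
  rw [← gv_map]
  exact invR_map hp ι hι x.1 (gv x.2 v) f

end alg

section main

/-- The main theorem for replicas. -/
theorem hasResolution_rep {k B K : Type} [Field k] [CommRing B] [IsDomain B] [Algebra k B]
    [Field K] [Algebra k K] [Algebra B K] [IsScalarTower k B K] [IsFractionRing B K]
    {p : ℕ} [Fact p.Prime] [CharP k p]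
    {P : Set K} (hP : Mod k P) (s : Finset B) (hs : ∀ a ∈ s, algebraMap B K a ∈ P)
    (hint : ∀ a : B, IsIntegral (Algebra.adjoin k (s : Set B)) a)
    {r : ℕ} (v : Fin r → B) (hv : ∀ j, algebraMap B K (v j) ∈ P)
    (l : List (MvPolynomial (Fin r) B × MvPolynomial (Fin r) B))
    (hl : ∀ x ∈ l, Fs v x.1 = C x.1 ∧ Fs v x.2 = C x.2) :
    HasResolution (X := Spec (CommRingCat.of (RI k p v l)))
      (Spec.map (CommRingCat.ofHom (algebraMap k (RI k p v l)))) := by
  have hp : p.Prime := Fact.out
  have hBK : Function.Injective (algebraMap B K) := IsFractionRing.injective B K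
  have hBp : CharP B p := charP_of_injective_algebraMap (algebraMap k B).injective p
  obtain ⟨T, I, iT, R, M, hR, hM⟩ := exists_model2 hP s hs hint v hv
  have hA : ∀ t, ∀ b : B, algebraMap B K b ∈ M.A t := fun t b => M.base t ((hR _).2 ⟨b, rfl⟩)
  let 𝒞 : Subalgebra K (MvPolynomial (Fin r) K) :=
    RI K p (fun j => algebraMap B K (v j)) (mr (algebraMap B K) l)
  have h𝒞 : CC k (iB k B K) 𝒞 = RI k p v l := by
    ext f
    rw [mem_CC]
    exact RI_map hp.one_lt (algebraMap B K) hBK v l f
  have key : ∀ D : Subalgebra k (MvPolynomial (Fin r) B), CC k (iB k B K) 𝒞 = D →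
      HasResolution (X := Spec (CommRingCat.of D))
        (Spec.map (CommRingCat.ofHom (algebraMap k D))) := by
    rintro _ rfl
    refine hasResolution_of_atl (gC k B 𝒞) (gC_injective hBK 𝒞) (atl_gen hBK 𝒞 hR M ?_ ?_)
    · intro j
      exact isIntegral_rep (p := p) l hl (CC k (iB k B K) 𝒞).toSubring
        (fun f hf => by rw [h𝒞]; exact hf) j
    · intro t
      have hsm := M.sm t
      have hjm : Function.Injective (jm (M.A t) (hA t)) := fun x y h =>
        hBK (congrArg Subtype.val h)
      let v' : Fin r → M.A t := fun j => jm (M.A t) (hA t) (v j)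
      let l' : List (MvPolynomial (Fin r) (M.A t) × MvPolynomial (Fin r) (M.A t)) :=
        mr (jm (M.A t) (hA t)) l
      have hD : ∀ f, f ∈ CC k (M.A t).val 𝒞 ↔ ∀ x ∈ l', InvR p x.1 (gv x.2 v') f := by
        intro f
        rw [mem_CC]
        have e1 : mr ((M.A t).val : M.A t →+* K) l' = mr (algebraMap B K) l := by
          simp only [mr, l', List.map_map]
          refine List.map_congr_left fun x _ => ?_
          refine Prod.ext ?_ ?_
          · exact MvPolynomial.map_map _ _ _
          · exact MvPolynomial.map_map _ _ _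
        have h1 := RI_map (k := k) (k' := K) (p := p) hp.one_lt ((M.A t).val : M.A t →+* K)
          Subtype.val_injective v' l' f
        rw [e1] at h1
        rw [← mem_RI (k := k), ← h1]
        exact Iff.rfl
      refine smooth_rep (p := p) (v := v') ?_ l' ?_ _ hD
      · rcases isEmpty_or_nonempty (Fin r) with hr | hr
        · exact Or.inl fun j => hr.elim j
        · obtain ⟨j0, hj0⟩ := exists_pivot ((M.A t).val : M.A t →+* K) Subtype.val_injective v' (by
            intro i j hi hj
            have hi2 : v i ≠ 0 := by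
              intro h
              apply hi
              simp only [v', h, map_zero]
            have hj2 : v j ≠ 0 := by
              intro h
              apply hj
              simp only [v', h, map_zero]
            rcases hM t i j hi2 hj2 with h | h
            · exact Or.inl ⟨⟨_, h⟩, rfl⟩
            · exact Or.inr ⟨⟨_, h⟩, rfl⟩) hr
          choose c hc using hj0
          exact Or.inr ⟨j0, c, hc⟩
      · intro x hx
        obtain ⟨y, hy, rfl⟩ := List.mem_map.1 hx
        exact ⟨ga_map _ (hl y hy).1, ga_map _ (hl y hy).2⟩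
  exact key _ h𝒞

end main

end Pool.Agent.Run7.h945.TR
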