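import Pool.Agent.W558.Atlas
import Pool.Agent.W558.WT.LU
import Pool.Agent.Run7.h945.TR.Restr

/-!
# Local uniformization from an atlas
-/

set_option autoImplicit false
set_option linter.unusedSectionVars false

open Polynomial AlgebraicGeometry CategoryTheory Pool.Agent.H920R2 Pool.Agent.W558
  Pool.Agent.W418.LU

namespace Pool.Agent.Run7.h945.TR

/-- Extension of valuation rings. -/
theorem ext_val {F L : Type} [Field F] [Field L] (κ : F →+* L) (V : ValuationSubring F) :
    ∃ W : ValuationSubring L, ∀ x, κ x ∈ W ↔ x ∈ V := by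
  obtain ⟨W, hW⟩ := (LocalSubring.range (κ.comp V.subtype)).exists_le_valuationSubring
  obtain ⟨hle, hloc⟩ := LocalSubring.le_def.1 hW
  have h1 : ∀ x ∈ V, κ x ∈ (LocalSubring.range (κ.comp V.subtype)).toSubring := by
    intro x hx
    exact ⟨⟨x, hx⟩, rfl⟩
  refine ⟨W, fun x => ⟨fun hx => ?_, fun hx => hle (h1 x hx)⟩⟩
  by_contra hxV
  have hx0 : x ≠ 0 := by
    rintro rfl
    exact hxV V.zero_mem
  have hinv : x⁻¹ ∈ V := (V.mem_or_inv_mem x).resolve_left hxV
  have hu : IsUnit (Subring.inclusion hle ⟨κ x⁻¹, h1 _ hinv⟩) := by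
    refine IsUnit.of_mul_eq_one (⟨κ x, hx⟩ : W.toLocalSubring.toSubring) ?_
    apply Subtype.ext
    change κ x⁻¹ * κ x = 1
    rw [← map_mul, inv_mul_cancel₀ hx0, map_one]
  obtain ⟨u, hu'⟩ := hloc.map_nonunit _ hu
  have h2 : κ x⁻¹ * ((u⁻¹ : (LocalSubring.range (κ.comp V.subtype)).toSubringˣ) :
      (LocalSubring.range (κ.comp V.subtype)).toSubring) = (1 : L) := by
    have h3 := u.mul_inv
    rw [hu'] at h3
    exact congrArg Subtype.val h3
  obtain ⟨y, hy⟩ := ((u⁻¹ : (LocalSubring.range (κ.comp V.subtype)).toSubringˣ) :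
      (LocalSubring.range (κ.comp V.subtype)).toSubring).2
  have hy' : κ (y : F) = ((u⁻¹ : (LocalSubring.range (κ.comp V.subtype)).toSubringˣ) :
      (LocalSubring.range (κ.comp V.subtype)).toSubring) := hy
  rw [← hy', ← map_mul] at h2
  have h4 : x⁻¹ * (y : F) = 1 := κ.injective (h2.trans (map_one κ).symm)
  have h5 : (y : F) = x := by
    field_simp at h4
    exact h4
  exact hxV (h5 ▸ y.2)

/-- Local uniformization of the localizations of a domain `A` which is integral and birational over
a domain `C0` with an atlas of smooth charts. -/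
theorem uniformized_of_atl {k C0 A L : Type} [Field k] [CommRing C0] [IsDomain C0] [Algebra k C0]
    [CommRing A] [IsDomain A] [Algebra k A] (j : C0 →ₐ[k] A) (hj : Function.Injective j)
    (hint : ∀ a : A, (j : C0 →+* A).IsIntegralElem a)
    (hbir : ∀ a : A, ∃ x y : C0, y ≠ 0 ∧ j y * a = j x)
    [Field L] [Algebra k L] (g : C0 →ₐ[k] L) (hg : Function.Injective g) {T : Type}
    {C : T → Subalgebra k L} {H : T → L} (h : Atl g C H)
    (q : Ideal A) [q.IsPrime] {R : Type} [CommRing R] [Algebra A R] [IsLocalization.AtPrime R q]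
    [IsLocalRing R] {K : Type} [Field K] [Algebra R K] [IsFractionRing R K]
    (V : ValuationSubring K) (hV1 : ∀ r : R, algebraMap R K r ∈ V)
    (hV2 : ∀ r : R, r ∈ IsLocalRing.maximalIdeal R ↔ V.valuation (algebraMap R K r) < 1) :
    UniformizedBy R K V := by
  let _ : Algebra A K := ((algebraMap R K).comp (algebraMap A R)).toAlgebra
  have t1 : IsScalarTower A R K := IsScalarTower.of_algebraMap_eq fun a => rfl
  let _ : Algebra k K := ((algebraMap A K).comp (algebraMap k A)).toAlgebra
  have t2 : IsScalarTower k A K := IsScalarTower.of_algebraMap_eq fun a => rfl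
  let _ : Algebra C0 K := ((algebraMap A K).comp (j : C0 →+* A)).toAlgebra
  have ej : ∀ c : C0, algebraMap C0 K c = algebraMap A K (j c) := fun c => rfl
  have hinjAR : Function.Injective (algebraMap A R) :=
    IsLocalization.injective R (Ideal.primeCompl_le_nonZeroDivisors q)
  have hinj : Function.Injective (algebraMap A K) :=
    (IsFractionRing.injective R K).comp hinjAR
  have hinjC : Function.Injective (algebraMap C0 K) := hinj.comp hj
  have hfaith : FaithfulSMul C0 K := (faithfulSMul_iff_algebraMap_injective C0 K).2 hinjC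
  have hfr0 : ∀ z : K, ∃ a b : A, algebraMap A K b ≠ 0 ∧
      z = algebraMap A K a / algebraMap A K b := by
    intro z
    obtain ⟨r, s, hs, rfl⟩ := IsFractionRing.div_surjective (A := R) z
    obtain ⟨⟨a, t⟩, h1⟩ := IsLocalization.surj q.primeCompl r
    obtain ⟨⟨b, u⟩, h2⟩ := IsLocalization.surj q.primeCompl s
    have ht0 : algebraMap A K (t : A) ≠ 0 := fun h => by
      rw [← map_zero (algebraMap A K)] at h
      exact t.2 (by rw [hinj h]; exact q.zero_mem)
    have hu0 : algebraMap A K (u : A) ≠ 0 := fun h => by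
      rw [← map_zero (algebraMap A K)] at h
      exact u.2 (by rw [hinj h]; exact q.zero_mem)
    have hs0 : algebraMap R K s ≠ 0 := by
      have := nonZeroDivisors.ne_zero hs
      exact (map_ne_zero_iff _ (IsFractionRing.injective R K)).2 this
    have h1' : algebraMap R K r * algebraMap A K (t : A) = algebraMap A K a := by
      rw [IsScalarTower.algebraMap_apply A R K, IsScalarTower.algebraMap_apply A R K, ← h1,
        map_mul]
    have h2' : algebraMap R K s * algebraMap A K (u : A) = algebraMap A K b := by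
      rw [IsScalarTower.algebraMap_apply A R K, IsScalarTower.algebraMap_apply A R K, ← h2,
        map_mul]
    refine ⟨a * u, b * t, ?_, ?_⟩
    · rw [map_mul, ← h2']
      exact mul_ne_zero (mul_ne_zero hs0 hu0) ht0
    · rw [map_mul, map_mul, ← h1', ← h2']
      field_simp
  have hbirK : ∀ a : A, ∃ x y : C0, algebraMap C0 K y ≠ 0 ∧
      algebraMap A K a = algebraMap C0 K x / algebraMap C0 K y := by
    intro a
    obtain ⟨x, y, hy, hxy⟩ := hbir a
    have hy0 : algebraMap C0 K y ≠ 0 := (map_ne_zero_iff _ hinjC).2 hy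
    refine ⟨x, y, hy0, ?_⟩
    rw [eq_div_iff hy0, ej, ej, ← hxy, map_mul, mul_comm]
  have hfr : IsFractionRing C0 K := by
    refine IsFractionRing.of_field C0 K ?_
    intro z
    obtain ⟨a, b, hb, rfl⟩ := hfr0 z
    obtain ⟨x1, y1, hy1, h1⟩ := hbirK a
    obtain ⟨x2, y2, hy2, h2⟩ := hbirK b
    refine ⟨x1 * y2, y1 * x2, ?_⟩
    rw [h2] at hb
    have hx2 : algebraMap C0 K x2 ≠ 0 := fun h => hb (by rw [h, zero_div])
    rw [h1, h2, map_mul, map_mul]
    field_simp
  let κ0 : K →+* L := IsFractionRing.lift (K := K) (g := (g : C0 →+* L)) hg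
  have hκ0 : ∀ c : C0, κ0 (algebraMap C0 K c) = g c := fun c =>
    IsFractionRing.lift_algebraMap (K := K) (g := (g : C0 →+* L)) hg c
  let κ : K →ₐ[k] L :=
    { κ0 with
      commutes' := fun c => by
        change κ0 (algebraMap A K (algebraMap k A c)) = _
        rw [← AlgHom.commutes j c, ← ej, hκ0, AlgHom.commutes] }
  have hκ : ∀ c : C0, κ (algebraMap C0 K c) = g c := hκ0
  have hκi : Function.Injective κ := κ.toRingHom.injective
  obtain ⟨W, hW⟩ := ext_val (κ : K →+* L) V
  obtain ⟨t, ht⟩ := h.cv W (by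
    intro c
    rw [← hκ c]
    refine (hW _).2 ?_
    exact hV1 _)
  -- the chart in `K`
  let C1 : Subalgebra k K := (C t).comap κ
  have hrange : ∀ x ∈ C t, ∃ y : K, κ y = x := by
    intro x hx
    obtain ⟨n, a, ha⟩ := h.dn t x hx
    obtain ⟨b, hb⟩ := h.hA t
    refine ⟨algebraMap C0 K a / algebraMap C0 K b ^ n, ?_⟩
    rw [map_div₀, map_pow, hκ, hκ, ← hb, ← ha]
    field_simp [h.H0 t]
  have hC1 : C1.map κ = C t := by
    ext x
    constructor
    · rintro ⟨y, hy, rfl⟩
      exact hy
    · intro hx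
      obtain ⟨y, rfl⟩ := hrange x hx
      exact ⟨y, hx, rfl⟩
  let eC0 : C1 ≃ₐ[k] C1.map κ := C1.equivMapOfInjective κ hκi
  have hsm := h.sm t
  have hsm0 : Algebra.Smooth k (C1.map κ) := by rw [hC1]; exact hsm
  have hsmC : Algebra.Smooth k C1 := Algebra.Smooth.of_equiv eC0.symm
  have hft : Algebra.FiniteType k C1 := inferInstance
  have hreg : ∀ (q' : Ideal C1) [q'.IsPrime], IsRegularLocalRing (Localization.AtPrime q') := by
    intro q' hq'
    exact Pool.Agent.H920R2.regular_of_smooth (k := k) (A := C1) q'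
  have hic : IsIntegrallyClosed C1 := wd_norm k C1
  have hCC : ∀ c : C0, algebraMap C0 K c ∈ C1 := by
    intro c
    change κ (algebraMap C0 K c) ∈ C t
    rw [hκ]
    exact h.aa t c
  refine uniformized_of_chart (k := k) (A := A) q V hV1 hV2 C1 (C1.fg_iff_finiteType.2 hft) ?_ ?_
    hreg
  · intro a
    obtain ⟨x, y, hy, hxy⟩ := hbirK a
    have h1 : IsIntegral C1 (algebraMap A K a) := by
      obtain ⟨f, hf, hfa⟩ := hint a
      let i : C0 →+* C1 := (algebraMap C0 K).codRestrict C1 hCC
      refine ⟨f.map i, hf.map i, ?_⟩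
      rw [Polynomial.eval₂_map]
      have h4 : (algebraMap C1 K).comp i = (algebraMap A K).comp (j : C0 →+* A) :=
        RingHom.ext fun y => rfl
      rw [h4, ← Polynomial.hom_eval₂, hfa, map_zero]
    have hfr1 : IsFractionRing C1 K := by
      refine IsFractionRing.of_field C1 K ?_
      intro z
      obtain ⟨x, y, rfl⟩ : ∃ x y : C0, z = algebraMap C0 K x / algebraMap C0 K y := by
        obtain ⟨x, y, hy, rfl⟩ := IsFractionRing.div_surjective (A := C0) z
        exact ⟨x, y, rfl⟩
      exact ⟨⟨_, hCC x⟩, ⟨_, hCC y⟩, rfl⟩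
    obtain ⟨y, hy⟩ := IsIntegrallyClosed.isIntegral_iff.1 h1
    rw [← hy]
    exact y.2
  · intro x hx
    rw [← hW x]
    exact ht _ hx

end Pool.Agent.Run7.h945.TR
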