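import Pool.Agent.Run7.h945.TR.LocS

/-!
# Criteria for local uniformization
-/

set_option autoImplicit false
set_option linter.unusedSectionVars false

open Pool.Agent.W418.LU

namespace Pool.Agent.Run7.h945.TR

section crit

/-- Local uniformization of `R` along `V`. -/
def LUat (R K : Type) [CommRing R] [Field K] [Algebra R K] (V : ValuationSubring K) : Prop :=
  ∃ B : Subalgebra R K, B.FG ∧ (∀ b : B, (b : K) ∈ V) ∧
    ∃ P : Ideal B, ∃ (_ : P.IsPrime), (∀ b : B, b ∈ P ↔ V.valuation (b : K) < 1) ∧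
      IsRegularLocalRing (Localization.AtPrime P)

/-- The local domain `R` admits local uniformization. -/
def AdmitsLU (R : Type) [CommRing R] : Prop :=
  ∀ (K : Type) [Field K] [Algebra R K] [IsFractionRing R K] (V : ValuationSubring K),
    (∀ r : R, algebraMap R K r ∈ V) →
    (∀ r : R, r ∈ nonunits R ↔ V.valuation (algebraMap R K r) < 1) → LUat R K V

lemma adjoin_le_subring {R K : Type} [CommRing R] [Field K] [Algebra R K] {D : Subring K}
    {S : Set K} (h1 : ∀ r : R, algebraMap R K r ∈ D) (h2 : S ⊆ D) :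
    ∀ x ∈ Algebra.adjoin R S, x ∈ D := by
  intro x hx
  induction hx using Algebra.adjoin_induction with
  | mem x hx => exact h2 hx
  | algebraMap r => exact h1 r
  | add x y _ _ hx hy => exact D.add_mem hx hy
  | mul x y _ _ hx hy => exact D.mul_mem hx hy

lemma val_eq_one_iff {K : Type} [Field K] {V : ValuationSubring K} {x : K} (hx : x ∈ V) :
    (¬ V.valuation x < 1) ↔ (x ≠ 0 ∧ x⁻¹ ∈ V) := by
  have h1 : V.valuation x ≤ 1 := (V.valuation_le_one_iff _).2 hx
  constructor
  · intro h
    have h2 : V.valuation x = 1 := le_antisymm h1 (not_lt.1 h)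
    have h0 : x ≠ 0 := by
      rintro rfl
      rw [map_zero] at h2
      exact zero_ne_one h2
    refine ⟨h0, ?_⟩
    rw [← V.valuation_le_one_iff, map_inv₀, h2, inv_one]
  · rintro ⟨h0, h2⟩ h3
    rw [← V.valuation_le_one_iff, map_inv₀] at h2
    have h4 : V.valuation x ≠ 0 := (V.valuation.ne_zero_iff).2 h0
    have h6 : (1 : V.ValueGroup) < (V.valuation x)⁻¹ :=
      (one_lt_inv₀ (lt_of_le_of_ne (zero_le) h4.symm)).2 h3
    exact absurd h2 (not_le.2 h6)

/-- The local ring is contained in the local ring of the centre. -/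
lemma loc_le {A R K : Type} [CommRing A] [CommRing R] [Algebra A R] (q : Ideal A) [q.IsPrime]
    [IsLocalization.AtPrime R q] [Field K] [Algebra R K] {V : ValuationSubring K}
    (hV1 : ∀ r : R, algebraMap R K r ∈ V)
    (hV2 : ∀ r : R, r ∈ nonunits R ↔ V.valuation (algebraMap R K r) < 1) {D : Subring K}
    (hA : ∀ a : A, algebraMap R K (algebraMap A R a) ∈ locS V D) (r : R) :
    algebraMap R K r ∈ locS V D := by
  obtain ⟨⟨a, s⟩, h⟩ := IsLocalization.surj q.primeCompl r
  have hs : algebraMap A R (s : A) ∉ nonunits R := fun h =>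
    h (IsLocalization.map_units R s)
  have h2 := (val_eq_one_iff (hV1 _)).1 (fun h => hs ((hV2 _).2 h))
  have h3 : algebraMap R K r = algebraMap R K (algebraMap A R a) *
      (algebraMap R K (algebraMap A R (s : A)))⁻¹ := by
    rw [eq_mul_inv_iff_mul_eq₀ h2.1, ← map_mul]
    exact congrArg _ h
  rw [h3]
  exact (locS V D).mul_mem (hA _) (inv_mem_locS (hA _) h2.1 h2.2)

/-- The criterion. -/
theorem luat_of_locS {A R K : Type} [CommRing A] [CommRing R] [Algebra A R] (q : Ideal A)
    [q.IsPrime] [IsLocalization.AtPrime R q] [Field K] [Algebra R K] {V : ValuationSubring K}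
    (hV1 : ∀ r : R, algebraMap R K r ∈ V)
    (hV2 : ∀ r : R, r ∈ nonunits R ↔ V.valuation (algebraMap R K r) < 1) (D : Subring K)
    (hDV : ∀ x ∈ D, x ∈ V) (S0 : Set K) (hS0 : S0.Finite) (hS0D : S0 ⊆ D)
    (hD : ∀ A' : Subring K, (∀ r : R, algebraMap R K r ∈ A') → S0 ⊆ A' → D ≤ A')
    (hA : ∀ a : A, algebraMap R K (algebraMap A R a) ∈ locS V D)
    (hreg : IsRegularLocalRing (locS V D)) : LUat R K V := by
  have hR := loc_le q hV1 hV2 hA
  let A' : Subalgebra R K := Algebra.adjoin R S0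
  have h1 : ∀ x ∈ A', x ∈ locS V D :=
    adjoin_le_subring hR (hS0D.trans (le_locS V D))
  have h2 : ∀ x ∈ A', x ∈ V := fun x hx => locS_le hDV x (h1 x hx)
  have hr : ((A'.val : A' →+* K)).range = A'.toSubring := by
    ext x
    constructor
    · rintro ⟨y, rfl⟩
      exact y.2
    · intro hx
      exact ⟨⟨x, hx⟩, rfl⟩
  have h3 : locS V (A'.val : A' →+* K).range = locS V D := by
    rw [hr]
    refine locS_eq ?_ h1
    exact hD A'.toSubring (fun r => A'.algebraMap_mem r) (fun x hx => Algebra.subset_adjoin hx)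
  refine ⟨A', ⟨hS0.toFinset, by rw [Set.Finite.coe_toFinset]⟩, fun b => h2 b b.2, cen V A' h2,
    isPrime_cen, fun b => Iff.rfl, ?_⟩
  have hp : (cen V A' h2).IsPrime := isPrime_cen
  obtain ⟨e, -⟩ := locS_equiv (A'.val : A' →+* K) Subtype.val_injective V (fun c => h2 c c.2)
    (cen V A' h2) (fun c => Iff.rfl)
  rw [h3] at e
  exact IsRegularLocalRing.of_ringEquiv e.symm

lemma regular_of_adjoin {R' K0 : Type} [CommRing R'] [Field K0] [Algebra R' K0]
    {V0 : ValuationSubring K0} (A1 : Subalgebra R' K0) (S1 : Set K0)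
    (hS1 : Algebra.adjoin R' S1 = A1) (hA1V : ∀ b : A1, (b : K0) ∈ V0) (P1 : Ideal A1)
    (hP1 : P1.IsPrime) (hP1' : ∀ b : A1, b ∈ P1 ↔ V0.valuation (b : K0) < 1) (D : Subring K0)
    (hD1 : ∀ x ∈ D, x ∈ A1) (hRD : ∀ r : R', algebraMap R' K0 r ∈ locS V0 D)
    (hS1D : S1 ⊆ D) (hreg : IsRegularLocalRing (Localization.AtPrime P1)) :
    IsRegularLocalRing (locS V0 D) := by
  obtain ⟨e1, -⟩ := locS_equiv (A1.val : A1 →+* K0) Subtype.val_injective V0
    (fun c => hA1V c) P1 hP1'
  have hr : ((A1.val : A1 →+* K0)).range = A1.toSubring := by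
    ext x
    constructor
    · rintro ⟨y, rfl⟩
      exact y.2
    · intro hx
      exact ⟨⟨x, hx⟩, rfl⟩
  have h3 : locS V0 (A1.val : A1 →+* K0).range = locS V0 D := by
    rw [hr]
    refine locS_eq (fun x hx => hD1 x hx) ?_
    intro x hx
    have hx' : x ∈ A1 := hx
    rw [← hS1] at hx'
    exact adjoin_le_subring (D := locS V0 D) hRD (hS1D.trans (le_locS V0 D)) x hx'
  rw [h3] at e1
  exact IsRegularLocalRing.of_ringEquiv e1

/-- The birational models of `B` admit local uniformization: form needed for the base. -/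
theorem exists_base {B K0 : Type} [CommRing B] [IsDomain B] [Field K0] [Algebra B K0]
    [IsFractionRing B K0]
    (hB : ∀ C : Subalgebra B K0, C.FG → ∀ (P : Ideal C) [P.IsPrime],
      AdmitsLU (Localization.AtPrime P))
    (V0 : ValuationSubring K0) (hV0 : ∀ b, algebraMap B K0 b ∈ V0) (F : Set K0) (hF : F.Finite)
    (hFV : ∀ x ∈ F, x ∈ V0) :
    ∃ S1 : Set K0, S1.Finite ∧ F ⊆ S1 ∧ (∀ x ∈ S1, x ∈ V0) ∧
      IsRegularLocalRing (locS V0 (Subring.closure (Set.range (algebraMap B K0) ∪ S1))) := by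
  let C0 : Subalgebra B K0 := Algebra.adjoin B F
  have hC0 : ∀ x ∈ C0, x ∈ V0 := adjoin_le_subring (D := V0.toSubring) hV0 hFV
  have hp : (cen V0 C0 hC0).IsPrime := isPrime_cen
  have hC0fg : C0.FG := ⟨hF.toFinset, by rw [Set.Finite.coe_toFinset]⟩
  have hLU := hB C0 hC0fg (cen V0 C0 hC0)
  obtain ⟨e, he⟩ := locS_equiv (C0.val : C0 →+* K0) Subtype.val_injective V0
    (fun c => hC0 c c.2) (cen V0 C0 hC0) (fun c => Iff.rfl)
  let R' := Localization.AtPrime (cen V0 C0 hC0)
  let iR : R' →+* K0 := (locS V0 (C0.val : C0 →+* K0).range).subtype.comp (e : R' →+* _)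
  let _ : Algebra R' K0 := iR.toAlgebra
  have hi : Function.Injective (algebraMap R' K0) := fun x y h =>
    e.injective (Subtype.ext h)
  have hiR : ∀ c : C0, algebraMap R' K0 (algebraMap C0 R' c) = c := fun c => he c
  have hfaith : FaithfulSMul R' K0 := (faithfulSMul_iff_algebraMap_injective R' K0).2 hi
  have hfr : IsFractionRing R' K0 := by
    refine IsFractionRing.of_field R' K0 ?_
    intro z
    obtain ⟨x, y, hy, rfl⟩ := IsFractionRing.div_surjective (A := B) z
    refine ⟨algebraMap C0 R' ⟨_, C0.algebraMap_mem x⟩, algebraMap C0 R' ⟨_, C0.algebraMap_mem y⟩,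
      ?_⟩
    rw [hiR, hiR]
  have hrange : ∀ x ∈ (C0.val : C0 →+* K0).range, x ∈ V0 := by
    rintro _ ⟨c, rfl⟩
    exact hC0 c c.2
  have hR1 : ∀ r : R', algebraMap R' K0 r ∈ V0 := fun r => locS_le hrange _ (e r).2
  have hR2 : ∀ r : R', r ∈ nonunits R' ↔ V0.valuation (algebraMap R' K0 r) < 1 := by
    intro r
    rw [mem_nonunits_iff, not_iff_comm, val_eq_one_iff (hR1 r)]
    constructor
    · rintro ⟨h0, h1⟩
      have h2 : (algebraMap R' K0 r)⁻¹ ∈ locS V0 (C0.val : C0 →+* K0).range :=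
        inv_mem_locS (e r).2 h0 h1
      refine IsUnit.of_mul_eq_one (e.symm ⟨_, h2⟩) ?_
      apply hi
      rw [map_mul, map_one]
      have h3 : algebraMap R' K0 (e.symm ⟨_, h2⟩) = (algebraMap R' K0 r)⁻¹ := by
        change ((e (e.symm ⟨_, h2⟩) : locS V0 (C0.val : C0 →+* K0).range) : K0) = _
        rw [e.apply_symm_apply]
      rw [h3, mul_inv_cancel₀ h0]
    · intro h
      obtain ⟨u, hu⟩ := h
      have h1 : algebraMap R' K0 r * algebraMap R' K0 ((u⁻¹ : R'ˣ) : R') = 1 := by
        rw [← map_mul, ← hu, u.mul_inv, map_one]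
      have h0 : algebraMap R' K0 r ≠ 0 := left_ne_zero_of_mul_eq_one h1
      refine ⟨h0, ?_⟩
      rw [inv_eq_of_mul_eq_one_right h1]
      exact hR1 _
  obtain ⟨A1, ⟨S1, hS1⟩, hA1V, P1, hP1, hP1', hreg⟩ := hLU K0 V0 hR1 hR2
  have hS1V : ∀ x ∈ (S1 : Set K0), x ∈ V0 := by
    intro x hx
    have h1 : x ∈ A1 := by rw [← hS1]; exact Algebra.subset_adjoin hx
    exact hA1V ⟨x, h1⟩
  refine ⟨F ∪ S1, hF.union S1.finite_toSet, Set.subset_union_left, ?_, ?_⟩
  · rintro x (hx | hx)
    · exact hFV x hx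
    · exact hS1V x hx
  · set D := Subring.closure (Set.range (algebraMap B K0) ∪ (F ∪ S1)) with hDdef
    have hC0D : ∀ x ∈ C0, x ∈ D := by
      refine adjoin_le_subring (fun b => ?_) ?_
      · exact Subring.subset_closure (Or.inl ⟨b, rfl⟩)
      · exact fun x hx => Subring.subset_closure (Or.inr (Or.inl hx))
    refine regular_of_adjoin A1 S1 hS1 hA1V P1 hP1 hP1' D ?_ ?_ ?_ hreg
    · intro x hx
      rw [hDdef] at hx
      induction hx using Subring.closure_induction with
      | mem x hx =>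
        rcases hx with ⟨b, rfl⟩ | hx | hx
        · have := A1.algebraMap_mem (algebraMap C0 R' (algebraMap B C0 b))
          rw [hiR] at this
          exact this
        · have := A1.algebraMap_mem (algebraMap C0 R' ⟨x, Algebra.subset_adjoin hx⟩)
          rw [hiR] at this
          exact this
        · rw [← hS1]
          exact Algebra.subset_adjoin hx
      | zero => exact A1.zero_mem
      | one => exact A1.one_mem
      | add x y _ _ hx hy => exact A1.add_mem hx hy
      | neg x _ hx => exact A1.neg_mem hx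
      | mul x y _ _ hx hy => exact A1.mul_mem hx hy
    · intro r
      refine locS_mono ?_ (e r).2
      rintro _ ⟨c, rfl⟩
      exact hC0D c c.2
    · intro y hy
      exact Subring.subset_closure (Or.inr (Or.inr hy))

end crit

end Pool.Agent.Run7.h945.TR
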