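import Pool.Agent.Run7.h945.TR.Geo

set_option autoImplicit false
set_option linter.unusedSectionVars false

open Polynomial AlgebraicGeometry CategoryTheory Pool.Agent.H920R2 Pool.Agent.W558

universe u

namespace Pool.Agent.Run7.h945.TR

section cmp

variable {k K : Type u} [Field k] [Field K] [Algebra k K] {R0 R : Subalgebra k K}
    {T I : Type} [Fintype I] {G : Type}

lemma div_mem_of_le {M : LM R0 R T I} {g : G → K} {Γ : G → I → ℤ} (hF : Fn M g Γ) {a b : G}
    {t : T} (h : ∀ i, Γ a i ≤ Γ b i ∨ (M.x t i)⁻¹ ∈ M.A t) : g b / g a ∈ M.A t := by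
  obtain ⟨w, hw0, hw, hw', h1⟩ := hF a t
  obtain ⟨w', hw0', hw1, hw1', h2⟩ := hF b t
  have e : g b / g a = w' * w⁻¹ * ∏ i, M.x t i ^ (Γ b i - Γ a i) := by
    have h3 : ∏ i, M.x t i ^ (Γ b i - Γ a i) =
        (∏ i, M.x t i ^ Γ b i) / ∏ i, M.x t i ^ Γ a i := by
      rw [← Finset.prod_div_distrib]
      exact Finset.prod_congr rfl fun i _ => zpow_sub₀ (M.x0 t i) _ _
    rw [h3, h1, h2]
    have h4 : ∏ i, M.x t i ^ Γ a i ≠ 0 :=
      Finset.prod_ne_zero_iff.2 fun i _ => zpow_ne_zero _ (M.x0 t i)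
    field_simp
  rw [e]
  refine (M.A t).mul_mem ((M.A t).mul_mem hw1 hw') ((M.A t).prod_mem fun i _ => ?_)
  rcases h i with h5 | h5
  · obtain ⟨m, hm⟩ := Int.eq_ofNat_of_zero_le (sub_nonneg.2 h5)
    rw [hm, zpow_natCast]
    exact (M.A t).pow_mem (M.xA t i) m
  · rcases Int.eq_nat_or_neg (Γ b i - Γ a i) with ⟨m, hm | hm⟩
    · rw [hm, zpow_natCast]
      exact (M.A t).pow_mem (M.xA t i) m
    · rw [hm, zpow_neg, zpow_natCast, ← inv_pow]
      exact (M.A t).pow_mem h5 m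

lemma cmp_div {M : LM R0 R T I} {g : G → K} {Γ : G → I → ℤ} (hF : Fn M g Γ) {a b : G}
    (h : Cmp M Γ a b) (t : T) : g a / g b ∈ M.A t ∨ g b / g a ∈ M.A t := by
  rcases h t with h | h
  · exact Or.inr (div_mem_of_le hF h)
  · exact Or.inl (div_mem_of_le hF h)

end cmp

section fin

/-- Log smooth models for all finite families of functions. -/
def LogM (k E : Type u) [Field k] [Field E] [Algebra k E] : Prop :=
  ∀ (m : ℕ) (g : Fin m → E), (∀ i, g i ≠ 0) →
    ∃ (T I : Type) (_ : Finite T) (_ : Fintype I) (M : LM (⊥ : Subalgebra k E) ⊤ T I)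
      (Γ : Fin m → I → ℤ), Fn M g Γ

theorem logM_of_logModels {k E : Type u} [Field k] [Field E] [Algebra k E]
    (h : HasLogModels k E) : LogM k E := by
  intro m g hg
  obtain ⟨N, L, H, x, Γ, h1⟩ := h m g hg
  obtain ⟨M, hM, -⟩ := h1.exists_LM
  exact ⟨_, _, inferInstance, inferInstance, M, Γ, hM⟩

theorem logM_of_surface {k E : Type u} [Field k] [Field E] [Algebra k E] [PerfectField k]
    (h2 : Algebra.trdeg k E = 2) (h : HasModel k E) : LogM k E := by
  intro m g hg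
  obtain ⟨s⟩ := all_init k E h
  obtain ⟨s', Γ, hΓ⟩ := all_log k E h2 s (Fin m) g hg
  exact ⟨s'.T, s'.I, s'.finT, s'.finI, s'.M, Γ, hΓ⟩

/-- Comparable functions on a model over an affine variety. -/
theorem exists_model {k B E : Type u} [Field k] [CommRing B] [Algebra k B]
    [Algebra.FiniteType k B] [Field E] [Algebra k E] [Algebra B E] [IsScalarTower k B E]
    (hfr : ∀ x : E, ∃ a b : B, algebraMap B E b ≠ 0 ∧ x = algebraMap B E a / algebraMap B E b)
    (hL : LogM k E) (G : Set E) (hG : G.Finite) (hG0 : ∀ a ∈ G, a ≠ 0) :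
    ∃ (T I : Type) (_ : Finite T) (R : Subalgebra k E) (M : LM R R T I),
      (∀ x, x ∈ R ↔ ∃ b, algebraMap B E b = x) ∧
      ∀ t, ∀ a ∈ G, ∀ b ∈ G, a / b ∈ M.A t ∨ b / a ∈ M.A t := by
  classical
  obtain ⟨s, hs⟩ := (inferInstance : Algebra.FiniteType k B).1
  let F1 : Finset E := (s.image (algebraMap B E)).filter fun x => x ≠ 0
  let F : Finset E := F1 ∪ hG.toFinset
  let g : Fin F.card → E := fun i => (F.equivFin.symm i : E)
  have hgr : ∀ x ∈ F, ∃ i, g i = x := fun x hx => ⟨F.equivFin ⟨x, hx⟩, by simp [g]⟩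
  have hgF : ∀ i, g i ∈ F := fun i => (F.equivFin.symm i).2
  have hg0 : ∀ i, g i ≠ 0 := by
    intro i
    rcases Finset.mem_union.1 (hgF i) with h | h
    · exact (Finset.mem_filter.1 h).2
    · exact hG0 _ ((Set.Finite.mem_toFinset hG).1 h)
  obtain ⟨T, I, iT, iI, M, Γ, hΓ⟩ := hL F.card g hg0
  let R : Subalgebra k E := (IsScalarTower.toAlgHom k B E).range
  have hR : ∀ x, x ∈ R ↔ ∃ b, algebraMap B E b = x := fun x => Iff.rfl
  have hRadj : R = Algebra.adjoin k (g '' {i | g i ∈ F1}) := by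
    have e1 : R = Algebra.adjoin k ((IsScalarTower.toAlgHom k B E) '' (s : Set B)) := by
      rw [← AlgHom.map_adjoin, hs, Algebra.map_top]
    rw [e1]
    apply le_antisymm
    · refine Algebra.adjoin_le ?_
      rintro _ ⟨b, hb, rfl⟩
      by_cases h0 : algebraMap B E b = 0
      · change algebraMap B E b ∈ _
        rw [h0]
        exact Subalgebra.zero_mem _
      · refine Algebra.subset_adjoin ?_
        have h1 : algebraMap B E b ∈ F1 :=
          Finset.mem_filter.2 ⟨Finset.mem_image.2 ⟨b, hb, rfl⟩, h0⟩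
        obtain ⟨i, hi⟩ := hgr _ (Finset.mem_union_left _ h1)
        exact ⟨i, by rw [Set.mem_setOf_eq, hi]; exact h1, hi⟩
    · refine Algebra.adjoin_mono ?_
      rintro _ ⟨i, hi, rfl⟩
      obtain ⟨b, hb, hb'⟩ := Finset.mem_image.1 (Finset.mem_filter.1 hi).1
      exact ⟨b, hb, hb'⟩
  obtain ⟨T1, I1, j1, j2, M1, Γ1, hΓ1, -⟩ := all_restr k E T I (Fin F.card) M g Γ hΓ
    {i | g i ∈ F1} R hRadj (by
      intro x
      obtain ⟨a, b, hb, hx⟩ := hfr x
      exact ⟨_, ⟨a, rfl⟩, _, ⟨b, rfl⟩, hb, by rw [hx, div_eq_mul_inv]; rfl⟩)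
  obtain ⟨T2, I2, l1, l2, l3, M2, Γ2, hE, hC⟩ := princ_all g M1 Γ1
  refine ⟨T2, I2, l1, R, M2, hR, ?_⟩
  intro t a ha b hb
  obtain ⟨i, rfl⟩ := hgr a (Finset.mem_union_right _ ((Set.Finite.mem_toFinset hG).2 ha))
  obtain ⟨j, rfl⟩ := hgr b (Finset.mem_union_right _ ((Set.Finite.mem_toFinset hG).2 hb))
  exact cmp_div (hE.fn hΓ1) (hC i j) t

/-- The main theorem. -/
theorem hasResolution_CI {k B E : Type u} [Field k] [CommRing B] [IsDomain B] [Algebra k B]
    [Algebra.FiniteType k B] [Field E] [Algebra k E] [Algebra B E] [IsScalarTower k B E]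
    [IsFractionRing B E] {p : ℕ} [Fact p.Prime] [CharP k p] (hL : LogM k E) {σ : Type}
    [Finite σ] [DecidableEq σ] (l : List (B × (σ → B))) :
    HasResolution (X := Spec (CommRingCat.of (CI k p l)))
      (Spec.map (CommRingCat.ofHom (algebraMap k (CI k p l)))) := by
  obtain ⟨G, hG, hG0, hG1⟩ := exists_tree p _ (ml (algebraMap B E) l) rfl
  obtain ⟨T, I, iT, R, M, hR, hM⟩ := exists_model (k := k) (B := B) (E := E) (by
    intro x
    obtain ⟨a, b, hb, rfl⟩ := IsFractionRing.div_surjective (A := B) x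
    exact ⟨a, b, (FaithfulSMul.algebraMap_eq_zero_iff B E).not.2
      (nonZeroDivisors.ne_zero hb), rfl⟩) hL G hG hG0
  have hA : ∀ t, ∀ b : B, algebraMap B E b ∈ M.A t := fun t b => M.base t ((hR _).2 ⟨b, rfl⟩)
  refine hasResolution_of_atl (gI k E p l) ?_ (atl_of_LM (p := p) (IsFractionRing.injective B E) l
    hR M hA fun t => ?_)
  · intro f g h
    rw [gI_apply, gI_apply] at h
    exact Subtype.val_injective (MvPolynomial.map_injective _ (IsFractionRing.injective B E)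
      (IsFractionRing.injective (MvPolynomial σ E) (LL σ E) h))
  · refine hG1 (M.A t) ((M.A t).val : M.A t →+* E) Subtype.val_injective _ ?_ ?_
    · unfold ml
      rw [List.map_map]
      rfl
    · intro a ha b hb
      rcases hM t a ha b hb with h | h
      · exact Or.inl ⟨⟨_, h⟩, rfl⟩
      · exact Or.inr ⟨⟨_, h⟩, rfl⟩

end fin

end Pool.Agent.Run7.h945.TR
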