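import Pool.Agent.Run7.h945.TR.Good
import Pool.Agent.W558.T3.Base

set_option autoImplicit false
set_option linter.unusedSectionVars false

open Polynomial AlgebraicGeometry CategoryTheory Pool.Agent.H920R2 Pool.Agent.W558

universe u

namespace Pool.Agent.Run7.h945.TR

section change

variable {σ : Type*} {S S' : Type*} [CommRing S] [CommRing S']

lemma Fs_map (ι : S →+* S') (v : σ → S) (f : MvPolynomial σ S) :
    Fs (fun j => ι (v j)) (MvPolynomial.map ι f) =
      (Fs v f).map (MvPolynomial.map ι : MvPolynomial σ S →+* MvPolynomial σ S') := by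
  induction f using MvPolynomial.induction_on with
  | C a =>
    rw [MvPolynomial.map_C, Fs_C, Fs_C, map_C, MvPolynomial.map_C]
  | add f g hf hg => rw [map_add, map_add, map_add, Polynomial.map_add, hf, hg]
  | mul_X f j hf =>
    rw [map_mul, map_mul, map_mul, Polynomial.map_mul, hf, MvPolynomial.map_X, Fs_X, Fs_X,
      Polynomial.map_add, Polynomial.map_mul, map_C, map_C, map_X, MvPolynomial.map_X,
      MvPolynomial.map_C]

lemma inv_map {p : ℕ} (hp : 1 < p) (ι : S →+* S') (hι : Function.Injective ι) (b : S)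
    (v : σ → S) (f : MvPolynomial σ S) :
    Inv p (ι b) (fun j => ι (v j)) (MvPolynomial.map ι f) ↔ Inv p b v f := by
  unfold Inv
  rw [Fs_map]
  have e1 : (C (MvPolynomial.map ι f) : (MvPolynomial σ S')[X]) =
      (C f).map (MvPolynomial.map ι : MvPolynomial σ S →+* MvPolynomial σ S') := by
    rw [map_C]
  have e2 : AS p (MvPolynomial.C (ι b) : MvPolynomial σ S') =
      (AS p (MvPolynomial.C b)).map
        (MvPolynomial.map ι : MvPolynomial σ S →+* MvPolynomial σ S') := by
    rw [AS_map, MvPolynomial.map_C]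
  rw [e1, e2, ← Polynomial.map_sub]
  exact Polynomial.map_dvd_map _ (MvPolynomial.map_injective ι hι) (AS_monic hp _)

/-- The change of rings for the data. -/
def ml (ι : S →+* S') (l : List (S × (σ → S))) : List (S' × (σ → S')) :=
  l.map fun x => (ι x.1, fun j => ι (x.2 j))

lemma INV_map {p : ℕ} (hp : 1 < p) (ι : S →+* S') (hι : Function.Injective ι)
    (l : List (S × (σ → S))) (f : MvPolynomial σ S) :
    INV p (ml ι l) (MvPolynomial.map ι f) ↔ INV p l f := by
  unfold INV ml
  rw [List.forall_mem_map]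
  exact forall₂_congr fun x _ => inv_map hp ι hι x.1 x.2 f

lemma Inv.mul {p : ℕ} {b : S} {v : σ → S} {f g : MvPolynomial σ S} (hf : Inv p b v f)
    (hg : Inv p b v g) : Inv p b v (f * g) := by
  unfold Inv at *
  have e : Fs v (f * g) - C (f * g) = Fs v f * (Fs v g - C g) + C g * (Fs v f - C f) := by
    rw [map_mul, map_mul]
    ring
  rw [e]
  exact dvd_add (hg.mul_left _) (hf.mul_left _)

lemma Inv.add {p : ℕ} {b : S} {v : σ → S} {f g : MvPolynomial σ S} (hf : Inv p b v f)
    (hg : Inv p b v g) : Inv p b v (f + g) := by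
  unfold Inv at *
  have e : Fs v (f + g) - C (f + g) = (Fs v f - C f) + (Fs v g - C g) := by
    rw [map_add, map_add]
    ring
  rw [e]
  exact dvd_add hf hg

lemma Inv.const (p : ℕ) (b : S) (v : σ → S) (a : S) : Inv p b v (MvPolynomial.C a) := by
  unfold Inv
  rw [Fs_C, sub_self]
  exact dvd_zero _

/-- The algebra of common invariants. -/
def CI (k : Type*) [CommRing k] [Algebra k S] (p : ℕ) (l : List (S × (σ → S))) :
    Subalgebra k (MvPolynomial σ S) where
  carrier := {f | INV p l f}
  mul_mem' := fun hf hg x hx => (hf x hx).mul (hg x hx)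
  add_mem' := fun hf hg x hx => (hf x hx).add (hg x hx)
  algebraMap_mem' := fun a x _ => Inv.const p x.1 x.2 (algebraMap k S a)

lemma mem_CI {k : Type*} [CommRing k] [Algebra k S] {p : ℕ} {l : List (S × (σ → S))}
    {f : MvPolynomial σ S} : f ∈ CI k p l ↔ INV p l f := Iff.rfl

lemma C_mem_CI (k : Type*) [CommRing k] [Algebra k S] (p : ℕ) (l : List (S × (σ → S)))
    (a : S) : MvPolynomial.C a ∈ CI k p l := fun x _ => Inv.const p x.1 x.2 a

end change

section ft

variable {σ : Type*} [Finite σ] {k S : Type*} [Field k] [CommRing S] [Algebra k S]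

lemma isIntegral_CI {p : ℕ} [Fact p.Prime] [CharP S p] (l : List (S × (σ → S)))
    (f : MvPolynomial σ S) : IsIntegral (CI k p l) f := by
  obtain ⟨ψ, h1, h2⟩ := exists_psi (p := p) l.length l rfl
  obtain ⟨P, hP, hP0⟩ := h2 f
  let ψ' : MvPolynomial σ S →+* CI k p l :=
    (ψ : MvPolynomial σ S →+* MvPolynomial σ S).codRestrict (CI k p l) h1
  refine ⟨P.map ψ', hP.map _, ?_⟩
  rw [eval₂_map]
  exact hP0

lemma finiteType_CI [Algebra.FiniteType k S] {p : ℕ} [Fact p.Prime] [CharP S p]
    (l : List (S × (σ → S))) : Algebra.FiniteType k (CI k p l) := by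
  have h0 : Algebra.FiniteType k (MvPolynomial σ S) :=
    Algebra.FiniteType.trans (S := S) inferInstance inferInstance
  have h1 : Algebra.IsIntegral (CI k p l) (MvPolynomial σ S) := ⟨isIntegral_CI l⟩
  have h2 : Algebra.FiniteType (CI k p l) (MvPolynomial σ S) :=
    Algebra.FiniteType.of_restrictScalars_finiteType k _ _
  have h3 : Module.Finite (CI k p l) (MvPolynomial σ S) := Algebra.IsIntegral.finite
  refine ⟨?_⟩
  refine fg_of_fg_of_fg k (CI k p l) (MvPolynomial σ S) ?_ h3.1 ?_
  · exact h0.1
  · exact Subtype.val_injective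

end ft

section geo

variable {σ : Type} [Finite σ] [DecidableEq σ] {k B E : Type u} [Field k] [CommRing B]
  [IsDomain B] [Algebra k B] [Field E] [Algebra k E] [Algebra B E] [IsScalarTower k B E]

/-- The field of rational functions. -/
abbrev LL (σ : Type) (E : Type u) [Field E] : Type u := FractionRing (MvPolynomial σ E)

/-- The inclusion of the polynomials with coefficients in a subalgebra. -/
noncomputable def ph (A : Subalgebra k E) : MvPolynomial σ A →ₐ[k] LL σ E :=
  (IsScalarTower.toAlgHom k (MvPolynomial σ E) (LL σ E)).comp (MvPolynomial.mapAlgHom A.val)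

lemma ph_apply (A : Subalgebra k E) (f : MvPolynomial σ A) :
    ph (σ := σ) A f = algebraMap (MvPolynomial σ E) (LL σ E)
      (MvPolynomial.map (A.val : A →+* E) f) := rfl

lemma ph_injective (A : Subalgebra k E) : Function.Injective (ph (σ := σ) A) := by
  intro f g h
  rw [ph_apply, ph_apply] at h
  exact MvPolynomial.map_injective _ Subtype.val_injective
    (IsFractionRing.injective (MvPolynomial σ E) (LL σ E) h)

/-- The chart. -/
noncomputable def CH (p : ℕ) (A : Subalgebra k E) (l : List (A × (σ → A))) :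
    Subalgebra k (LL σ E) :=
  (CI k p l).map (ph A)

lemma mem_CH {p : ℕ} {A : Subalgebra k E} {l : List (A × (σ → A))} {x : LL σ E} :
    x ∈ CH p A l ↔ ∃ f, INV p l f ∧ ph A f = x := by
  unfold CH
  rw [Subalgebra.mem_map]
  rfl

lemma smooth_CH {p : ℕ} [Fact p.Prime] [CharP k p] (A : Subalgebra k E)
    [Algebra.Smooth k A] (l : List (A × (σ → A))) (h : Good p l) :
    Algebra.Smooth k (CH p A l) := by
  have hAp : CharP A p := charP_of_injective_algebraMap (algebraMap k A).injective p
  obtain ⟨φ, hφ, hφ2⟩ := good_rec h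
  have h0 : Algebra.Smooth A (MvPolynomial σ A) := ⟨inferInstance, inferInstance⟩
  have h1 : Algebra.Smooth k (MvPolynomial σ A) := Algebra.Smooth.comp k A (MvPolynomial σ A)
  let χ : MvPolynomial σ A →ₐ[k] LL σ E := (ph A).comp (φ.restrictScalars k)
  have hχ : Function.Injective χ := by
    intro f g hfg
    exact hφ (ph_injective A hfg)
  have e : CH p A l = χ.range := by
    ext x
    rw [mem_CH, AlgHom.mem_range]
    constructor
    · rintro ⟨f, hf, rfl⟩
      obtain ⟨g, rfl⟩ := (hφ2 f).1 hf
      exact ⟨g, rfl⟩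
    · rintro ⟨g, rfl⟩
      exact ⟨φ g, (hφ2 _).2 ⟨g, rfl⟩, rfl⟩
  have h2 : Algebra.Smooth k χ.range := Algebra.Smooth.of_equiv (AlgEquiv.ofInjective χ hχ)
  rw [e]
  exact h2

/-- The homomorphism to a chart of the base. -/
def jm (A : Subalgebra k E) (hA : ∀ b : B, algebraMap B E b ∈ A) : B →+* A :=
  (algebraMap B E).codRestrict A hA

lemma ph_jm (A : Subalgebra k E) (hA : ∀ b : B, algebraMap B E b ∈ A) (f : MvPolynomial σ B) :
    ph (σ := σ) A (MvPolynomial.map (jm A hA) f) = algebraMap (MvPolynomial σ E) (LL σ E)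
      (MvPolynomial.map (algebraMap B E) f) := by
  rw [ph_apply, MvPolynomial.map_map]
  rfl

/-- The inclusion of the ring of invariants into the field of rational functions. -/
noncomputable def gI (k : Type u) {B : Type u} (E : Type u) [Field k] [CommRing B] [Algebra k B]
    [Field E] [Algebra k E] [Algebra B E] [IsScalarTower k B E] (p : ℕ)
    (l : List (B × (σ → B))) : CI k p l →ₐ[k] LL σ E :=
  ((IsScalarTower.toAlgHom k (MvPolynomial σ E) (LL σ E)).comp
    (MvPolynomial.mapAlgHom (IsScalarTower.toAlgHom k B E))).comp (CI k p l).val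

lemma gI_apply (p : ℕ) (l : List (B × (σ → B))) (f : CI k p l) :
    gI k E p l f = algebraMap (MvPolynomial σ E) (LL σ E)
      (MvPolynomial.map (algebraMap B E) (f : MvPolynomial σ B)) := rfl

/-- The atlas. -/
theorem atl_of_LM {p : ℕ} [Fact p.Prime] [CharP k p] (hBE : Function.Injective (algebraMap B E))
    (l : List (B × (σ → B))) {T I : Type} {R : Subalgebra k E}
    (hR : ∀ x, x ∈ R ↔ ∃ b, algebraMap B E b = x) (M : LM R R T I)
    (hA : ∀ t, ∀ b : B, algebraMap B E b ∈ M.A t)
    (hG : ∀ t, Good p (ml (jm (M.A t) (hA t)) l)) :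
    Atl (gI k E p l) (fun t => CH p (M.A t) (ml (jm (M.A t) (hA t)) l))
      (fun t => algebraMap (MvPolynomial σ E) (LL σ E) (MvPolynomial.C (M.H t))) := by
  have hp : p.Prime := Fact.out
  have hBp : CharP B p := charP_of_injective_algebraMap (algebraMap k B).injective p
  have hjm : ∀ t, Function.Injective (jm (M.A t) (hA t)) := by
    intro t x y h
    exact hBE (congrArg Subtype.val h)
  have hC : ∀ t (a : E) (ha : a ∈ M.A t), algebraMap (MvPolynomial σ E) (LL σ E)
      (MvPolynomial.C a) ∈ CH p (M.A t) (ml (jm (M.A t) (hA t)) l) := by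
    intro t a ha
    rw [mem_CH]
    refine ⟨MvPolynomial.C ⟨a, ha⟩, C_mem_CI k p _ _, ?_⟩
    rw [ph_apply, MvPolynomial.map_C]
    rfl
  -- the invariance over the field
  have hinv : ∀ t (f : MvPolynomial σ (M.A t)), INV p (ml (jm (M.A t) (hA t)) l) f ↔
      INV p (ml (algebraMap B E) l) (MvPolynomial.map ((M.A t).val : M.A t →+* E) f) := by
    intro t f
    rw [← INV_map hp.one_lt ((M.A t).val : M.A t →+* E) Subtype.val_injective]
    have e : ml ((M.A t).val : M.A t →+* E) (ml (jm (M.A t) (hA t)) l) =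
        ml (algebraMap B E) l := by
      unfold ml
      rw [List.map_map]
      rfl
    rw [e]
  have hdiv : ∀ t t', algebraMap (MvPolynomial σ E) (LL σ E) (MvPolynomial.C (M.H t')) /
      algebraMap (MvPolynomial σ E) (LL σ E) (MvPolynomial.C (M.H t)) =
      algebraMap (MvPolynomial σ E) (LL σ E) (MvPolynomial.C (M.H t' / M.H t)) := by
    intro t t'
    rw [div_eq_iff, ← map_mul, ← map_mul, div_mul_cancel₀ _ (M.H0 t)]
    rw [Ne, FaithfulSMul.algebraMap_eq_zero_iff, MvPolynomial.C_eq_zero]
    exact M.H0 t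
  -- multiplication of all coefficients
  have hcoef : ∀ (A : Subalgebra k E) (f : MvPolynomial σ E), (∀ m, f.coeff m ∈ A) →
      ∃ f' : MvPolynomial σ A, MvPolynomial.map (A.val : A →+* E) f' = f := by
    intro A f hf
    have h1 : f ∈ Set.range (MvPolynomial.map (σ := σ) (A.val : A →+* E)) := by
      rw [MvPolynomial.mem_range_map_iff_coeffs_subset]
      intro x hx
      obtain ⟨m, hm⟩ := MvPolynomial.mem_coeffs_iff.1 hx
      exact ⟨⟨_, hf m⟩, hm.2.symm⟩
    exact h1
  refine ⟨?_, ?_, ?_, ?_, ?_, ?_, ?_, ?_⟩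
  · intro t
    have := M.sm t
    exact smooth_CH (M.A t) _ (hG t)
  · intro t a
    rw [mem_CH]
    refine ⟨MvPolynomial.map (jm (M.A t) (hA t)) (a : MvPolynomial σ B), ?_, ?_⟩
    · rw [INV_map hp.one_lt _ (hjm t)]
      exact a.2
    · rw [ph_jm, gI_apply]
  · intro t
    rw [Ne, FaithfulSMul.algebraMap_eq_zero_iff, MvPolynomial.C_eq_zero]
    exact M.H0 t
  · intro t
    have h1 := M.HR t
    obtain ⟨b, hb⟩ := (hR _).1 h1
    refine ⟨⟨MvPolynomial.C b, C_mem_CI k p l b⟩, ?_⟩
    rw [gI_apply, MvPolynomial.map_C]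
    congr 2
    exact hb.symm
  · intro t t'
    rw [hdiv]
    exact hC t _ (M.rt t t')
  · intro t t' x hx
    rw [mem_CH] at hx
    obtain ⟨f, hf, rfl⟩ := hx
    choose n hn using fun m : σ →₀ ℕ => M.gl t t' (MvPolynomial.coeff m f).1
      (MvPolynomial.coeff m f).2
    let N := f.support.sup n
    refine ⟨N, ?_⟩
    rw [hdiv]
    obtain ⟨f', hf'⟩ := hcoef (M.A t) (MvPolynomial.C (M.H t' / M.H t) ^ N *
      MvPolynomial.map ((M.A t').val : M.A t' →+* E) f) (by
        intro m
        rw [← MvPolynomial.C_pow, MvPolynomial.coeff_C_mul, MvPolynomial.coeff_map]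
        by_cases hm : m ∈ f.support
        · have h2 : n m ≤ N := Finset.le_sup hm
          exact M.gl_mono h2 (hn m)
        · rw [MvPolynomial.notMem_support_iff] at hm
          rw [hm, map_zero, mul_zero]
          exact (M.A t).zero_mem)
    rw [mem_CH]
    refine ⟨f', ?_, ?_⟩
    · rw [hinv, hf']
      refine (CI k p (ml (algebraMap B E) l)).mul_mem ?_ ?_
      · exact (CI k p (ml (algebraMap B E) l)).pow_mem (C_mem_CI k p _ _) N
      · exact (hinv t' f).1 hf
    · rw [ph_apply, hf', ph_apply, map_mul, map_pow]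
  · intro t x hx
    rw [mem_CH] at hx
    obtain ⟨f, hf, rfl⟩ := hx
    choose n hn using fun m : σ →₀ ℕ => M.dn t (MvPolynomial.coeff m f).1
      (MvPolynomial.coeff m f).2
    let N := f.support.sup n
    obtain ⟨f', hf'⟩ := hcoef R (MvPolynomial.C (M.H t) ^ N *
      MvPolynomial.map ((M.A t).val : M.A t →+* E) f) (by
        intro m
        rw [← MvPolynomial.C_pow, MvPolynomial.coeff_C_mul, MvPolynomial.coeff_map]
        by_cases hm : m ∈ f.support
        · have h2 : n m ≤ N := Finset.le_sup hm
          exact M.dn_mono h2 (hn m)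
        · rw [MvPolynomial.notMem_support_iff] at hm
          rw [hm, map_zero, mul_zero]
          exact R.zero_mem)
    -- lift to `B`
    have h3 : ∃ f'' : MvPolynomial σ B, MvPolynomial.map (algebraMap B E) f'' =
        MvPolynomial.map (R.val : R →+* E) f' := by
      have h1 : MvPolynomial.map (R.val : R →+* E) f' ∈
          Set.range (MvPolynomial.map (σ := σ) (algebraMap B E)) := by
        rw [MvPolynomial.mem_range_map_iff_coeffs_subset]
        intro x hx
        obtain ⟨m, hm⟩ := MvPolynomial.mem_coeffs_iff.1 hx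
        rw [MvPolynomial.coeff_map] at hm
        have h4 : ((MvPolynomial.coeff m f' : R) : E) ∈ R := (MvPolynomial.coeff m f').2
        obtain ⟨b, hb⟩ := (hR _).1 h4
        exact ⟨b, by rw [hm.2]; exact hb⟩
      exact h1
    obtain ⟨f'', hf''⟩ := h3
    have h5 : INV p l f'' := by
      rw [← INV_map hp.one_lt (algebraMap B E) hBE, hf'', hf']
      refine (CI k p (ml (algebraMap B E) l)).mul_mem ?_ ?_
      · exact (CI k p (ml (algebraMap B E) l)).pow_mem (C_mem_CI k p _ _) N
      · exact (hinv t f).1 hf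
    refine ⟨N, ⟨f'', h5⟩, ?_⟩
    rw [gI_apply]
    change _ = algebraMap (MvPolynomial σ E) (LL σ E) (MvPolynomial.map (algebraMap B E) f'')
    rw [hf'', hf', map_mul, map_pow, ph_apply]
  · intro V hV
    let VE : ValuationSubring E := V.comap ((algebraMap (MvPolynomial σ E) (LL σ E)).comp
      MvPolynomial.C)
    have hVE : ∀ a ∈ R, a ∈ VE := by
      intro a ha
      obtain ⟨b, rfl⟩ := (hR _).1 ha
      have h1 := hV ⟨MvPolynomial.C b, C_mem_CI k p l b⟩
      rw [gI_apply, MvPolynomial.map_C] at h1
      exact h1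
    obtain ⟨t, ht⟩ := M.cv VE hVE
    refine ⟨t, ?_⟩
    intro x hx
    rw [mem_CH] at hx
    obtain ⟨f, -, rfl⟩ := hx
    rw [ph_apply]
    -- the coordinates are integral over the invariants
    have hX : ∀ j : σ, algebraMap (MvPolynomial σ E) (LL σ E) (MvPolynomial.X j) ∈ V := by
      intro j
      obtain ⟨P, hP, hP0⟩ := isIntegral_CI (k := k) (p := p) l (MvPolynomial.X j : MvPolynomial σ B)
      let g' : CI k p l →+* V := (gI k E p l : CI k p l →+* LL σ E).codRestrict V.toSubring hV
      have h1 : IsIntegral V (algebraMap (MvPolynomial σ E) (LL σ E) (MvPolynomial.X j)) := by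
        refine ⟨P.map g', hP.map _, ?_⟩
        rw [eval₂_map]
        have h2 := congrArg (((algebraMap (MvPolynomial σ E) (LL σ E)).comp
          (MvPolynomial.map (algebraMap B E)))) hP0
        rw [map_zero, Polynomial.hom_eval₂] at h2
        have h3 : ((algebraMap (MvPolynomial σ E) (LL σ E)).comp
            (MvPolynomial.map (algebraMap B E))) (MvPolynomial.X j) =
            algebraMap (MvPolynomial σ E) (LL σ E) (MvPolynomial.X j) := by
          rw [RingHom.comp_apply, MvPolynomial.map_X]
        rw [h3] at h2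
        exact h2
      obtain ⟨y, hy⟩ := IsIntegrallyClosed.isIntegral_iff.1 h1
      rw [← hy]
      exact y.2
    induction f using MvPolynomial.induction_on with
    | C a =>
      rw [MvPolynomial.map_C]
      exact ht a a.2
    | add f g hf hg =>
      rw [map_add, map_add]
      exact V.add_mem _ _ hf hg
    | mul_X f j hf =>
      rw [map_mul, map_mul, MvPolynomial.map_X]
      exact V.mul_mem _ _ hf (hX j)

end geo

end Pool.Agent.Run7.h945.TR
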