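import Pool.Agent.Run7.h945.TR.Geo

set_option autoImplicit false
set_option linter.unusedSectionVars false

open Polynomial AlgebraicGeometry CategoryTheory Pool.Agent.H920R2 Pool.Agent.W558

universe u

namespace Pool.Agent.Run7.h945.TR

section geo

variable {σ : Type} [Finite σ] [DecidableEq σ] {k B E : Type u} [Field k] [CommRing B]
  [IsDomain B] [Algebra k B] [Field E] [Algebra k E] [Algebra B E] [IsScalarTower k B E]

/-- The polynomials over the `k`-algebra `S` whose images in `E[z]` are in `𝒞`. -/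
noncomputable def CC (k : Type u) [Field k] {S : Type u} [CommRing S] [Algebra k S] [Algebra k E]
    (ι : S →ₐ[k] E) (𝒞 : Subalgebra E (MvPolynomial σ E)) : Subalgebra k (MvPolynomial σ S) :=
  (𝒞.restrictScalars k).comap (MvPolynomial.mapAlgHom ι)

lemma mem_CC {S : Type u} [CommRing S] [Algebra k S] {ι : S →ₐ[k] E}
    {𝒞 : Subalgebra E (MvPolynomial σ E)} {f : MvPolynomial σ S} :
    f ∈ CC k ι 𝒞 ↔ MvPolynomial.map (ι : S →+* E) f ∈ 𝒞 := Iff.rfl

/-- The inclusion of `B` into `E`. -/
noncomputable abbrev iB (k B E : Type u) [Field k] [CommRing B] [Algebra k B] [Field E]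
    [Algebra k E] [Algebra B E] [IsScalarTower k B E] : B →ₐ[k] E :=
  IsScalarTower.toAlgHom k B E

/-- The inclusion of the ring of invariants into the field of rational functions. -/
noncomputable def gC (k B : Type u) {E : Type u} [Field k] [CommRing B] [Algebra k B]
    [Field E] [Algebra k E] [Algebra B E] [IsScalarTower k B E]
    (𝒞 : Subalgebra E (MvPolynomial σ E)) : CC k (iB k B E) 𝒞 →ₐ[k] LL σ E :=
  ((IsScalarTower.toAlgHom k (MvPolynomial σ E) (LL σ E)).comp
    (MvPolynomial.mapAlgHom (iB k B E))).comp (CC k (iB k B E) 𝒞).val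

lemma gC_apply (𝒞 : Subalgebra E (MvPolynomial σ E)) (f : CC k (iB k B E) 𝒞) :
    gC k B 𝒞 f = algebraMap (MvPolynomial σ E) (LL σ E)
      (MvPolynomial.map (algebraMap B E) (f : MvPolynomial σ B)) := rfl

lemma gC_injective (hBE : Function.Injective (algebraMap B E))
    (𝒞 : Subalgebra E (MvPolynomial σ E)) : Function.Injective (gC k B 𝒞) := by
  intro f g h
  rw [gC_apply, gC_apply] at h
  exact Subtype.val_injective (MvPolynomial.map_injective _ hBE
    (IsFractionRing.injective (MvPolynomial σ E) (LL σ E) h))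

/-- The atlas. -/
theorem atl_gen (hBE : Function.Injective (algebraMap B E))
    (𝒞 : Subalgebra E (MvPolynomial σ E)) {T I : Type} {R : Subalgebra k E}
    (hR : ∀ x, x ∈ R ↔ ∃ b, algebraMap B E b = x) (M : LM R R T I)
    (hint : ∀ j, IsIntegral (CC k (iB k B E) 𝒞) (MvPolynomial.X j : MvPolynomial σ B))
    (hsm : ∀ t, Algebra.Smooth k (CC k (M.A t).val 𝒞)) :
    Atl (gC k B 𝒞) (fun t => (CC k (M.A t).val 𝒞).map (ph (M.A t)))
      (fun t => algebraMap (MvPolynomial σ E) (LL σ E) (MvPolynomial.C (M.H t))) := by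
  have hA : ∀ t, ∀ b : B, algebraMap B E b ∈ M.A t := fun t b => M.base t ((hR _).2 ⟨b, rfl⟩)
  have hCE : ∀ a : E, MvPolynomial.C a ∈ 𝒞 := fun a => 𝒞.algebraMap_mem a
  have hC : ∀ t (a : E) (ha : a ∈ M.A t), algebraMap (MvPolynomial σ E) (LL σ E)
      (MvPolynomial.C a) ∈ (CC k (M.A t).val 𝒞).map (ph (M.A t)) := by
    intro t a ha
    rw [Subalgebra.mem_map]
    refine ⟨MvPolynomial.C ⟨a, ha⟩, ?_, ?_⟩
    · rw [mem_CC, MvPolynomial.map_C]
      exact hCE a
    · rw [ph_apply, MvPolynomial.map_C]
      rfl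
  have hdiv : ∀ t t', algebraMap (MvPolynomial σ E) (LL σ E) (MvPolynomial.C (M.H t')) /
      algebraMap (MvPolynomial σ E) (LL σ E) (MvPolynomial.C (M.H t)) =
      algebraMap (MvPolynomial σ E) (LL σ E) (MvPolynomial.C (M.H t' / M.H t)) := by
    intro t t'
    rw [div_eq_iff, ← map_mul, ← map_mul, div_mul_cancel₀ _ (M.H0 t)]
    rw [Ne, FaithfulSMul.algebraMap_eq_zero_iff, MvPolynomial.C_eq_zero]
    exact M.H0 t
  -- multiplication of all coefficients
  have hcoef : ∀ (A : Subalgebra k E) (f : MvPolynomial σ E), (∀ m, f.coeff m ∈ A) →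
      ∃ f' : MvPolynomial σ A, MvPolynomial.map (A.val : A →+* E) f' = f := by
    intro A f hf
    have h1 : f ∈ Set.range (MvPolynomial.map (σ := σ) (A.val : A →+* E)) := by
      rw [MvPolynomial.mem_range_map_iff_coeffs_subset]
      intro x hx
      obtain ⟨m, hm⟩ := MvPolynomial.mem_coeffs_iff.1 hx
      exact ⟨⟨_, hf m⟩, hm.2.symm⟩
    exact h1
  refine ⟨?_, ?_, ?_, ?_, ?_, ?_, ?_, ?_⟩
  · intro t
    have h0 := hsm t
    exact Algebra.Smooth.of_equiv
      (Subalgebra.equivMapOfInjective (CC k (M.A t).val 𝒞) (ph (M.A t)) (ph_injective (M.A t)))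
  · intro t a
    rw [Subalgebra.mem_map]
    refine ⟨MvPolynomial.map (jm (M.A t) (hA t)) (a : MvPolynomial σ B), ?_, ?_⟩
    · rw [mem_CC, MvPolynomial.map_map]
      exact a.2
    · rw [ph_jm, gC_apply]
  · intro t
    rw [Ne, FaithfulSMul.algebraMap_eq_zero_iff, MvPolynomial.C_eq_zero]
    exact M.H0 t
  · intro t
    have h1 := M.HR t
    obtain ⟨b, hb⟩ := (hR _).1 h1
    refine ⟨⟨MvPolynomial.C b, ?_⟩, ?_⟩
    · rw [mem_CC, MvPolynomial.map_C]
      exact hCE _
    · rw [gC_apply, MvPolynomial.map_C]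
      congr 2
      exact hb.symm
  · intro t t'
    rw [hdiv]
    exact hC t _ (M.rt t t')
  · intro t t' x hx
    rw [Subalgebra.mem_map] at hx
    obtain ⟨f, hf, rfl⟩ := hx
    rw [mem_CC] at hf
    choose n hn using fun m : σ →₀ ℕ => M.gl t t' (MvPolynomial.coeff m f).1
      (MvPolynomial.coeff m f).2
    let N := f.support.sup n
    refine ⟨N, ?_⟩
    rw [hdiv]
    obtain ⟨f', hf'⟩ := hcoef (M.A t) (MvPolynomial.C (M.H t' / M.H t) ^ N *
      MvPolynomial.map ((M.A t').val : M.A t' →+* E) f) (by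
        intro m
        rw [← MvPolynomial.C_pow, MvPolynomial.coeff_C_mul, MvPolynomial.coeff_map]
        by_cases hm : m ∈ f.support
        · have h2 : n m ≤ N := Finset.le_sup hm
          exact M.gl_mono h2 (hn m)
        · rw [MvPolynomial.notMem_support_iff] at hm
          rw [hm, map_zero, mul_zero]
          exact (M.A t).zero_mem)
    rw [Subalgebra.mem_map]
    refine ⟨f', ?_, ?_⟩
    · rw [mem_CC, hf']
      exact 𝒞.mul_mem (𝒞.pow_mem (hCE _) N) hf
    · rw [ph_apply, hf', map_mul, map_pow]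
      rfl
  · intro t x hx
    rw [Subalgebra.mem_map] at hx
    obtain ⟨f, hf, rfl⟩ := hx
    rw [mem_CC] at hf
    choose n hn using fun m : σ →₀ ℕ => M.dn t (MvPolynomial.coeff m f).1
      (MvPolynomial.coeff m f).2
    let N := f.support.sup n
    obtain ⟨f', hf'⟩ := hcoef R (MvPolynomial.C (M.H t) ^ N *
      MvPolynomial.map ((M.A t).val : M.A t →+* E) f) (by
        intro m
        rw [← MvPolynomial.C_pow, MvPolynomial.coeff_C_mul, MvPolynomial.coeff_map]
        by_cases hm : m ∈ f.support
        · have h2 : n m ≤ N := Finset.le_sup hm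
          exact M.dn_mono h2 (hn m)
        · rw [MvPolynomial.notMem_support_iff] at hm
          rw [hm, map_zero, mul_zero]
          exact R.zero_mem)
    -- lift to `B`
    have h3 : ∃ f'' : MvPolynomial σ B, MvPolynomial.map (algebraMap B E) f'' =
        MvPolynomial.map (R.val : R →+* E) f' := by
      have h1 : MvPolynomial.map (R.val : R →+* E) f' ∈
          Set.range (MvPolynomial.map (σ := σ) (algebraMap B E)) := by
        rw [MvPolynomial.mem_range_map_iff_coeffs_subset]
        intro x hx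
        obtain ⟨m, hm⟩ := MvPolynomial.mem_coeffs_iff.1 hx
        rw [MvPolynomial.coeff_map] at hm
        have h4 : ((MvPolynomial.coeff m f' : R) : E) ∈ R := (MvPolynomial.coeff m f').2
        obtain ⟨b, hb⟩ := (hR _).1 h4
        exact ⟨b, by rw [hm.2]; exact hb⟩
      exact h1
    obtain ⟨f'', hf''⟩ := h3
    refine ⟨N, ⟨f'', ?_⟩, ?_⟩
    · rw [mem_CC]
      change MvPolynomial.map (algebraMap B E) f'' ∈ 𝒞
      rw [hf'', hf']
      exact 𝒞.mul_mem (𝒞.pow_mem (hCE _) N) hf
    · rw [gC_apply]
      change _ = algebraMap (MvPolynomial σ E) (LL σ E) (MvPolynomial.map (algebraMap B E) f'')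
      rw [hf'', hf', map_mul, map_pow]
      rfl
  · intro V hV
    let VE : ValuationSubring E := V.comap ((algebraMap (MvPolynomial σ E) (LL σ E)).comp
      MvPolynomial.C)
    have hVE : ∀ a ∈ R, a ∈ VE := by
      intro a ha
      obtain ⟨b, rfl⟩ := (hR _).1 ha
      have h1 := hV ⟨MvPolynomial.C b, by
        rw [mem_CC, MvPolynomial.map_C]
        exact hCE _⟩
      rw [gC_apply, MvPolynomial.map_C] at h1
      exact h1
    obtain ⟨t, ht⟩ := M.cv VE hVE
    refine ⟨t, ?_⟩
    intro x hx
    rw [Subalgebra.mem_map] at hx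
    obtain ⟨f, -, rfl⟩ := hx
    change ph (M.A t) f ∈ V
    rw [ph_apply]
    -- the coordinates are integral over the invariants
    have hX : ∀ j : σ, algebraMap (MvPolynomial σ E) (LL σ E) (MvPolynomial.X j) ∈ V := by
      intro j
      obtain ⟨P, hP, hP0⟩ := hint j
      let g' : CC k (iB k B E) 𝒞 →+* V :=
        (gC k B 𝒞 : CC k (iB k B E) 𝒞 →+* LL σ E).codRestrict V.toSubring hV
      have h1 : IsIntegral V (algebraMap (MvPolynomial σ E) (LL σ E) (MvPolynomial.X j)) := by
        refine ⟨P.map g', hP.map _, ?_⟩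
        rw [eval₂_map]
        have h2 := congrArg (((algebraMap (MvPolynomial σ E) (LL σ E)).comp
          (MvPolynomial.map (algebraMap B E)))) hP0
        rw [map_zero, Polynomial.hom_eval₂] at h2
        have h3 : ((algebraMap (MvPolynomial σ E) (LL σ E)).comp
            (MvPolynomial.map (algebraMap B E))) (MvPolynomial.X j) =
            algebraMap (MvPolynomial σ E) (LL σ E) (MvPolynomial.X j) := by
          rw [RingHom.comp_apply, MvPolynomial.map_X]
        rw [h3] at h2
        exact h2
      obtain ⟨y, hy⟩ := IsIntegrallyClosed.isIntegral_iff.1 h1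
      rw [← hy]
      exact y.2
    induction f using MvPolynomial.induction_on with
    | C a =>
      rw [MvPolynomial.map_C]
      exact ht a a.2
    | add f g hf hg =>
      rw [map_add, map_add]
      exact V.add_mem _ _ hf hg
    | mul_X f j hf =>
      rw [map_mul, map_mul, MvPolynomial.map_X]
      exact V.mul_mem _ _ hf (hX j)

end geo

section ft

variable {σ : Type} [Finite σ] {k S : Type u} [Field k] [CommRing S] [Algebra k S]

lemma finiteType_of_isIntegral_X [Algebra.FiniteType k S] (C : Subalgebra k (MvPolynomial σ S))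
    (hC : ∀ a : S, MvPolynomial.C a ∈ C) (hint : ∀ j, IsIntegral C (MvPolynomial.X j : MvPolynomial σ S)) :
    Algebra.FiniteType k C := by
  have h0 : Algebra.FiniteType k (MvPolynomial σ S) :=
    Algebra.FiniteType.trans (S := S) inferInstance inferInstance
  have h1 : Algebra.IsIntegral C (MvPolynomial σ S) := by
    refine ⟨fun f => ?_⟩
    induction f using MvPolynomial.induction_on with
    | C a => exact isIntegral_algebraMap (x := (⟨MvPolynomial.C a, hC a⟩ : C))
    | add f g hf hg => exact hf.add hg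
    | mul_X f j hf => exact hf.mul (hint j)
  have h2 : Algebra.FiniteType C (MvPolynomial σ S) :=
    Algebra.FiniteType.of_restrictScalars_finiteType k _ _
  have h3 : Module.Finite C (MvPolynomial σ S) := Algebra.IsIntegral.finite
  refine ⟨?_⟩
  refine fg_of_fg_of_fg k C (MvPolynomial σ S) ?_ h3.1 ?_
  · exact h0.1
  · exact Subtype.val_injective

end ft

end Pool.Agent.Run7.h945.TR
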