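import Pool.Agent.Run7.h945.TR.Inv

set_option autoImplicit false

open Polynomial

namespace Pool.Agent.Run7.h945.TR

section good

variable {σ : Type*} [DecidableEq σ] {S : Type*} [CommRing S]

/-- Common invariants. -/
def INV (p : ℕ) (l : List (S × (σ → S))) (f : MvPolynomial σ S) : Prop :=
  ∀ x ∈ l, Inv p x.1 x.2 f

/-- The transformed data. -/
def nxt (p : ℕ) (β : S) (i : σ) (c : σ → S) (x : S × (σ → S)) : S × (σ → S) :=
  (x.1, nx p β i c x.1 x.2)

/-- The data allow pivots in all steps. -/
inductive Good (p : ℕ) : List (S × (σ → S)) → Prop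
  | nil : Good p []
  | zero (b : S) (v : σ → S) (l : List (S × (σ → S))) (hv : v = fun _ => 0) (h : Good p l) :
      Good p ((b, v) :: l)
  | step (b : S) (v : σ → S) (l : List (S × (σ → S))) (i : σ) (c : σ → S) (hi : v i ≠ 0)
      (hv : ∀ j, v j = c j * v i) (h : Good p (l.map (nxt p (b * v i ^ (p - 1)) i c))) :
      Good p ((b, v) :: l)

theorem good_rec {p : ℕ} [Fact p.Prime] [CharP S p] [IsDomain S] {l : List (S × (σ → S))}
    (h : Good p l) : ∃ φ : MvPolynomial σ S →ₐ[S] MvPolynomial σ S, Function.Injective φ ∧
      ∀ f, INV p l f ↔ ∃ g, f = φ g := by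
  have hp : p.Prime := Fact.out
  induction h with
  | nil =>
    refine ⟨AlgHom.id S _, fun f g h => ?_, fun f => ⟨fun _ => ⟨f, ?_⟩, fun _ x hx => ?_⟩⟩
    · rwa [AlgHom.id_apply, AlgHom.id_apply] at h
    · rw [AlgHom.id_apply]
    · simp at hx
  | zero b v l hv _ ih =>
    obtain ⟨φ, hφ, h⟩ := ih
    refine ⟨φ, hφ, fun f => ?_⟩
    rw [← h f]
    unfold INV
    rw [List.forall_mem_cons]
    exact ⟨fun h => h.2, fun h => ⟨inv_zero p b hv f, h⟩⟩
  | step b v l i c hi hv _ ih =>
    obtain ⟨φ, hφ, h⟩ := ih
    refine ⟨(s1 p (b * v i ^ (p - 1)) i c).comp φ, ?_, fun f => ?_⟩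
    · intro f g hfg
      rw [AlgHom.comp_apply, AlgHom.comp_apply] at hfg
      exact hφ (s1_injective hp.one_lt _ i c hfg)
    have key : ∀ g, INV p l (s1 p (b * v i ^ (p - 1)) i c g) ↔
        INV p (l.map (nxt p (b * v i ^ (p - 1)) i c)) g := by
      intro g
      unfold INV
      rw [List.forall_mem_map]
      constructor
      · intro h x hx
        exact (inv_s1 _ i c x.1 x.2 g).1 (h x hx)
      · intro h x hx
        exact (inv_s1 _ i c x.1 x.2 g).2 (h x hx)
    constructor
    · intro h1
      unfold INV at h1
      rw [List.forall_mem_cons] at h1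
      obtain ⟨h2, h3⟩ := h1
      obtain ⟨g, rfl⟩ := (inv_iff hi hv f).1 h2
      obtain ⟨g', rfl⟩ := (h g).1 ((key g).1 h3)
      exact ⟨g', rfl⟩
    · rintro ⟨g, rfl⟩
      unfold INV
      rw [List.forall_mem_cons]
      refine ⟨(inv_iff hi hv _).2 ⟨φ g, rfl⟩, ?_⟩
      exact (key _).2 ((h _).2 ⟨g, rfl⟩)

/-- The substitution `z j ↦ z j ^ p - b * v j ^ (p - 1) * z j` for all `j`. -/
noncomputable def s2 (p : ℕ) (b : S) (v : σ → S) : MvPolynomial σ S →ₐ[S] MvPolynomial σ S :=
  MvPolynomial.aeval fun j => MvPolynomial.X j ^ p -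
    MvPolynomial.C (b * v j ^ (p - 1)) * MvPolynomial.X j

omit [DecidableEq σ] in
lemma s2_X (p : ℕ) (b : S) (v : σ → S) (j : σ) : s2 p b v (MvPolynomial.X j) =
    MvPolynomial.X j ^ p - MvPolynomial.C (b * v j ^ (p - 1)) * MvPolynomial.X j := by
  unfold s2
  rw [MvPolynomial.aeval_X]

/-- The transformed vectors. -/
def nx2 (p : ℕ) (b : S) (v : σ → S) (b' : S) (w : σ → S) : σ → S := fun j =>
  b' * w j ^ p - b * v j ^ (p - 1) * w j

omit [DecidableEq σ] in
lemma s2_intertwine {p : ℕ} [Fact p.Prime] [CharP S p] (b : S) (v : σ → S) (b' : S)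
    (w : σ → S) (j : σ) :
    AS p (MvPolynomial.C b') ∣ Fs w (s2 p b v (MvPolynomial.X j)) -
      (C (s2 p b v (MvPolynomial.X j)) + C (MvPolynomial.C (nx2 p b v b' w j)) * X) := by
  rw [s2_X]
  unfold nx2
  refine ⟨C (MvPolynomial.C (w j ^ p)), ?_⟩
  rw [map_sub, map_mul, map_pow, Fs_X, Fs_C, add_pow_char, mul_pow]
  unfold AS
  simp only [map_sub, map_mul, map_pow]
  ring

omit [DecidableEq σ] in
lemma inv_s2 {p : ℕ} [Fact p.Prime] [CharP S p] (b : S) (v : σ → S) (b' : S)
    (w : σ → S) (g : MvPolynomial σ S) (hg : Inv p b' (nx2 p b v b' w) g) :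
    Inv p b' w (s2 p b v g) :=
  inv_of_intertwine (w := w) (w' := nx2 p b v b' w) (s2 p b v) (s2_intertwine b v b' w) g hg

omit [DecidableEq σ] in
/-- There are sufficiently many invariants. -/
theorem exists_psi {p : ℕ} [Fact p.Prime] [CharP S p] (n : ℕ) :
    ∀ l : List (S × (σ → S)), l.length = n → ∃ ψ : MvPolynomial σ S →ₐ[S] MvPolynomial σ S,
      (∀ g, INV p l (ψ g)) ∧ (ψ : MvPolynomial σ S →+* MvPolynomial σ S).IsIntegral := by
  have hp : p.Prime := Fact.out
  induction n with
  | zero =>
    intro l hl
    rw [List.length_eq_zero_iff] at hl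
    subst hl
    refine ⟨AlgHom.id S _, fun _ x hx => ?_, ?_⟩
    · simp at hx
    · intro x
      refine ⟨X - C x, monic_X_sub_C x, ?_⟩
      rw [eval₂_sub, eval₂_X, eval₂_C]
      exact sub_self x
  | succ n ih =>
    intro l hl
    obtain ⟨⟨b, v⟩, l, rfl⟩ : ∃ x l', l = x :: l' := by
      cases l with
      | nil => simp at hl
      | cons x l' => exact ⟨x, l', rfl⟩
    rw [List.length_cons, Nat.add_right_cancel_iff] at hl
    obtain ⟨ψ, h1, h2⟩ := ih (l.map fun x => (x.1, nx2 p b v x.1 x.2))
      (by rw [List.length_map, hl])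
    refine ⟨(s2 p b v).comp ψ, ?_, ?_⟩
    · intro g
      unfold INV
      rw [List.forall_mem_cons]
      constructor
      · have e1 : nx2 p b v b v = fun _ => 0 := by
          funext j
          have e : v j ^ p = v j ^ (p - 1) * v j := by
            rw [← pow_succ, Nat.sub_add_cancel hp.one_lt.le]
          simp only [nx2, e]
          ring
        exact inv_s2 b v b v (ψ g) (inv_zero p b e1 (ψ g))
      · intro x hx
        have h3 : Inv p x.1 (nx2 p b v x.1 x.2) (ψ g) :=
          h1 g (x.1, nx2 p b v x.1 x.2) (List.mem_map.2 ⟨x, hx, rfl⟩)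
        exact inv_s2 b v x.1 x.2 (ψ g) h3
    · have h3 : (s2 p b v : MvPolynomial σ S →+* MvPolynomial σ S).IsIntegral := by
        intro x
        induction x using MvPolynomial.induction_on with
        | C a =>
          have e : (s2 p b v : MvPolynomial σ S →+* MvPolynomial σ S) (MvPolynomial.C a) =
              MvPolynomial.C a := (s2 p b v).commutes a
          refine ⟨X - C (MvPolynomial.C a), monic_X_sub_C _, ?_⟩
          rw [eval₂_sub, eval₂_X, eval₂_C, e, sub_self]
        | add f g hf hg => exact RingHom.IsIntegralElem.add _ hf hg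
        | mul_X f j hf =>
          refine RingHom.IsIntegralElem.mul _ hf ?_
          refine ⟨AS p (MvPolynomial.C (b * v j ^ (p - 1))) - C (MvPolynomial.X j), ?_, ?_⟩
          · refine (AS_monic hp.one_lt _).sub_of_left ?_
            refine degree_C_le.trans_lt ?_
            have h4 : (AS p (MvPolynomial.C (b * v j ^ (p - 1)) : MvPolynomial σ S)).degree =
                ((AS p (MvPolynomial.C (b * v j ^ (p - 1)) : MvPolynomial σ S)).natDegree :
                  WithBot ℕ) := by
              rcases subsingleton_or_nontrivial S with hS | hS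
              · exfalso
                exact absurd (Subsingleton.elim (1 : S) 0) (by
                  intro h
                  have := CharP.nontrivial_of_char_ne_one (R := S) (v := p) hp.one_lt.ne'
                  exact one_ne_zero h)
              · exact degree_eq_natDegree (AS_monic hp.one_lt _).ne_zero
            have := CharP.nontrivial_of_char_ne_one (R := S) (v := p) hp.one_lt.ne'
            rw [h4, AS_natDegree hp.one_lt]
            exact_mod_cast hp.pos
          · rw [eval₂_sub, eval₂_C]
            unfold AS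
            rw [eval₂_sub, eval₂_mul, eval₂_X_pow, eval₂_C, eval₂_X]
            have e1 : (s2 p b v : MvPolynomial σ S →+* MvPolynomial σ S)
                (MvPolynomial.C (b * v j ^ (p - 1))) = MvPolynomial.C (b * v j ^ (p - 1)) :=
              (s2 p b v).commutes _
            have e2 : (s2 p b v : MvPolynomial σ S →+* MvPolynomial σ S) (MvPolynomial.X j) =
                MvPolynomial.X j ^ p -
                  MvPolynomial.C (b * v j ^ (p - 1)) * MvPolynomial.X j := s2_X p b v j
            rw [e1, e2]
            ring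
      exact RingHom.IsIntegral.trans _ _ h2 h3

end good

section tree

variable {σ : Type*} [DecidableEq σ] [Finite σ] {E : Type*} [Field E]

/-- The finite set of functions which are to be compared. -/
theorem exists_tree (p : ℕ) (n : ℕ) : ∀ l : List (E × (σ → E)), l.length = n →
    ∃ G : Set E, G.Finite ∧ (∀ a ∈ G, a ≠ 0) ∧
      ∀ (S : Type*) [CommRing S] (ι : S →+* E), Function.Injective ι →
        ∀ l' : List (S × (σ → S)), l'.map (fun x => (ι x.1, fun j => ι (x.2 j))) = l →
        (∀ a ∈ G, ∀ b ∈ G, (∃ s, a / b = ι s) ∨ ∃ s, b / a = ι s) → Good p l' := by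
  induction n with
  | zero =>
    intro l hl
    refine ⟨∅, Set.finite_empty, by simp, ?_⟩
    intro S _ ι _ l' hl' _
    rw [List.length_eq_zero_iff] at hl
    subst hl
    rw [List.map_eq_nil_iff] at hl'
    subst hl'
    exact Good.nil
  | succ n ih =>
    intro l hl
    obtain ⟨⟨b, v⟩, l, rfl⟩ : ∃ x l', l = x :: l' := by
      cases l with
      | nil => simp at hl
      | cons x l' => exact ⟨x, l', rfl⟩
    rw [List.length_cons, Nat.add_right_cancel_iff] at hl
    obtain ⟨G0, hG0, hG0', h0⟩ := ih l hl
    choose G hG hG' hG1 using fun i => ih (l.map (nxt p (b * v i ^ (p - 1)) i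
      (fun j => v j / v i))) (by rw [List.length_map, hl])
    refine ⟨G0 ∪ ((⋃ i, G i) ∪ {a | a ≠ 0 ∧ ∃ j, v j = a}), ?_, ?_, ?_⟩
    · refine hG0.union ((Set.finite_iUnion hG).union ?_)
      exact (Set.finite_range v).subset fun a ha => ha.2
    · rintro a (ha | ha | ha)
      · exact hG0' a ha
      · obtain ⟨i, hi⟩ := Set.mem_iUnion.1 ha
        exact hG' i a hi
      · exact ha.1
    · intro S _ ι hι l' hl' hc
      obtain ⟨⟨b', v'⟩, l', rfl⟩ : ∃ x l'', l' = x :: l'' := by
        cases l' with
        | nil => simp at hl'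
        | cons x l'' => exact ⟨x, l'', rfl⟩
      rw [List.map_cons, List.cons.injEq, Prod.mk.injEq] at hl'
      obtain ⟨⟨hb, hv⟩, hl'⟩ := hl'
      simp only at hb hv
      by_cases hz : ∀ j, v j = 0
      · refine Good.zero b' v' l' ?_ ?_
        · funext j
          apply hι
          rw [map_zero, ← hz j]
          exact congrFun hv j
        · exact h0 S ι hι l' hl' fun a ha c hc' => hc a (Or.inl ha) c (Or.inl hc')
      · push Not at hz
        -- choose the pivot
        have hpiv : ∃ i, v i ≠ 0 ∧ ∀ j, ∃ s, v j / v i = ι s := by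
          have key : ∀ F : Finset σ, (∃ j ∈ F, v j ≠ 0) →
              ∃ i, v i ≠ 0 ∧ ∀ j ∈ F, ∃ s, v j / v i = ι s := by
            intro F
            induction F using Finset.induction_on with
            | empty => rintro ⟨j, hj, -⟩; simp at hj
            | insert q F hq ihF =>
              intro hF
              by_cases h1 : ∃ j ∈ F, v j ≠ 0
              · obtain ⟨i, hi, h2⟩ := ihF h1
                by_cases hqz : v q = 0
                · refine ⟨i, hi, fun j hj => ?_⟩
                  rcases Finset.mem_insert.1 hj with rfl | hj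
                  · exact ⟨0, by rw [hqz, zero_div, map_zero]⟩
                  · exact h2 j hj
                · rcases hc (v q) (Or.inr (Or.inr ⟨hqz, q, rfl⟩)) (v i)
                    (Or.inr (Or.inr ⟨hi, i, rfl⟩)) with ⟨s, hs⟩ | ⟨s, hs⟩
                  · refine ⟨i, hi, fun j hj => ?_⟩
                    rcases Finset.mem_insert.1 hj with rfl | hj
                    · exact ⟨s, hs⟩
                    · exact h2 j hj
                  · refine ⟨q, hqz, fun j hj => ?_⟩
                    rcases Finset.mem_insert.1 hj with rfl | hj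
                    · exact ⟨1, by rw [div_self hqz, map_one]⟩
                    · obtain ⟨s', hs'⟩ := h2 j hj
                      refine ⟨s' * s, ?_⟩
                      rw [map_mul, ← hs', ← hs]
                      field_simp
              · push Not at h1
                obtain ⟨j, hj, hj0⟩ := hF
                have hjq : j = q := by
                  rcases Finset.mem_insert.1 hj with h | h
                  · exact h
                  · exact absurd (h1 j h) hj0
                subst hjq
                refine ⟨j, hj0, fun j' hj' => ?_⟩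
                rcases Finset.mem_insert.1 hj' with rfl | hj'
                · exact ⟨1, by rw [div_self hj0, map_one]⟩
                · exact ⟨0, by rw [h1 j' hj', zero_div, map_zero]⟩
          have : Fintype σ := Fintype.ofFinite σ
          obtain ⟨j, hj⟩ := hz
          obtain ⟨i, hi, h⟩ := key Finset.univ ⟨j, Finset.mem_univ j, hj⟩
          exact ⟨i, hi, fun j => h j (Finset.mem_univ j)⟩
        obtain ⟨i, hi, hs⟩ := hpiv
        choose c hc' using hs
        have hvj : ∀ j, ι (v' j) = v j := fun j => congrFun hv j
        refine Good.step b' v' l' i c ?_ ?_ ?_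
        · intro h
          apply hi
          rw [← hvj, h, map_zero]
        · intro j
          apply hι
          rw [map_mul, hvj, hvj, ← hc' j, div_mul_cancel₀ _ hi]
        · refine hG1 i S ι hι _ ?_ fun a ha d hd =>
            hc a (Or.inr (Or.inl (Set.mem_iUnion.2 ⟨i, ha⟩))) d
              (Or.inr (Or.inl (Set.mem_iUnion.2 ⟨i, hd⟩)))
          rw [← hl', List.map_map, List.map_map]
          apply List.map_congr_left
          intro x _
          simp only [Function.comp_apply, nxt]
          refine Prod.ext rfl ?_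
          funext j
          simp only [nx]
          by_cases hj : j = i
          · rw [if_pos hj, if_pos hj, map_sub, map_mul, map_pow, map_mul, map_mul, map_pow, hvj,
              hb]
          · rw [if_neg hj, if_neg hj, map_sub, map_mul, hc' j]

end tree

end Pool.Agent.Run7.h945.TR
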