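import Pool.Agent.Run7.h945.TR.OneVar

set_option autoImplicit false

open Polynomial

namespace Pool.Agent.Run7.h945.TR

section defs

variable {σ S : Type*} [CommRing S]

/-- The homomorphism `f ↦ f (z + θ v)`. -/
noncomputable def Fs (v : σ → S) : MvPolynomial σ S →ₐ[S] (MvPolynomial σ S)[X] :=
  MvPolynomial.aeval fun j => C (MvPolynomial.X j) + C (MvPolynomial.C (v j)) * X

/-- Invariance: `f (z + θ v) = f (z)` modulo `θ ^ p - b θ`. -/
def Inv (p : ℕ) (b : S) (v : σ → S) (f : MvPolynomial σ S) : Prop :=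
  AS p (MvPolynomial.C b) ∣ Fs v f - C f

lemma Fs_X (v : σ → S) (j : σ) :
    Fs v (MvPolynomial.X j) = C (MvPolynomial.X j) + C (MvPolynomial.C (v j)) * X := by
  unfold Fs
  rw [MvPolynomial.aeval_X]

lemma Fs_C (v : σ → S) (a : S) :
    Fs v (MvPolynomial.C a) = C (MvPolynomial.C a) := by
  unfold Fs
  rw [MvPolynomial.aeval_C]
  rfl

lemma Fs_zero (f : MvPolynomial σ S) : Fs (fun _ => (0 : S)) f = C f := by
  have : Fs (fun _ : σ => (0 : S)) =
      (Polynomial.CAlgHom (R := S) (A := MvPolynomial σ S)) := by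
    apply MvPolynomial.algHom_ext
    intro j
    rw [Fs_X]
    simp
  rw [this]
  rfl

lemma inv_zero (p : ℕ) (b : S) {v : σ → S} (hv : v = fun _ => 0) (f : MvPolynomial σ S) :
    Inv p b v f := by
  unfold Inv
  rw [hv, Fs_zero, sub_self]
  exact dvd_zero _

/-- Intertwining. -/
lemma dvd_intertwine {p : ℕ} {b : S} {w w' : σ → S} (φ : MvPolynomial σ S →ₐ[S] MvPolynomial σ S)
    (h : ∀ j, AS p (MvPolynomial.C b) ∣ Fs w (φ (MvPolynomial.X j)) -
      (C (φ (MvPolynomial.X j)) + C (MvPolynomial.C (w' j)) * X)) (g : MvPolynomial σ S) :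
    AS p (MvPolynomial.C b) ∣ Fs w (φ g) - (Fs w' g).map (φ : MvPolynomial σ S →+* _) := by
  let I : Ideal (MvPolynomial σ S)[X] := Ideal.span {AS p (MvPolynomial.C b)}
  let ψ1 : MvPolynomial σ S →ₐ[S] (MvPolynomial σ S)[X] ⧸ I :=
    (Ideal.Quotient.mkₐ S I).comp ((Fs w).comp φ)
  let ψ2 : MvPolynomial σ S →ₐ[S] (MvPolynomial σ S)[X] ⧸ I :=
    (Ideal.Quotient.mkₐ S I).comp ((Polynomial.mapAlgHom φ).comp (Fs w'))
  have key : ψ1 = ψ2 := by
    apply MvPolynomial.algHom_ext
    intro j
    change Ideal.Quotient.mk I (Fs w (φ (MvPolynomial.X j))) =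
      Ideal.Quotient.mk I ((Fs w' (MvPolynomial.X j)).map (φ : MvPolynomial σ S →+* _))
    rw [Ideal.Quotient.eq, Ideal.mem_span_singleton, Fs_X]
    have e : ((C (MvPolynomial.X j) + C (MvPolynomial.C (w' j)) * X :
        (MvPolynomial σ S)[X]).map (φ : MvPolynomial σ S →+* MvPolynomial σ S)) =
        C (φ (MvPolynomial.X j)) + C (MvPolynomial.C (w' j)) * X := by
      rw [Polynomial.map_add, Polynomial.map_mul, map_C, map_C, map_X]
      congr 3
      exact φ.commutes (w' j)
    rw [e]
    exact h j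
  have h2 := congrArg (fun ψ : MvPolynomial σ S →ₐ[S] (MvPolynomial σ S)[X] ⧸ I => ψ g) key
  change Ideal.Quotient.mk I (Fs w (φ g)) =
      Ideal.Quotient.mk I ((Fs w' g).map (φ : MvPolynomial σ S →+* _)) at h2
  rwa [Ideal.Quotient.eq, Ideal.mem_span_singleton] at h2

lemma inv_intertwine {p : ℕ} (hp : 1 < p) {b : S} {w w' : σ → S}
    (φ : MvPolynomial σ S →ₐ[S] MvPolynomial σ S) (hφ : Function.Injective φ)
    (h : ∀ j, AS p (MvPolynomial.C b) ∣ Fs w (φ (MvPolynomial.X j)) -
      (C (φ (MvPolynomial.X j)) + C (MvPolynomial.C (w' j)) * X)) (g : MvPolynomial σ S) :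
    Inv p b w (φ g) ↔ Inv p b w' g := by
  have h1 := dvd_intertwine φ h g
  unfold Inv
  have e : Fs w (φ g) - C (φ g) = (Fs w (φ g) - (Fs w' g).map (φ : MvPolynomial σ S →+* _)) +
      (Fs w' g - C g).map (φ : MvPolynomial σ S →+* _) := by
    rw [Polynomial.map_sub, map_C]
    simp
  rw [e, dvd_add_right h1]
  have e2 : AS p (MvPolynomial.C b) = (AS p (MvPolynomial.C b : MvPolynomial σ S)).map
      (φ : MvPolynomial σ S →+* MvPolynomial σ S) := by
    rw [AS_map]
    congr 1
    exact (φ.commutes b).symm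
  conv_lhs => rw [e2]
  exact Polynomial.map_dvd_map _ hφ (AS_monic hp _)

lemma inv_of_intertwine {p : ℕ} {b : S} {w w' : σ → S}
    (φ : MvPolynomial σ S →ₐ[S] MvPolynomial σ S)
    (h : ∀ j, AS p (MvPolynomial.C b) ∣ Fs w (φ (MvPolynomial.X j)) -
      (C (φ (MvPolynomial.X j)) + C (MvPolynomial.C (w' j)) * X)) (g : MvPolynomial σ S)
    (hg : Inv p b w' g) :
    Inv p b w (φ g) := by
  have h1 := dvd_intertwine φ h g
  unfold Inv at hg ⊢
  have e : Fs w (φ g) - C (φ g) = (Fs w (φ g) - (Fs w' g).map (φ : MvPolynomial σ S →+* _)) +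
      (Fs w' g - C g).map (φ : MvPolynomial σ S →+* _) := by
    rw [Polynomial.map_sub, map_C]
    simp
  rw [e, dvd_add_right h1]
  have e2 : AS p (MvPolynomial.C b) = (AS p (MvPolynomial.C b : MvPolynomial σ S)).map
      (φ : MvPolynomial σ S →+* MvPolynomial σ S) := by
    rw [AS_map]
    congr 1
    exact (φ.commutes b).symm
  rw [e2]
  exact Polynomial.map_dvd _ hg

end defs

section step

variable {σ S : Type*} [DecidableEq σ] [CommRing S]

/-- The substitution `z j ↦ z j - c j * z i` for `j ≠ i`. -/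
noncomputable def al (i : σ) (c : σ → S) : MvPolynomial σ S →ₐ[S] MvPolynomial σ S :=
  MvPolynomial.aeval fun j => if j = i then MvPolynomial.X i else
    MvPolynomial.X j - MvPolynomial.C (c j) * MvPolynomial.X i

lemma al_X (i : σ) (c : σ → S) (j : σ) : al i c (MvPolynomial.X j) =
    if j = i then MvPolynomial.X i else
    MvPolynomial.X j - MvPolynomial.C (c j) * MvPolynomial.X i := by
  unfold al
  rw [MvPolynomial.aeval_X]

lemma al_C (i : σ) (c : σ → S) (a : S) : al i c (MvPolynomial.C a) = MvPolynomial.C a := by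
  unfold al
  rw [MvPolynomial.aeval_C]
  rfl

lemma al_al (i : σ) (c : σ → S) (f : MvPolynomial σ S) : al i c (al i (fun j => - c j) f) = f := by
  have : (al i c).comp (al i (fun j => - c j)) = AlgHom.id S _ := by
    apply MvPolynomial.algHom_ext
    intro j
    rw [AlgHom.comp_apply, al_X]
    by_cases hj : j = i
    · rw [if_pos hj, al_X, if_pos rfl, hj]
      rfl
    · rw [if_neg hj, map_sub, map_mul, al_X, al_X, al_C, if_neg hj, if_pos rfl]
      simp
  exact congrArg (fun ψ : MvPolynomial σ S →ₐ[S] MvPolynomial σ S => ψ f) this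

lemma al_injective (i : σ) (c : σ → S) : Function.Injective (al i c) := by
  intro f g h
  have h1 := al_al i (fun j => - c j) f
  have h2 := al_al i (fun j => - c j) g
  simp only [neg_neg] at h1 h2
  rw [← h1, ← h2]
  exact congrArg _ h

/-- The substitution `z i ↦ z i ^ p - β * z i`. -/
noncomputable def s0 (p : ℕ) (β : S) (i : σ) : MvPolynomial σ S →ₐ[S] MvPolynomial σ S :=
  MvPolynomial.aeval fun j => if j = i then
    MvPolynomial.X i ^ p - MvPolynomial.C β * MvPolynomial.X i else MvPolynomial.X j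

lemma s0_X (p : ℕ) (β : S) (i j : σ) : s0 p β i (MvPolynomial.X j) =
    if j = i then MvPolynomial.X i ^ p - MvPolynomial.C β * MvPolynomial.X i
    else MvPolynomial.X j := by
  unfold s0
  rw [MvPolynomial.aeval_X]

/-- Polynomials in `z i` over the ring of polynomials in the other variables. -/
noncomputable def ei (i : σ) : MvPolynomial σ S ≃ₐ[S] (MvPolynomial {j // j ≠ i} S)[X] :=
  (MvPolynomial.renameEquiv S (Equiv.optionSubtypeNe i).symm).trans
    (MvPolynomial.optionEquivLeft S {j // j ≠ i})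

/-- The same as a homomorphism. -/
noncomputable def eh (i : σ) : MvPolynomial σ S →ₐ[S] (MvPolynomial {j // j ≠ i} S)[X] :=
  (ei i).toAlgHom

lemma eh_apply (i : σ) (f : MvPolynomial σ S) : eh i f = ei i f := rfl

lemma ei_X_self (i : σ) : ei (S := S) i (MvPolynomial.X i) = X := by
  unfold ei
  rw [AlgEquiv.trans_apply, MvPolynomial.renameEquiv_apply, MvPolynomial.rename_X,
    Equiv.optionSubtypeNe_symm_self]
  exact MvPolynomial.optionEquivLeft_X_none _ _

lemma ei_X_ne {i j : σ} (h : j ≠ i) : ei (S := S) i (MvPolynomial.X j) =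
    C (MvPolynomial.X ⟨j, h⟩) := by
  unfold ei
  rw [AlgEquiv.trans_apply, MvPolynomial.renameEquiv_apply, MvPolynomial.rename_X,
    Equiv.optionSubtypeNe_symm_of_ne h]
  exact MvPolynomial.optionEquivLeft_X_some _ _ _

lemma ei_C (i : σ) (a : S) : ei (S := S) i (MvPolynomial.C a) = C (MvPolynomial.C a) :=
  (ei (S := S) i).commutes a

lemma ei_s0 (p : ℕ) (β : S) (i : σ) (g : MvPolynomial σ S) :
    ei i (s0 p β i g) = (ei i g).comp (AS p (MvPolynomial.C β)) := by
  have : ((eh (S := S) i).comp (s0 p β i)) =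
      ((Polynomial.aeval (R := MvPolynomial {j // j ≠ i} S)
        (A := (MvPolynomial {j // j ≠ i} S)[X])
        (AS p (MvPolynomial.C β : MvPolynomial {j // j ≠ i} S))).restrictScalars S).comp
        (eh (S := S) i) := by
    apply MvPolynomial.algHom_ext
    intro j
    rw [AlgHom.comp_apply, AlgHom.comp_apply, s0_X, AlgHom.restrictScalars_apply]
    change (ei i) _ = aeval _ (ei i _)
    by_cases hj : j = i
    · rw [if_pos hj, hj, ei_X_self, map_sub, map_mul, map_pow, ei_X_self, ei_C, aeval_X]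
      rfl
    · rw [if_neg hj, ei_X_ne hj, aeval_C]
      rfl
  exact congrArg (fun ψ : MvPolynomial σ S →ₐ[S] (MvPolynomial {j // j ≠ i} S)[X] => ψ g) this

lemma s0_injective {p : ℕ} (hp : 1 < p) (β : S) (i : σ) : Function.Injective (s0 p β i) := by
  intro f g h
  rcases subsingleton_or_nontrivial S with hS | hS
  · exact Subsingleton.elim _ _
  have h1 : (ei i f).comp (AS p (MvPolynomial.C β)) = (ei i g).comp (AS p (MvPolynomial.C β)) := by
    rw [← ei_s0, ← ei_s0, h]
  have h2 := comp_monic_injective (AS_monic hp _) (by rw [AS_natDegree hp]; omega) h1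
  exact (ei (S := S) i).injective h2

/-- The vector `h * e i`. -/
def single' (i : σ) (h : S) : σ → S := fun j => if j = i then h else 0

lemma ei_Fs (i : σ) (h : S) (f : MvPolynomial σ S) :
    (Fs (single' i h) f).map ((eh (S := S) i) : MvPolynomial σ S →+* _) =
      sh (MvPolynomial.C h) (ei i f) := by
  have : (Polynomial.mapAlgHom (eh (S := S) i)).comp
      (Fs (single' i h)) = ((sh (MvPolynomial.C h : MvPolynomial {j // j ≠ i} S)).restrictScalars S).comp
        (eh (S := S) i) := by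
    apply MvPolynomial.algHom_ext
    intro j
    rw [AlgHom.comp_apply, AlgHom.comp_apply, Fs_X, AlgHom.restrictScalars_apply]
    change Polynomial.map _ _ = sh _ (ei i _)
    rw [Polynomial.map_add, Polynomial.map_mul, map_C, map_C, map_X]
    change C (ei i (MvPolynomial.X j)) + C (ei i (MvPolynomial.C (single' i h j))) * X = _
    unfold single'
    by_cases hj : j = i
    · rw [if_pos hj, hj, ei_X_self, ei_C, sh_X]
    · rw [if_neg hj, ei_X_ne hj, ei_C, sh_C]
      simp
  exact congrArg (fun ψ : MvPolynomial σ S →ₐ[S] (MvPolynomial {j // j ≠ i} S)[X][X] => ψ f) this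

/-- The invariants for the vector `h * e i`. -/
lemma inv_single {p : ℕ} [Fact p.Prime] [CharP S p] [IsDomain S] {b h : S} (hh : h ≠ 0) (i : σ)
    {f : MvPolynomial σ S} (hf : Inv p b (single' i h) f) :
    ∃ g, f = s0 p (b * h ^ (p - 1)) i g := by
  have h1 : AS p (C (MvPolynomial.C b)) ∣ sh (MvPolynomial.C h) (ei i f) - C (ei i f) := by
    have h2 := Polynomial.map_dvd
      ((eh (S := S) i) : MvPolynomial σ S →+* (MvPolynomial {j // j ≠ i} S)[X]) hf
    rw [Polynomial.map_sub, ei_Fs, AS_map, map_C] at h2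
    change AS p (ei i (MvPolynomial.C b)) ∣ _ - C (ei i f) at h2
    rwa [ei_C] at h2
  obtain ⟨g, hg⟩ := one_var (p := p) (MvPolynomial.C_ne_zero.2 hh) _ h1
  refine ⟨(ei i).symm g, ?_⟩
  apply (ei (S := S) i).injective
  rw [ei_s0, AlgEquiv.apply_symm_apply, hg]
  congr 2
  simp

/-- The step homomorphism with pivot `i`. -/
noncomputable def s1 (p : ℕ) (β : S) (i : σ) (c : σ → S) :
    MvPolynomial σ S →ₐ[S] MvPolynomial σ S := (al i c).comp (s0 p β i)

lemma s1_X (p : ℕ) (β : S) (i : σ) (c : σ → S) (j : σ) : s1 p β i c (MvPolynomial.X j) =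
    if j = i then MvPolynomial.X i ^ p - MvPolynomial.C β * MvPolynomial.X i
    else MvPolynomial.X j - MvPolynomial.C (c j) * MvPolynomial.X i := by
  unfold s1
  rw [AlgHom.comp_apply, s0_X]
  by_cases hj : j = i
  · rw [if_pos hj, if_pos hj, map_sub, map_mul, map_pow, al_X, if_pos rfl, al_C]
  · rw [if_neg hj, if_neg hj, al_X, if_neg hj]

lemma s1_injective {p : ℕ} (hp : 1 < p) (β : S) (i : σ) (c : σ → S) :
    Function.Injective (s1 p β i c) :=
  (al_injective i c).comp (s0_injective hp β i)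

/-- The transformed vectors: `b` and `h` belong to the first group scheme. -/
def nx (p : ℕ) (β : S) (i : σ) (c : σ → S) (b' : S) (w : σ → S) : σ → S := fun j =>
  if j = i then b' * w i ^ p - β * w i else w j - c j * w i

lemma s1_intertwine {p : ℕ} [Fact p.Prime] [CharP S p] (β : S) (i : σ) (c : σ → S) (b' : S)
    (w : σ → S) (j : σ) :
    AS p (MvPolynomial.C b') ∣ Fs w (s1 p β i c (MvPolynomial.X j)) -
      (C (s1 p β i c (MvPolynomial.X j)) + C (MvPolynomial.C (nx p β i c b' w j)) * X) := by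
  rw [s1_X]
  unfold nx
  by_cases hj : j = i
  · rw [if_pos hj, if_pos hj]
    refine ⟨C (MvPolynomial.C (w i ^ p)), ?_⟩
    rw [map_sub, map_mul, map_pow, Fs_X, Fs_C, add_pow_char, mul_pow]
    unfold AS
    simp only [map_sub, map_mul, map_pow]
    ring
  · rw [if_neg hj, if_neg hj]
    refine ⟨0, ?_⟩
    rw [map_sub, map_mul, Fs_X, Fs_X, Fs_C]
    simp only [map_sub, map_mul]
    ring

lemma inv_s1 {p : ℕ} [Fact p.Prime] [CharP S p] (β : S) (i : σ) (c : σ → S) (b' : S)
    (w : σ → S) (g : MvPolynomial σ S) :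
    Inv p b' w (s1 p β i c g) ↔ Inv p b' (nx p β i c b' w) g :=
  inv_intertwine (Fact.out : p.Prime).one_lt _ (s1_injective (Fact.out : p.Prime).one_lt β i c)
    (s1_intertwine β i c b' w) g

lemma al_intertwine (p : ℕ) (i : σ) (c : σ → S) (b : S) (v : σ → S) (hv : ∀ j, v j = c j * v i)
    (j : σ) :
    AS p (MvPolynomial.C b) ∣ Fs v (al i c (MvPolynomial.X j)) -
      (C (al i c (MvPolynomial.X j)) + C (MvPolynomial.C (single' i (v i) j)) * X) := by
  refine ⟨0, ?_⟩
  rw [al_X]
  unfold single'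
  by_cases hj : j = i
  · rw [if_pos hj, if_pos hj, Fs_X]
    ring
  · rw [if_neg hj, if_neg hj]
    rw [map_sub, map_mul, Fs_X, Fs_X, Fs_C, hv j]
    simp only [map_sub, map_mul, map_zero]
    ring

/-- The invariants of one group scheme. -/
theorem inv_iff {p : ℕ} [Fact p.Prime] [CharP S p] [IsDomain S] {b : S} {v c : σ → S} {i : σ}
    (hi : v i ≠ 0) (hv : ∀ j, v j = c j * v i) (f : MvPolynomial σ S) :
    Inv p b v f ↔ ∃ g, f = s1 p (b * v i ^ (p - 1)) i c g := by
  have hp : p.Prime := Fact.out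
  constructor
  · intro h
    have e : f = al i c (al i (fun j => - c j) f) := (al_al i c f).symm
    rw [e, inv_intertwine hp.one_lt (al i c) (al_injective i c) (al_intertwine p i c b v hv)] at h
    obtain ⟨g, hg⟩ := inv_single hi i h
    refine ⟨g, ?_⟩
    rw [e, hg]
    rfl
  · rintro ⟨g, rfl⟩
    rw [inv_s1]
    apply inv_zero
    funext j
    unfold nx
    by_cases hj : j = i
    · rw [if_pos hj]
      have e : v i ^ p = v i ^ (p - 1) * v i := by
        rw [← pow_succ, Nat.sub_add_cancel hp.one_lt.le]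
      rw [e]
      ring
    · rw [if_neg hj, hv j, sub_self]

end step

end Pool.Agent.Run7.h945.TR
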