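import Pool.Agent.W418.LU.Base
import Pool.Agent.N98.SS.Serre
import Pool.Agent.N98.RM.Norm

/-!
# The local ring of the centre of a valuation ring
-/

set_option autoImplicit false
set_option linter.unusedSectionVars false

namespace Pool.Agent.Run7.h945.TR

section locS

variable {K : Type} [Field K]

/-- The local ring of the centre of `V` on the subring `C`, as a subring of the field. -/
def locS (V : ValuationSubring K) (C : Subring K) : Subring K where
  carrier := {x | ∃ c s : K, c ∈ C ∧ s ∈ C ∧ s ≠ 0 ∧ s⁻¹ ∈ V ∧ x * s = c}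
  mul_mem' := by
    rintro x y ⟨c, s, hc, hs, hs0, hsV, h⟩ ⟨c', s', hc', hs', hs0', hsV', h'⟩
    refine ⟨c * c', s * s', C.mul_mem hc hc', C.mul_mem hs hs', mul_ne_zero hs0 hs0', ?_, ?_⟩
    · rw [mul_inv]
      exact V.mul_mem _ _ hsV hsV'
    · rw [← h, ← h']; ring
  one_mem' := ⟨1, 1, C.one_mem, C.one_mem, one_ne_zero, by rw [inv_one]; exact V.one_mem,
    mul_one _⟩
  add_mem' := by
    rintro x y ⟨c, s, hc, hs, hs0, hsV, h⟩ ⟨c', s', hc', hs', hs0', hsV', h'⟩
    refine ⟨c * s' + c' * s, s * s', C.add_mem (C.mul_mem hc hs') (C.mul_mem hc' hs),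
      C.mul_mem hs hs', mul_ne_zero hs0 hs0', ?_, ?_⟩
    · rw [mul_inv]
      exact V.mul_mem _ _ hsV hsV'
    · rw [← h, ← h']; ring
  zero_mem' := ⟨0, 1, C.zero_mem, C.one_mem, one_ne_zero, by rw [inv_one]; exact V.one_mem,
    zero_mul _⟩
  neg_mem' := by
    rintro x ⟨c, s, hc, hs, hs0, hsV, h⟩
    exact ⟨-c, s, C.neg_mem hc, hs, hs0, hsV, by rw [← h]; ring⟩

lemma mem_locS {V : ValuationSubring K} {C : Subring K} {x : K} :
    x ∈ locS V C ↔ ∃ c s : K, c ∈ C ∧ s ∈ C ∧ s ≠ 0 ∧ s⁻¹ ∈ V ∧ x * s = c := Iff.rfl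

lemma le_locS (V : ValuationSubring K) (C : Subring K) : C ≤ locS V C := by
  intro x hx
  exact ⟨x, 1, hx, C.one_mem, one_ne_zero, by rw [inv_one]; exact V.one_mem, mul_one _⟩

lemma locS_le {V : ValuationSubring K} {C : Subring K} (hC : ∀ x ∈ C, x ∈ V) :
    ∀ x ∈ locS V C, x ∈ V := by
  rintro x ⟨c, s, hc, hs, hs0, hsV, h⟩
  have : x = c * s⁻¹ := by rw [← h]; field_simp
  rw [this]
  exact V.mul_mem _ _ (hC c hc) hsV

lemma inv_mem_locS {V : ValuationSubring K} {C : Subring K} {x : K} (hx : x ∈ locS V C)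
    (hx0 : x ≠ 0) (hxV : x⁻¹ ∈ V) : x⁻¹ ∈ locS V C := by
  obtain ⟨c, s, hc, hs, hs0, hsV, h⟩ := hx
  have hc0 : c ≠ 0 := by rw [← h]; exact mul_ne_zero hx0 hs0
  refine ⟨s, c, hs, hc, hc0, ?_, ?_⟩
  · rw [← h, mul_inv]
    exact V.mul_mem _ _ hxV hsV
  · rw [← h]; field_simp

lemma locS_mono {V : ValuationSubring K} {C C' : Subring K} (h : C ≤ C') :
    locS V C ≤ locS V C' := by
  rintro x ⟨c, s, hc, hs, hs0, hsV, h'⟩
  exact ⟨c, s, h hc, h hs, hs0, hsV, h'⟩

lemma locS_locS {V : ValuationSubring K} {C : Subring K} : locS V (locS V C) = locS V C := by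
  apply le_antisymm
  · rintro x ⟨c, s, hc, hs, hs0, hsV, h⟩
    have : x = c * s⁻¹ := by rw [← h]; field_simp
    rw [this]
    exact (locS V C).mul_mem hc (inv_mem_locS hs hs0 hsV)
  · exact le_locS V _

lemma locS_eq {V : ValuationSubring K} {C C' : Subring K} (h1 : C ≤ C') (h2 : C' ≤ locS V C) :
    locS V C' = locS V C :=
  le_antisymm ((locS_mono h2).trans locS_locS.le) (locS_mono h1)

/-- The localization at the centre. -/
theorem locS_equiv {C : Type} [CommRing C] (ι : C →+* K) (hι : Function.Injective ι)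
    (V : ValuationSubring K) (hV : ∀ c, ι c ∈ V) (P : Ideal C) [P.IsPrime]
    (hP : ∀ c, c ∈ P ↔ V.valuation (ι c) < 1) :
    ∃ e : Localization.AtPrime P ≃+* locS V ι.range,
      ∀ c, ((e (algebraMap C (Localization.AtPrime P) c) : locS V ι.range) : K) = ι c := by
  let f : C →+* locS V ι.range := ι.codRestrict (locS V ι.range)
    (fun c => le_locS V _ ⟨c, rfl⟩)
  let _ : Algebra C (locS V ι.range) := f.toAlgebra
  have hf : ∀ c, ((algebraMap C (locS V ι.range) c : locS V ι.range) : K) = ι c := fun c => rfl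
  have hu : ∀ c, c ∉ P → ι c ≠ 0 ∧ (ι c)⁻¹ ∈ V := by
    intro c hc
    have h1 : V.valuation (ι c) = 1 := by
      refine le_antisymm ((V.valuation_le_one_iff _).2 (hV c)) (not_lt.1 fun h => hc ((hP c).2 h))
    have h0 : ι c ≠ 0 := by
      intro h
      rw [h, map_zero] at h1
      exact zero_ne_one h1
    refine ⟨h0, ?_⟩
    rw [← V.valuation_le_one_iff, map_inv₀, h1, inv_one]
  have hloc : IsLocalization.AtPrime (locS V ι.range) P :=
    { map_units := by
        rintro ⟨c, hc⟩
        obtain ⟨h0, h1⟩ := hu c hc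
        refine IsUnit.of_mul_eq_one (⟨(ι c)⁻¹, inv_mem_locS (le_locS V _ ⟨c, rfl⟩) h0 h1⟩ :
          locS V ι.range) ?_
        apply Subtype.ext
        change ι c * (ι c)⁻¹ = 1
        exact mul_inv_cancel₀ h0
      surj := by
        rintro ⟨x, _, _, ⟨c, rfl⟩, ⟨s, rfl⟩, hs0, hsV, h⟩
        have hs : s ∉ P := by
          intro hs
          have h1 := (hP s).1 hs
          have h2 := (V.valuation_le_one_iff _).2 hsV
          rw [map_inv₀] at h2
          have h3 : V.valuation (ι s) ≠ 0 := (V.valuation.ne_zero_iff).2 hs0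
          have h4 : (1 : V.ValueGroup) ≤ V.valuation (ι s) := by
            by_contra h5
            have h6 : (1 : V.ValueGroup) < (V.valuation (ι s))⁻¹ :=
              (one_lt_inv₀ (lt_of_le_of_ne (zero_le) h3.symm)).2 h1
            exact absurd h2 (not_le.2 h6)
          exact absurd h1 (not_lt.2 h4)
        refine ⟨(c, ⟨s, hs⟩), ?_⟩
        apply Subtype.ext
        exact h
      exists_of_eq := by
        intro x y hxy
        refine ⟨1, ?_⟩
        have := congrArg Subtype.val hxy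
        rw [hf, hf] at this
        rw [hι this] }
  refine ⟨(IsLocalization.algEquiv P.primeCompl (Localization.AtPrime P)
    (locS V ι.range)).toRingEquiv, fun c => ?_⟩
  rw [← hf]
  exact congrArg Subtype.val (AlgEquiv.commutes (IsLocalization.algEquiv P.primeCompl
    (Localization.AtPrime P) (locS V ι.range)) c)

end locS

end Pool.Agent.Run7.h945.TR
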