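import Mathlib

set_option autoImplicit false

open Polynomial

namespace Pool.Agent.Run7.h945.TR

section basic

variable {R : Type*} [CommRing R]

/-- The additive polynomial `T ^ p - β * T`. -/
noncomputable def AS (p : ℕ) (β : R) : R[X] := X ^ p - C β * X

lemma natDegree_CX_le (a : R) : (C a * X : R[X]).natDegree ≤ 1 :=
  (natDegree_C_mul_le a X).trans natDegree_X_le

lemma AS_monic {p : ℕ} (hp : 1 < p) (β : R) : (AS p β).Monic := by
  unfold AS
  refine monic_X_pow_sub ?_
  refine (degree_C_mul_X_le β).trans_lt ?_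
  exact_mod_cast hp

lemma AS_natDegree [Nontrivial R] {p : ℕ} (hp : 1 < p) (β : R) : (AS p β).natDegree = p := by
  unfold AS
  rw [natDegree_sub_eq_left_of_natDegree_lt, natDegree_X_pow]
  rw [natDegree_X_pow]
  exact (natDegree_CX_le β).trans_lt hp

lemma AS_map {R' : Type*} [CommRing R'] (f : R →+* R') (p : ℕ) (β : R) :
    (AS p β).map f = AS p (f β) := by
  unfold AS
  simp

/-- The homomorphism `T ↦ T + h * θ`. -/
noncomputable def sh (h : R) : R[X] →ₐ[R] R[X][X] := aeval (C X + C (C h) * X)

lemma sh_C (h a : R) : sh h (C a) = C (C a) := by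
  unfold sh
  rw [aeval_C]
  rfl

lemma sh_X (h : R) : sh h X = C X + C (C h) * X := by
  unfold sh
  rw [aeval_X]

lemma sh_AS {p : ℕ} [Fact p.Prime] [CharP R p] (h b : R) :
    sh h (AS p (b * h ^ (p - 1))) =
      C (AS p (b * h ^ (p - 1))) + C (C (h ^ p)) * AS p (C b) := by
  have hp : p.Prime := Fact.out
  have e : h ^ p = h * h ^ (p - 1) := by
    rw [← pow_succ', Nat.sub_add_cancel hp.one_lt.le]
  unfold AS
  rw [map_sub, map_mul, map_pow, sh_X, sh_C, add_pow_char, mul_pow, ← C_pow, ← C_pow, e]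
  simp only [map_sub, map_mul, map_pow]
  rw [show (C (C h) : R[X][X]) ^ p = C (C h) * C (C h) ^ (p - 1) by
    rw [← pow_succ', Nat.sub_add_cancel hp.one_lt.le]]
  ring

lemma AS_comp {p : ℕ} (hp : 1 < p) (h b : R) :
    (AS p (b * h ^ (p - 1))).comp (C h * X) = C (h ^ p) * AS p b := by
  have e : h ^ p = h * h ^ (p - 1) := by
    rw [← pow_succ', Nat.sub_add_cancel hp.le]
  unfold AS
  simp only [sub_comp, mul_comp, pow_comp, X_comp, C_comp, mul_pow, map_mul, map_pow]
  rw [show (C h : R[X]) ^ p = C h * C h ^ (p - 1) by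
    rw [← pow_succ', Nat.sub_add_cancel hp.le]]
  ring

end basic

section domain

variable {R : Type*} [CommRing R] [IsDomain R]

lemma dvd_of_dvd_C_mul {M : R[X]} (hM : M.Monic) {a : R} (ha : a ≠ 0) {x : R[X]}
    (h : M ∣ C a * x) : M ∣ x := by
  rw [← modByMonic_eq_zero_iff_dvd hM] at h ⊢
  rw [← smul_eq_C_mul, smul_modByMonic] at h
  exact (smul_eq_zero.1 h).resolve_left ha

lemma comp_C_mul_X_injective {h : R} (hh : h ≠ 0) {f : R[X]} (hf : f.comp (C h * X) = 0) :
    f = 0 := by
  ext n
  have h1 := congrArg (fun g => coeff g n) hf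
  simp only [coeff_zero, comp_C_mul_X_coeff] at h1
  rw [coeff_zero]
  exact (mul_eq_zero.1 h1).resolve_right (pow_ne_zero n hh)

/-- The division step. -/
lemma AS_dvd {p : ℕ} [Fact p.Prime] {h b : R} (hh : h ≠ 0) {f : R[X]}
    (hf : AS p (C b) ∣ sh h f - C f) :
    ∃ q : R[X], f = AS p (b * h ^ (p - 1)) * q + C (f.eval 0) := by
  have hp : p.Prime := Fact.out
  have hm := AS_monic hp.one_lt (b * h ^ (p - 1))
  set P := AS p (b * h ^ (p - 1)) with hP
  set f1 := f - C (f.eval 0) with hf1
  have h1 : f1 %ₘ P + P * (f1 /ₘ P) = f1 := modByMonic_add_div f1 P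
  refine ⟨f1 /ₘ P, ?_⟩
  suffices h2 : f1 %ₘ P = 0 by
    rw [h2, zero_add] at h1
    rw [h1, hf1, sub_add_cancel]
  -- evaluate at `T = 0`
  have h3 : AS p b ∣ f1.comp (C h * X) := by
    have h4 : (mapRingHom (evalRingHom (0 : R))) (AS p (C b)) ∣
        (mapRingHom (evalRingHom (0 : R))) (sh h f) - (mapRingHom (evalRingHom (0 : R))) (C f) := by
      rw [← map_sub]
      exact _root_.map_dvd _ hf
    have e1 : (mapRingHom (evalRingHom (0 : R))) (AS p (C b)) = AS p b := by
      rw [coe_mapRingHom, AS_map]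
      simp
    have e2 : (mapRingHom (evalRingHom (0 : R))) (C f) = C (f.eval 0) := by simp
    have e3 : (mapRingHom (evalRingHom (0 : R))) (sh h f) = f.comp (C h * X) := by
      have : ((mapRingHom (evalRingHom (0 : R))).comp (sh h : R[X] →+* R[X][X])) =
          (compRingHom (C h * X) : R[X] →+* R[X]) := by
        apply Polynomial.ringHom_ext
        · intro a
          simp [sh_C]
        · simp [sh_X]
      exact congrArg (fun ψ : R[X] →+* R[X] => ψ f) this
    rw [e1, e2, e3] at h4
    have e4 : f1.comp (C h * X) = f.comp (C h * X) - C (f.eval 0) := by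
      rw [hf1, sub_comp, C_comp]
    rw [e4]
    exact h4
  have h5 : AS p b ∣ (f1 %ₘ P).comp (C h * X) := by
    have h6 : (f1 %ₘ P).comp (C h * X) = f1.comp (C h * X) -
        AS p b * (C (h ^ p) * (f1 /ₘ P).comp (C h * X)) := by
      have h8 : f1.comp (C h * X) = (f1 %ₘ P).comp (C h * X) +
          P.comp (C h * X) * (f1 /ₘ P).comp (C h * X) := by
        rw [← mul_comp, ← add_comp, h1]
      have h9 : P.comp (C h * X) = C (h ^ p) * AS p b := AS_comp hp.one_lt h b
      rw [h8, h9]
      ring
    rw [h6]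
    exact dvd_sub h3 (dvd_mul_right _ _)
  refine comp_C_mul_X_injective hh ?_
  refine eq_zero_of_dvd_of_natDegree_lt h5 ?_
  rw [AS_natDegree hp.one_lt]
  have h7 : (f1 %ₘ P).natDegree < P.natDegree := by
    refine natDegree_modByMonic_lt f1 hm ?_
    intro h8
    have := AS_natDegree hp.one_lt (b * h ^ (p - 1))
    rw [← hP, h8, natDegree_one] at this
    exact hp.ne_zero this.symm
  rw [AS_natDegree hp.one_lt] at h7
  refine lt_of_le_of_lt ?_ h7
  refine (natDegree_comp_le).trans ?_
  calc (f1 %ₘ P).natDegree * (C h * X).natDegree ≤ (f1 %ₘ P).natDegree * 1 :=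
        Nat.mul_le_mul_left _ (natDegree_CX_le h)
    _ = _ := mul_one _

/-- The invariants of one additive group scheme of order `p` acting on the affine line. -/
theorem one_var {p : ℕ} [Fact p.Prime] [CharP R p] {h b : R} (hh : h ≠ 0) :
    ∀ f : R[X], AS p (C b) ∣ sh h f - C f → ∃ g : R[X], f = g.comp (AS p (b * h ^ (p - 1))) := by
  have hp : p.Prime := Fact.out
  have hm := AS_monic hp.one_lt (b * h ^ (p - 1))
  suffices H : ∀ n, ∀ f : R[X], f.natDegree < n → AS p (C b) ∣ sh h f - C f →
      ∃ g : R[X], f = g.comp (AS p (b * h ^ (p - 1))) from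
    fun f hf => H (f.natDegree + 1) f (Nat.lt_succ_self _) hf
  intro n
  induction n with
  | zero => intro f hf; exact absurd hf (Nat.not_lt_zero _)
  | succ n ih =>
    intro f hfn hf
    obtain ⟨q, hq⟩ := AS_dvd hh hf
    by_cases hq0 : q = 0
    · rw [hq0, mul_zero, zero_add] at hq
      exact ⟨C (f.eval 0), by rw [C_comp]; exact hq⟩
    have h1 : AS p (C b) ∣ C (AS p (b * h ^ (p - 1))) * (sh h q - C q) := by
      have e : sh h f - C f = C (AS p (b * h ^ (p - 1))) * (sh h q - C q) +
          AS p (C b) * (C (C (h ^ p)) * sh h q) := by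
        conv_lhs => rw [hq]
        rw [map_add, map_mul, sh_AS, sh_C, map_add, map_mul]
        ring
      rw [e] at hf
      exact (dvd_add_left (dvd_mul_right _ _)).1 hf
    have h2 := dvd_of_dvd_C_mul (AS_monic hp.one_lt (C b)) hm.ne_zero h1
    have h3 : q.natDegree < n := by
      have h4 : (AS p (b * h ^ (p - 1)) * q).natDegree = p + q.natDegree := by
        rw [hm.natDegree_mul' hq0, AS_natDegree hp.one_lt]
      have h5 : f.natDegree = p + q.natDegree := by
        rw [hq, natDegree_add_C, h4]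
      have := hp.pos
      omega
    obtain ⟨g, hg⟩ := ih q h3 h2
    refine ⟨X * g + C (f.eval 0), ?_⟩
    rw [add_comp, mul_comp, X_comp, C_comp, ← hg]
    exact hq

end domain

/-- Composition with a monic polynomial of positive degree is injective. -/
lemma comp_monic_injective {R : Type*} [CommRing R] {P : R[X]} (hP : P.Monic)
    (hd : P.natDegree ≠ 0) : Function.Injective fun g : R[X] => g.comp P := by
  have key : ∀ g : R[X], g.comp P = 0 → g = 0 := by
    intro g hg
    have h1 := coeff_comp_degree_mul_degree (p := g) hd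
    rw [hg, coeff_zero, hP.leadingCoeff, one_pow, mul_one] at h1
    exact leadingCoeff_eq_zero.1 h1.symm
  intro g g' h
  have h1 : (g - g').comp P = 0 := by
    rw [sub_comp]
    exact sub_eq_zero.2 h
  exact sub_eq_zero.1 (key _ h1)

end Pool.Agent.Run7.h945.TR
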