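import Pool.Agent.Run7.h945.TR.RelLU
import Pool.Agent.Run7.h945.TR.Rep2

/-!
# Ascent of local uniformization: translations and replicas
-/

set_option autoImplicit false
set_option linter.unusedSectionVars false

open Polynomial

namespace Pool.Agent.Run7.h945.TR

section lift

variable {σ B K0 : Type} [CommRing B] [Field K0] [Algebra B K0]

lemma exists_lift_of_coeff (f : MvPolynomial σ K0)
    (hf : ∀ m, ∃ b, algebraMap B K0 b = MvPolynomial.coeff m f) :
    ∃ f' : MvPolynomial σ B, MvPolynomial.map (algebraMap B K0) f' = f := by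
  have h1 : f ∈ Set.range (MvPolynomial.map (σ := σ) (algebraMap B K0)) := by
    rw [MvPolynomial.mem_range_map_iff_coeffs_subset]
    intro x hx
    obtain ⟨m, hm⟩ := MvPolynomial.mem_coeffs_iff.1 hx
    obtain ⟨b, hb⟩ := hf m
    exact ⟨b, by rw [hb, hm.2]⟩
  exact h1

lemma isIntegralElem_lift {D : Subring (MvPolynomial σ B)} {x : MvPolynomial σ B}
    (h : IsIntegral D x) : ((MvPolynomial.map (algebraMap B K0)).comp D.subtype).IsIntegralElem
      (MvPolynomial.map (algebraMap B K0) x) := by
  obtain ⟨P, hP, hP0⟩ := h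
  refine ⟨P, hP, ?_⟩
  have h1 := congrArg (MvPolynomial.map (algebraMap B K0)) hP0
  rw [map_zero, Polynomial.hom_eval₂] at h1
  exact h1

end lift

section trans

lemma isIntegral_CI' {σ B : Type} [CommRing B] {p : ℕ} [Fact p.Prime] [CharP B p]
    (l : List (B × (σ → B))) (f : MvPolynomial σ B) : IsIntegral (CI B p l) f := by
  obtain ⟨ψ, h1, h2⟩ := exists_psi (p := p) l.length l rfl
  obtain ⟨P, hP, hP0⟩ := h2 f
  let ψ' : MvPolynomial σ B →+* CI B p l :=
    (ψ : MvPolynomial σ B →+* MvPolynomial σ B).codRestrict (CI B p l) h1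
  refine ⟨P.map ψ', hP.map _, ?_⟩
  rw [eval₂_map]
  exact hP0

/-- Ascent of local uniformization to the invariants of families of translations. -/
theorem lu_translations {p : ℕ} [Fact p.Prime] {B K0 : Type} [CommRing B] [IsDomain B]
    [CharP B p] [Field K0] [Algebra B K0] [IsFractionRing B K0]
    (hB : ∀ C : Subalgebra B K0, C.FG → ∀ (P : Ideal C) [P.IsPrime],
      AdmitsLU (Localization.AtPrime P))
    {σ : Type} [Finite σ] [DecidableEq σ] (l : List (B × (σ → B)))
    {A : Type} [CommRing A] [IsDomain A] (jA : CI B p l →+* A) (hj : Function.Injective jA)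
    (hjint : ∀ a, jA.IsIntegralElem a)
    (hbir : ∀ a : A, ∃ x y : CI B p l, y ≠ 0 ∧ jA y * a = jA x)
    (q : Ideal A) [q.IsPrime] (R : Type) [CommRing R] [Algebra A R] [IsLocalization.AtPrime R q] :
    AdmitsLU R := by
  have hp : p.Prime := Fact.out
  have hBK : Function.Injective (algebraMap B K0) := IsFractionRing.injective B K0
  have hKp : CharP K0 p := (RingHom.charP_iff (algebraMap B K0) hBK p).1 inferInstance
  obtain ⟨G, hG, hG0, hG1⟩ := exists_tree p _ (ml (algebraMap B K0) l) rfl
  refine rel_lu (B := B) (K0 := K0) (CI K0 p (ml (algebraMap B K0) l)) G hG ?_ hB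
    ((MvPolynomial.map (algebraMap B K0)).comp (CI B p l).toSubring.subtype) ?_ ?_ ?_ jA hj hjint
    hbir q R
  · intro S hS hS2
    have hSp : CharP S p := (RingHom.charP_iff S.subtype Subtype.val_injective p).2 hKp
    let ι : B →+* S := (algebraMap B K0).codRestrict S hS
    have hgood : Good p (ml ι l) := by
      refine hG1 S S.subtype Subtype.val_injective _ ?_ ?_
      · unfold ml
        rw [List.map_map]
        rfl
      · intro a ha b hb
        rcases hS2 a ha b hb with h | h
        · exact Or.inl ⟨⟨_, h⟩, rfl⟩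
        · exact Or.inr ⟨⟨_, h⟩, rfl⟩
    obtain ⟨φ, hφ, h⟩ := good_rec hgood
    refine ⟨σ, inferInstance, (MvPolynomial.map S.subtype).comp (φ : MvPolynomial σ S →+* _),
      ?_, ?_, ?_⟩
    · exact (MvPolynomial.map_injective _ Subtype.val_injective).comp hφ
    · intro s
      have e1 : φ (MvPolynomial.C s) = MvPolynomial.C s := φ.commutes s
      change MvPolynomial.map S.subtype (φ (MvPolynomial.C s)) = _
      rw [e1, MvPolynomial.map_C]
      rfl
    · intro f
      have e2 : ml (algebraMap B K0) l = ml S.subtype (ml ι l) := by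
        unfold ml
        rw [List.map_map]
        rfl
      constructor
      · rintro ⟨g, rfl⟩
        refine ⟨?_, fun m => ?_⟩
        · change INV p _ (MvPolynomial.map S.subtype (φ g))
          rw [e2, INV_map hp.one_lt S.subtype Subtype.val_injective]
          exact (h _).2 ⟨g, rfl⟩
        · change MvPolynomial.coeff m (MvPolynomial.map S.subtype (φ g)) ∈ S
          rw [MvPolynomial.coeff_map]
          exact Subtype.property _
      · rintro ⟨h1, h2⟩
        obtain ⟨f', rfl⟩ := exists_lift_of_coeff (B := S) (K0 := K0) f fun m => ⟨⟨_, h2 m⟩, rfl⟩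
        have h3 : INV p (ml ι l) f' := by
          rw [← INV_map hp.one_lt S.subtype Subtype.val_injective, ← e2]
          exact h1
        obtain ⟨g, rfl⟩ := (h _).1 h3
        exact ⟨g, rfl⟩
  · exact (MvPolynomial.map_injective _ hBK).comp Subtype.val_injective
  · intro f
    constructor
    · rintro ⟨c, rfl⟩
      refine ⟨?_, fun m => ?_⟩
      · change INV p _ (MvPolynomial.map (algebraMap B K0) (c : MvPolynomial σ B))
        rw [INV_map hp.one_lt _ hBK]
        exact c.2
      · exact ⟨MvPolynomial.coeff m (c : MvPolynomial σ B), (MvPolynomial.coeff_map _ _ _).symm⟩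
    · rintro ⟨h1, h2⟩
      obtain ⟨f', rfl⟩ := exists_lift_of_coeff f h2
      refine ⟨⟨f', ?_⟩, rfl⟩
      change INV p l f'
      rw [← INV_map hp.one_lt _ hBK]
      exact h1
  · intro j
    have h := isIntegralElem_lift (K0 := K0) (D := (CI B p l).toSubring)
      (isIntegral_CI' (p := p) l (MvPolynomial.X j))
    rwa [MvPolynomial.map_X] at h

end trans

section rep

/-- The ring of invariants of replicas is a polynomial ring, if there is a pivot. -/
theorem rep_rec {σ : Type} [Finite σ] [DecidableEq σ] {S : Type} [CommRing S] [IsDomain S] {p : ℕ}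
    [Fact p.Prime] [CharP S p] {v : σ → S}
    (hpiv : (∀ j, v j = 0) ∨ ∃ i, ∃ c : σ → S, ∀ j, v j = c j * v i)
    (l : List (MvPolynomial σ S × MvPolynomial σ S))
    (hl : ∀ x ∈ l, Fs v x.1 = C x.1 ∧ Fs v x.2 = C x.2) :
    ∃ (N : Type) (_ : Finite N) (ψ : MvPolynomial N S →ₐ[S] MvPolynomial σ S),
      Function.Injective ψ ∧ ∀ f, (∃ g, f = ψ g) ↔ ∀ x ∈ l, InvR p x.1 (gv x.2 v) f := by
  have hp : p.Prime := Fact.out
  have h0 : (∀ j, v j = 0) ∨ ∃ i, v i ≠ 0 ∧ ∃ c : σ → S, ∀ j, v j = c j * v i := by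
    rcases hpiv with h | ⟨i, c, hc⟩
    · exact Or.inl h
    · by_cases hi : v i = 0
      · exact Or.inl fun j => by rw [hc j, hi, mul_zero]
      · exact Or.inr ⟨i, hi, c, hc⟩
  rcases h0 with hv0 | ⟨i, hi, c, hc⟩
  · refine ⟨σ, inferInstance, AlgHom.id S _, fun f g h => h, fun f => ⟨fun _ x _ => ?_,
      fun _ => ⟨f, rfl⟩⟩⟩
    have e : gv x.2 v = gv x.2 (fun _ => (0 : S)) := by
      funext j
      simp only [gv, hv0 j]
    rw [e]
    exact InvR.of_eq (by rw [Fw_gv, Fs_zero, C_comp])
  · let Q := MvPolynomial {j // j ≠ i} S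
    have hQp : CharP Q p := charP_of_injective_algebraMap
      (MvPolynomial.C_injective {j // j ≠ i} S) p
    have hv : ∀ j, j ≠ i → v j = c j * v i := fun j _ => hc j
    have hex : ∀ a : MvPolynomial σ S, ∃ a' : Q, Fs v a = C a → ps i c a = C a' := by
      intro a
      by_cases ha : Fs v a = C a
      · obtain ⟨a', ha'⟩ := ps_of_ga hv hi ha
        exact ⟨a', fun _ => ha'⟩
      · exact ⟨0, fun h => absurd h ha⟩
    choose q hq using hex
    let l' : List (Q × (PUnit.{1} → Q)) :=
      l.map fun x => (q x.1, fun _ => q x.2 * MvPolynomial.C (v i))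
    obtain ⟨φ, hφ, hφ2⟩ := good_rec (p := p) (good_unit p _ l' rfl)
    let e1 : MvPolynomial PUnit.{1} Q ≃ₐ[Q] Q[X] := MvPolynomial.pUnitAlgEquiv Q
    let e0 : MvPolynomial (PUnit.{1} ⊕ {j // j ≠ i}) S ≃ₐ[S] MvPolynomial PUnit.{1} Q :=
      MvPolynomial.sumAlgEquiv S PUnit.{1} {j // j ≠ i}
    let χ : MvPolynomial PUnit.{1} Q →ₐ[S] MvPolynomial σ S :=
      (((ps i c).symm : Q[X] ≃ₐ[S] MvPolynomial σ S) : Q[X] →ₐ[S] _).comp
        (((e1.restrictScalars S : MvPolynomial PUnit.{1} Q ≃ₐ[S] Q[X]) :
          MvPolynomial PUnit.{1} Q →ₐ[S] Q[X]).comp (φ.restrictScalars S))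
    have hχa : ∀ g, χ g = (ps i c).symm (e1 (φ g)) := fun _ => rfl
    have hχ : Function.Injective χ := by
      intro f g hfg
      rw [hχa, hχa] at hfg
      exact hφ (e1.injective ((ps i c).symm.injective hfg))
    have hmem : ∀ f, (∀ x ∈ l, InvR p x.1 (gv x.2 v) f) ↔ INV p l' (e1.symm (ps i c f)) := by
      intro f
      unfold INV
      simp only [l']
      rw [List.forall_mem_map]
      refine forall₂_congr fun x hx => ?_
      rw [invR_iff hp.one_lt hv (hq _ (hl x hx).1) (hq _ (hl x hx).2), pu_inv hp.one_lt]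
      change _ ↔ _ ∣ sh _ (e1 (e1.symm _)) - C (e1 (e1.symm _))
      rw [AlgEquiv.apply_symm_apply]
    refine ⟨PUnit.{1} ⊕ {j // j ≠ i}, inferInstance, χ.comp e0.toAlgHom, ?_, fun f => ?_⟩
    · exact hχ.comp e0.injective
    · rw [hmem, hφ2]
      constructor
      · rintro ⟨g, rfl⟩
        refine ⟨e0 g, ?_⟩
        change e1.symm (ps i c (χ (e0 g))) = _
        rw [hχa, AlgEquiv.apply_symm_apply, AlgEquiv.symm_apply_apply]
      · rintro ⟨g, hg⟩
        refine ⟨e0.symm g, ?_⟩
        change f = χ (e0 (e0.symm g))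
        rw [AlgEquiv.apply_symm_apply, hχa, ← hg, AlgEquiv.apply_symm_apply,
          AlgEquiv.symm_apply_apply]

/-- Invariance for the families of replicas. -/
def INR {σ S : Type} [CommRing S] (p : ℕ) (v : σ → S)
    (l : List (MvPolynomial σ S × MvPolynomial σ S)) (f : MvPolynomial σ S) : Prop :=
  ∀ x ∈ l, InvR p x.1 (gv x.2 v) f

lemma INR_map {σ S S' : Type} [CommRing S] [CommRing S'] {p : ℕ} (hp : 1 < p) (ι : S →+* S')
    (hι : Function.Injective ι) (v : σ → S) (l : List (MvPolynomial σ S × MvPolynomial σ S))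
    (f : MvPolynomial σ S) :
    INR p (fun j => ι (v j)) (mr ι l) (MvPolynomial.map ι f) ↔ INR p v l f := by
  unfold INR mr
  rw [List.forall_mem_map]
  refine forall₂_congr fun x _ => ?_
  rw [← gv_map]
  exact invR_map hp ι hι x.1 (gv x.2 v) f

lemma mr_mr {σ S S' S'' : Type} [CommRing S] [CommRing S'] [CommRing S''] (ι : S →+* S')
    (ι' : S' →+* S'') (l : List (MvPolynomial σ S × MvPolynomial σ S)) :
    mr ι' (mr ι l) = mr (ι'.comp ι) l := by
  simp only [mr, List.map_map]
  refine List.map_congr_left fun x _ => ?_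
  refine Prod.ext ?_ ?_
  · exact MvPolynomial.map_map _ _ _
  · exact MvPolynomial.map_map _ _ _

/-- Ascent of local uniformization to the invariants of replicas of a translation. -/
theorem lu_replicas {p : ℕ} [Fact p.Prime] {B K0 : Type} [CommRing B] [IsDomain B]
    [CharP B p] [Field K0] [Algebra B K0] [IsFractionRing B K0]
    (hB : ∀ C : Subalgebra B K0, C.FG → ∀ (P : Ideal C) [P.IsPrime],
      AdmitsLU (Localization.AtPrime P))
    {σ : Type} [Finite σ] [DecidableEq σ] (v : σ → B)
    (l : List (MvPolynomial σ B × MvPolynomial σ B))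
    (hl : ∀ x ∈ l, Fs v x.1 = C x.1 ∧ Fs v x.2 = C x.2)
    {A : Type} [CommRing A] [IsDomain A] (jA : RI B p v l →+* A) (hj : Function.Injective jA)
    (hjint : ∀ a, jA.IsIntegralElem a)
    (hbir : ∀ a : A, ∃ x y : RI B p v l, y ≠ 0 ∧ jA y * a = jA x)
    (q : Ideal A) [q.IsPrime] (R : Type) [CommRing R] [Algebra A R] [IsLocalization.AtPrime R q] :
    AdmitsLU R := by
  have hp : p.Prime := Fact.out
  have hBK : Function.Injective (algebraMap B K0) := IsFractionRing.injective B K0
  have hKp : CharP K0 p := (RingHom.charP_iff (algebraMap B K0) hBK p).1 inferInstance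
  refine rel_lu (B := B) (K0 := K0)
    (RI K0 p (fun j => algebraMap B K0 (v j)) (mr (algebraMap B K0) l))
    {a | ∃ j, v j ≠ 0 ∧ algebraMap B K0 (v j) = a} ?_ ?_ hB
    ((MvPolynomial.map (algebraMap B K0)).comp (RI B p v l).toSubring.subtype) ?_ ?_ ?_ jA hj
    hjint hbir q R
  · exact (Set.finite_range fun j => algebraMap B K0 (v j)).subset
      (by rintro _ ⟨j, -, rfl⟩; exact ⟨j, rfl⟩)
  · intro S hS hS2
    have hSp : CharP S p := (RingHom.charP_iff S.subtype Subtype.val_injective p).2 hKp
    let ι : B →+* S := (algebraMap B K0).codRestrict S hS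
    have hι : Function.Injective ι := fun x y h => hBK (congrArg Subtype.val h)
    let v' : σ → S := fun j => ι (v j)
    have hpiv : (∀ j, v' j = 0) ∨ ∃ i, ∃ c : σ → S, ∀ j, v' j = c j * v' i := by
      rcases isEmpty_or_nonempty σ with hr | hr
      · exact Or.inl fun j => hr.elim j
      · obtain ⟨j0, hj0⟩ := exists_pivot S.subtype Subtype.val_injective v' (by
          intro i j hi hj
          have hi2 : v i ≠ 0 := by
            intro h
            apply hi
            simp only [v', h, map_zero]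
          have hj2 : v j ≠ 0 := by
            intro h
            apply hj
            simp only [v', h, map_zero]
          rcases hS2 _ ⟨i, hi2, rfl⟩ _ ⟨j, hj2, rfl⟩ with h | h
          · exact Or.inl ⟨⟨_, h⟩, rfl⟩
          · exact Or.inr ⟨⟨_, h⟩, rfl⟩) hr
        choose c hc using hj0
        exact Or.inr ⟨j0, c, hc⟩
    obtain ⟨N, hN, ψ, hψ, h⟩ := rep_rec (p := p) hpiv (mr ι l) (by
      intro x hx
      obtain ⟨y, hy, rfl⟩ := List.mem_map.1 hx
      exact ⟨ga_map _ (hl y hy).1, ga_map _ (hl y hy).2⟩)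
    have e2 : mr (algebraMap B K0) l = mr S.subtype (mr ι l) := (mr_mr ι S.subtype l).symm
    refine ⟨N, hN, (MvPolynomial.map S.subtype).comp (ψ : MvPolynomial N S →+* _), ?_, ?_, ?_⟩
    · exact (MvPolynomial.map_injective _ Subtype.val_injective).comp hψ
    · intro s
      have e1 : ψ (MvPolynomial.C s) = MvPolynomial.C s := ψ.commutes s
      change MvPolynomial.map S.subtype (ψ (MvPolynomial.C s)) = _
      rw [e1, MvPolynomial.map_C]
      rfl
    · intro f
      have key : ∀ f', MvPolynomial.map S.subtype f' ∈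
          RI K0 p (fun j => algebraMap B K0 (v j)) (mr (algebraMap B K0) l) ↔
          ∀ x ∈ mr ι l, InvR p x.1 (gv x.2 v') f' := by
        intro f'
        rw [e2]
        exact INR_map hp.one_lt S.subtype Subtype.val_injective v' (mr ι l) f'
      constructor
      · rintro ⟨g, rfl⟩
        refine ⟨?_, fun m => ?_⟩
        · exact (key _).2 ((h _).1 ⟨g, rfl⟩)
        · change MvPolynomial.coeff m (MvPolynomial.map S.subtype (ψ g)) ∈ S
          rw [MvPolynomial.coeff_map]
          exact Subtype.property _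
      · rintro ⟨h1, h2⟩
        obtain ⟨f', rfl⟩ := exists_lift_of_coeff (B := S) (K0 := K0) f fun m => ⟨⟨_, h2 m⟩, rfl⟩
        obtain ⟨g, rfl⟩ := (h _).2 ((key _).1 h1)
        exact ⟨g, rfl⟩
  · exact (MvPolynomial.map_injective _ hBK).comp Subtype.val_injective
  · intro f
    constructor
    · rintro ⟨c, rfl⟩
      refine ⟨?_, fun m => ?_⟩
      · exact (INR_map hp.one_lt _ hBK v l _).2 c.2
      · exact ⟨MvPolynomial.coeff m (c : MvPolynomial σ B), (MvPolynomial.coeff_map _ _ _).symm⟩
    · rintro ⟨h1, h2⟩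
      obtain ⟨f', rfl⟩ := exists_lift_of_coeff f h2
      exact ⟨⟨f', (INR_map hp.one_lt _ hBK v l f').1 h1⟩, rfl⟩
  · intro j
    have h := isIntegralElem_lift (K0 := K0) (D := (RI B p v l).toSubring)
      (isIntegral_rep (p := p) l hl (RI B p v l).toSubring (fun f hf => hf) j)
    rwa [MvPolynomial.map_X] at h

end rep

end Pool.Agent.Run7.h945.TR
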