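import Pool.Agent.Run7.h945.TR.Crit

/-!
# Ascent of local uniformization to rings of invariants
-/

set_option autoImplicit false
set_option linter.unusedSectionVars false

open Pool.Agent.W418.LU

namespace Pool.Agent.Run7.h945.TR

section rel

theorem isRegularRing_of_local (S : Type) [CommRing S] [IsRegularLocalRing S] :
    IsRegularRing S := by
  have : IsNoetherianRing S := inferInstance
  exact isRegularRing_iff.2 fun p hp => Pool.Agent.N98.SS.regular_localization p

lemma locS_regular {C K : Type} [CommRing C] [IsRegularRing C] [Field K] (ι : C →+* K)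
    (hι : Function.Injective ι) (V : ValuationSubring K) (hV : ∀ c, ι c ∈ V) :
    IsRegularLocalRing (locS V ι.range) := by
  let i : C →+* V := ι.codRestrict V.toSubring hV
  let P : Ideal C := Ideal.comap i (IsLocalRing.maximalIdeal V)
  have hP : ∀ c, c ∈ P ↔ V.valuation (ι c) < 1 := by
    intro c
    rw [Ideal.mem_comap]
    exact ValuationSubring.valuation_lt_one_iff V (i c)
  obtain ⟨e, -⟩ := locS_equiv ι hι V hV P hP
  exact IsRegularLocalRing.of_ringEquiv e

/-- Ascent of local uniformization: if the rings of invariants over the subrings of `K0` in which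
finitely many functions can be compared are polynomial rings. -/
theorem rel_lu {B K0 : Type} [CommRing B] [IsDomain B] [Field K0] [Algebra B K0]
    [IsFractionRing B K0] {σ : Type} [Finite σ] (𝒞 : Subalgebra K0 (MvPolynomial σ K0))
    (G : Set K0) (hG : G.Finite)
    (hpoly : ∀ S : Subring K0, (∀ b : B, algebraMap B K0 b ∈ S) →
      (∀ a ∈ G, ∀ b ∈ G, a / b ∈ S ∨ b / a ∈ S) →
      ∃ (N : Type) (_ : Finite N) (ψ : MvPolynomial N S →+* MvPolynomial σ K0),
        Function.Injective ψ ∧ (∀ s : S, ψ (MvPolynomial.C s) = MvPolynomial.C (s : K0)) ∧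
        ∀ f, (∃ g, f = ψ g) ↔ f ∈ 𝒞 ∧ ∀ m, MvPolynomial.coeff m f ∈ S)
    (hB : ∀ C : Subalgebra B K0, C.FG → ∀ (P : Ideal C) [P.IsPrime],
      AdmitsLU (Localization.AtPrime P))
    {C0 : Type} [CommRing C0] [IsDomain C0] (e : C0 →+* MvPolynomial σ K0)
    (he : Function.Injective e)
    (heC : ∀ f, (∃ c, e c = f) ↔ f ∈ 𝒞 ∧ ∀ m, ∃ b, algebraMap B K0 b = MvPolynomial.coeff m f)
    (hint : ∀ j, e.IsIntegralElem (MvPolynomial.X j))
    {A : Type} [CommRing A] [IsDomain A] (jA : C0 →+* A) (hj : Function.Injective jA)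
    (hjint : ∀ a, jA.IsIntegralElem a) (hbir : ∀ a : A, ∃ x y : C0, y ≠ 0 ∧ jA y * a = jA x)
    (q : Ideal A) [q.IsPrime] (R : Type) [CommRing R] [Algebra A R] [IsLocalization.AtPrime R q] :
    AdmitsLU R := by
  classical
  intro K _ _ _ V hV1 hV2
  have hRl : IsLocalRing R := IsLocalization.AtPrime.isLocalRing R q
  have hBK : Function.Injective (algebraMap B K0) := IsFractionRing.injective B K0
  let iA : A →+* K := (algebraMap R K).comp (algebraMap A R)
  have hinjAR : Function.Injective (algebraMap A R) :=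
    IsLocalization.injective R (Ideal.primeCompl_le_nonZeroDivisors q)
  have hiA : Function.Injective iA := (IsFractionRing.injective R K).comp hinjAR
  let iC : C0 →+* K := iA.comp jA
  have hiC : Function.Injective iC := hiA.comp hj
  let _ : Algebra C0 K := iC.toAlgebra
  have eiC : ∀ c : C0, algebraMap C0 K c = iC c := fun c => rfl
  have hfaith : FaithfulSMul C0 K := (faithfulSMul_iff_algebraMap_injective C0 K).2 hiC
  have hfr0 : ∀ z : K, ∃ a b : A, iA b ≠ 0 ∧ z = iA a / iA b := by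
    intro z
    obtain ⟨r, s, hs, rfl⟩ := IsFractionRing.div_surjective (A := R) z
    obtain ⟨⟨a, t⟩, h1⟩ := IsLocalization.surj q.primeCompl r
    obtain ⟨⟨b, u⟩, h2⟩ := IsLocalization.surj q.primeCompl s
    have ht0 : iA (t : A) ≠ 0 := fun h => by
      rw [← map_zero iA] at h
      exact t.2 (by rw [hiA h]; exact q.zero_mem)
    have hu0 : iA (u : A) ≠ 0 := fun h => by
      rw [← map_zero iA] at h
      exact u.2 (by rw [hiA h]; exact q.zero_mem)
    have hs0 : algebraMap R K s ≠ 0 := by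
      have := nonZeroDivisors.ne_zero hs
      exact (map_ne_zero_iff _ (IsFractionRing.injective R K)).2 this
    have h1' : algebraMap R K r * iA (t : A) = iA a := by
      change algebraMap R K r * algebraMap R K (algebraMap A R t) = algebraMap R K _
      rw [← map_mul]
      exact congrArg _ h1
    have h2' : algebraMap R K s * iA (u : A) = iA b := by
      change algebraMap R K s * algebraMap R K (algebraMap A R u) = algebraMap R K _
      rw [← map_mul]
      exact congrArg _ h2
    refine ⟨a * u, b * t, ?_, ?_⟩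
    · rw [map_mul, ← h2']
      exact mul_ne_zero (mul_ne_zero hs0 hu0) ht0
    · rw [map_mul, map_mul, ← h1', ← h2']
      field_simp
  have hbirK : ∀ a : A, ∃ x y : C0, iC y ≠ 0 ∧ iA a = iC x / iC y := by
    intro a
    obtain ⟨x, y, hy, hxy⟩ := hbir a
    have hy0 : iC y ≠ 0 := (map_ne_zero_iff _ hiC).2 hy
    refine ⟨x, y, hy0, ?_⟩
    rw [eq_div_iff hy0]
    change iA a * iA (jA y) = iA (jA x)
    rw [← hxy, map_mul, mul_comm]
  have hfr : IsFractionRing C0 K := by
    refine IsFractionRing.of_field C0 K ?_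
    intro z
    obtain ⟨a, b, hb, rfl⟩ := hfr0 z
    obtain ⟨x1, y1, hy1, h1⟩ := hbirK a
    obtain ⟨x2, y2, hy2, h2⟩ := hbirK b
    refine ⟨x1 * y2, y1 * x2, ?_⟩
    rw [h2] at hb
    have hx2 : iC x2 ≠ 0 := fun h => hb (by rw [h, zero_div])
    rw [h1, h2, map_mul, map_mul, eiC, eiC, eiC, eiC]
    field_simp
  -- the big field
  let L := FractionRing (MvPolynomial σ K0)
  let E : MvPolynomial σ K0 →+* L := algebraMap _ _
  have hE : Function.Injective E := IsFractionRing.injective (MvPolynomial σ K0) L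
  let g : C0 →+* L := E.comp e
  have hg : Function.Injective g := hE.comp he
  let κ : K →+* L := IsFractionRing.lift (K := K) (g := g) hg
  have hκ : ∀ c : C0, κ (iC c) = E (e c) := fun c =>
    IsFractionRing.lift_algebraMap (K := K) (g := g) hg c
  obtain ⟨W, hW⟩ : ∃ W : ValuationSubring L, ∀ x, κ x ∈ W ↔ x ∈ V := by
    obtain ⟨W, hW⟩ := (LocalSubring.range (κ.comp V.subtype)).exists_le_valuationSubring
    obtain ⟨hle, hloc⟩ := LocalSubring.le_def.1 hW
    have h1 : ∀ x ∈ V, κ x ∈ (LocalSubring.range (κ.comp V.subtype)).toSubring := by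
      intro x hx
      exact ⟨⟨x, hx⟩, rfl⟩
    refine ⟨W, fun x => ⟨fun hx => ?_, fun hx => hle (h1 x hx)⟩⟩
    by_contra hxV
    have hx0 : x ≠ 0 := by
      rintro rfl
      exact hxV V.zero_mem
    have hinv : x⁻¹ ∈ V := (V.mem_or_inv_mem x).resolve_left hxV
    have hu : IsUnit (Subring.inclusion hle ⟨κ x⁻¹, h1 _ hinv⟩) := by
      refine IsUnit.of_mul_eq_one (⟨κ x, hx⟩ : W.toLocalSubring.toSubring) ?_
      apply Subtype.ext
      change κ x⁻¹ * κ x = 1
      rw [← map_mul, inv_mul_cancel₀ hx0, map_one]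
    obtain ⟨u, hu'⟩ := hloc.map_nonunit _ hu
    have h2 : κ x⁻¹ * ((u⁻¹ : (LocalSubring.range (κ.comp V.subtype)).toSubringˣ) :
        (LocalSubring.range (κ.comp V.subtype)).toSubring) = (1 : L) := by
      have h3 := u.mul_inv
      rw [hu'] at h3
      exact congrArg Subtype.val h3
    obtain ⟨y, hy⟩ := ((u⁻¹ : (LocalSubring.range (κ.comp V.subtype)).toSubringˣ) :
        (LocalSubring.range (κ.comp V.subtype)).toSubring).2
    have hy' : κ (y : K) = ((u⁻¹ : (LocalSubring.range (κ.comp V.subtype)).toSubringˣ) :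
        (LocalSubring.range (κ.comp V.subtype)).toSubring) := hy
    rw [← hy', ← map_mul] at h2
    have h4 : x⁻¹ * (y : K) = 1 := κ.injective (h2.trans (map_one κ).symm)
    have h5 : (y : K) = x := by
      field_simp at h4
      exact h4
    exact hxV (h5 ▸ y.2)
  have hiCV : ∀ c, iC c ∈ V := fun c => hV1 _
  -- the field `K0`
  have hcb : ∀ b : B, ∃ c, e c = MvPolynomial.C (algebraMap B K0 b) := by
    intro b
    refine (heC _).2 ⟨𝒞.algebraMap_mem _, fun m => ?_⟩
    rw [MvPolynomial.coeff_C]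
    split_ifs
    · exact ⟨b, rfl⟩
    · exact ⟨0, map_zero _⟩
  have hκi : Function.Injective κ := κ.injective
  have hrK0 : ∀ x : K0, ∃ y : K, κ y = E (MvPolynomial.C x) := by
    intro x
    obtain ⟨a, b, hb, rfl⟩ := IsFractionRing.div_surjective (A := B) x
    obtain ⟨c1, h1⟩ := hcb a
    obtain ⟨c2, h2⟩ := hcb b
    refine ⟨iC c1 / iC c2, ?_⟩
    have hb0 : algebraMap B K0 b ≠ 0 :=
      (map_ne_zero_iff _ hBK).2 (nonZeroDivisors.ne_zero hb)
    have h3 : E (MvPolynomial.C (algebraMap B K0 b)) ≠ 0 := by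
      rw [Ne, map_eq_zero_iff _ hE, MvPolynomial.C_eq_zero]
      exact hb0
    rw [map_div₀, hκ, hκ, h1, h2, div_eq_iff h3, ← map_mul, ← MvPolynomial.C_mul,
      div_mul_cancel₀ _ hb0]
  let eκ : K ≃+* κ.range := RingEquiv.ofBijective κ.rangeRestrict
    ⟨fun x y h => hκi (congrArg Subtype.val h), κ.rangeRestrict_surjective⟩
  have heκ : ∀ y : κ.range, κ (eκ.symm y) = y := by
    intro y
    have := eκ.apply_symm_apply y
    exact congrArg Subtype.val this
  let i0 : K0 →+* K := (eκ.symm : κ.range →+* K).comp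
    ((E.comp MvPolynomial.C).codRestrict κ.range hrK0)
  have hi0 : ∀ x, κ (i0 x) = E (MvPolynomial.C x) := fun x => heκ _
  let V0 : ValuationSubring K0 := V.comap i0
  have hV0 : ∀ x, x ∈ V0 ↔ i0 x ∈ V := fun x => Iff.rfl
  have hi0B : ∀ b : B, ∃ c, i0 (algebraMap B K0 b) = iC c := by
    intro b
    obtain ⟨c, hc⟩ := hcb b
    exact ⟨c, hκi (by rw [hi0, hκ, hc])⟩
  have hBV0 : ∀ b, algebraMap B K0 b ∈ V0 := by
    intro b
    obtain ⟨c, hc⟩ := hi0B b
    rw [hV0, hc]
    exact hiCV c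
  let F : Set K0 := {x | x ∈ V0 ∧ ∃ a ∈ G, ∃ b ∈ G, x = a / b}
  have hF : F.Finite := by
    refine (Set.Finite.image2 (fun a b => a / b) hG hG).subset ?_
    rintro x ⟨-, a, ha, b, hb, rfl⟩
    exact ⟨a, ha, b, hb, rfl⟩
  obtain ⟨S1, hS1, hFS1, hS1V, hreg⟩ := exists_base hB V0 hBV0 F hF (fun x hx => hx.1)
  set D0 := Subring.closure (Set.range (algebraMap B K0) ∪ S1) with hD0def
  have hD0V : ∀ x ∈ D0, x ∈ V0 := by
    have : D0 ≤ V0.toSubring := by
      rw [hD0def, Subring.closure_le]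
      rintro x (⟨b, rfl⟩ | hx)
      · exact hBV0 b
      · exact hS1V x hx
    exact this
  set S := locS V0 D0 with hSdef
  have hSV : ∀ x ∈ S, x ∈ V0 := locS_le hD0V
  have hBD0 : ∀ b, algebraMap B K0 b ∈ D0 := fun b =>
    Subring.subset_closure (Or.inl ⟨b, rfl⟩)
  have hBS : ∀ b, algebraMap B K0 b ∈ S := fun b => le_locS V0 D0 (hBD0 b)
  have hGS : ∀ a ∈ G, ∀ b ∈ G, a / b ∈ S ∨ b / a ∈ S := by
    intro a ha b hb
    rcases V0.mem_or_inv_mem (a / b) with h | h
    · exact Or.inl (le_locS V0 D0 (Subring.subset_closure (Or.inr (hFS1 ⟨h, a, ha, b, hb, rfl⟩))))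
    · rw [inv_div] at h
      exact Or.inr (le_locS V0 D0 (Subring.subset_closure (Or.inr (hFS1 ⟨h, b, hb, a, ha, rfl⟩))))
  obtain ⟨N, hN, ψ, hψi, hψC, hψ⟩ := hpoly S hBS hGS
  -- the chart
  have hrS : ∀ x : MvPolynomial N S, E (ψ x) ∈ κ.range := by
    intro x
    obtain ⟨h1, h2⟩ := (hψ (ψ x)).1 ⟨x, rfl⟩
    -- common denominator
    obtain ⟨h, hh⟩ := IsLocalization.exist_integer_multiples_of_finset (nonZeroDivisors B)
      ((ψ x).support.image fun m => MvPolynomial.coeff m (ψ x))
    have hh0 : algebraMap B K0 h ≠ 0 :=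
      (map_ne_zero_iff _ hBK).2 (nonZeroDivisors.ne_zero h.2)
    obtain ⟨c1, hc1⟩ := (heC (MvPolynomial.C (algebraMap B K0 h) * ψ x)).2
      ⟨𝒞.mul_mem (𝒞.algebraMap_mem _) h1, fun m => by
        rw [MvPolynomial.coeff_C_mul]
        by_cases hm : m ∈ (ψ x).support
        · obtain ⟨b, hb⟩ := hh _ (Finset.mem_image_of_mem _ hm)
          refine ⟨b, hb.trans ?_⟩
          exact Algebra.smul_def _ _
        · rw [MvPolynomial.notMem_support_iff] at hm
          exact ⟨0, by rw [hm, mul_zero, map_zero]⟩⟩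
    obtain ⟨c2, hc2⟩ := hcb (h : B)
    refine ⟨iC c1 / iC c2, ?_⟩
    have h3 : E (MvPolynomial.C (algebraMap B K0 h)) ≠ 0 := by
      rw [Ne, map_eq_zero_iff _ hE, MvPolynomial.C_eq_zero]
      exact hh0
    rw [map_div₀, hκ, hκ, hc1, hc2, map_mul, mul_div_assoc, mul_comm, div_mul_cancel₀ _ h3]
  let iS : MvPolynomial N S →+* K := (eκ.symm : κ.range →+* K).comp
    ((E.comp ψ).codRestrict κ.range hrS)
  have hiS : ∀ x, κ (iS x) = E (ψ x) := fun x => heκ _
  have hiSi : Function.Injective iS := by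
    intro x y h
    apply hψi
    apply hE
    rw [← hiS, ← hiS, h]
  have hiSC : ∀ s : S, iS (MvPolynomial.C s) = i0 s := fun s =>
    hκi (by rw [hiS, hi0, hψC])
  have hiCS : ∀ c, iC c ∈ iS.range := by
    intro c
    obtain ⟨h1, h2⟩ := (heC (e c)).1 ⟨c, rfl⟩
    obtain ⟨x, hx⟩ := (hψ (e c)).2 ⟨h1, fun m => by
      obtain ⟨b, hb⟩ := h2 m
      rw [← hb]
      exact hBS b⟩
    exact ⟨x, hκi (by rw [hiS, hκ, hx])⟩
  -- the coordinates are in `W`
  have hXW : ∀ j, E (MvPolynomial.X j) ∈ W := by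
    intro j
    obtain ⟨P, hP, hP0⟩ := hint j
    have h1 : IsIntegral W (E (MvPolynomial.X j)) := by
      let g' : C0 →+* W := g.codRestrict W.toSubring (fun c => by
        change E (e c) ∈ W
        rw [← hκ, hW]
        exact hiCV c)
      refine ⟨P.map g', hP.map g', ?_⟩
      rw [Polynomial.eval₂_map]
      have h2 : (algebraMap W L).comp g' = E.comp e := RingHom.ext fun y => rfl
      rw [h2, ← Polynomial.hom_eval₂, hP0, map_zero]
    obtain ⟨y, hy⟩ := IsIntegrallyClosed.isIntegral_iff.1 h1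
    rw [← hy]
    exact y.2
  have hEW : ∀ f : MvPolynomial σ K0, (∀ m, MvPolynomial.coeff m f ∈ V0) → E f ∈ W := by
    intro f hf
    rw [f.as_sum, map_sum]
    refine W.toSubring.sum_mem fun m _ => ?_
    rw [MvPolynomial.monomial_eq, map_mul, Finsupp.prod, map_prod]
    refine W.toSubring.mul_mem ?_ (W.toSubring.prod_mem fun j _ => ?_)
    · rw [← hi0]
      exact (hW _).2 (hf m)
    · rw [map_pow]
      exact W.toSubring.pow_mem (hXW j) _
  have hiSV : ∀ x, iS x ∈ V := by
    intro x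
    rw [← hW, hiS]
    exact hEW _ fun m => hSV _ (((hψ (ψ x)).1 ⟨x, rfl⟩).2 m)
  have hregS : IsRegularRing S := by
    have : IsRegularLocalRing S := hreg
    exact isRegularRing_of_local S
  have hregT : IsRegularLocalRing (locS V iS.range) := locS_regular iS hiSi V hiSV
  let S0 : Set K := i0 '' S1 ∪ Set.range fun n => iS (MvPolynomial.X n)
  let D : Subring K := Subring.closure ((Set.range fun b => i0 (algebraMap B K0 b)) ∪ S0)
  have hDS : D ≤ iS.range := by
    refine Subring.closure_le.2 ?_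
    rintro x (⟨b, rfl⟩ | ⟨s, hs, rfl⟩ | ⟨n, rfl⟩)
    · exact ⟨MvPolynomial.C ⟨_, hBS b⟩, hiSC _⟩
    · exact ⟨MvPolynomial.C ⟨s, le_locS V0 D0 (Subring.subset_closure (Or.inr hs))⟩, hiSC _⟩
    · exact ⟨_, rfl⟩
  have hD0D : ∀ x ∈ D0, i0 x ∈ D := by
    intro x hx
    rw [hD0def] at hx
    induction hx using Subring.closure_induction with
    | mem x hx =>
      rcases hx with ⟨b, rfl⟩ | hx
      · exact Subring.subset_closure (Or.inl ⟨b, rfl⟩)
      · exact Subring.subset_closure (Or.inr (Or.inl ⟨x, hx, rfl⟩))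
    | zero => rw [map_zero]; exact D.zero_mem
    | one => rw [map_one]; exact D.one_mem
    | add x y _ _ hx hy => rw [map_add]; exact D.add_mem hx hy
    | neg x _ hx => rw [map_neg]; exact D.neg_mem hx
    | mul x y _ _ hx hy => rw [map_mul]; exact D.mul_mem hx hy
  have hSD : iS.range ≤ locS V D := by
    rintro _ ⟨f, rfl⟩
    induction f using MvPolynomial.induction_on with
    | C s =>
      rw [hiSC]
      obtain ⟨c, t, hc, ht, ht0, htV, h⟩ := s.2
      refine ⟨i0 c, i0 t, hD0D c hc, hD0D t ht, (map_ne_zero i0).2 ht0, ?_, ?_⟩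
      · rw [← map_inv₀]
        exact (hV0 _).1 htV
      · rw [← map_mul, h]
    | add f f' h h' => rw [map_add]; exact (locS V D).add_mem h h'
    | mul_X f n h =>
      rw [map_mul]
      exact (locS V D).mul_mem h (le_locS V D (Subring.subset_closure (Or.inr (Or.inr ⟨n, rfl⟩))))
  have hloc : locS V iS.range = locS V D := locS_eq hDS hSD
  rw [hloc] at hregT
  have hDV : ∀ x ∈ D, x ∈ V := by
    intro x hx
    obtain ⟨y, rfl⟩ := hDS hx
    exact hiSV y
  -- normality
  have hregT' : IsRegularRing (locS V D) := isRegularRing_of_local _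
  have hic : IsIntegrallyClosed (locS V D) :=
    Pool.Agent.N98.RM.isIntegrallyClosed_of_regular _
  have hCT : ∀ c, iC c ∈ locS V D := fun c => hSD (hiCS c)
  have hfrT : IsFractionRing (locS V D) K := by
    refine IsFractionRing.of_field _ K ?_
    intro z
    obtain ⟨x, y, hy, rfl⟩ := IsFractionRing.div_surjective (A := C0) z
    exact ⟨⟨_, hCT x⟩, ⟨_, hCT y⟩, rfl⟩
  refine luat_of_locS q hV1 hV2 D hDV S0 ?_ ?_ ?_ ?_ hregT
  · exact (hS1.image _).union (Set.finite_range _)
  · exact fun x hx => Subring.subset_closure (Or.inr hx)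
  · intro A' hA1 hA2
    refine Subring.closure_le.2 ?_
    rintro x (⟨b, rfl⟩ | hx)
    · obtain ⟨c, hc⟩ := hi0B b
      change i0 (algebraMap B K0 b) ∈ A'
      rw [hc]
      exact hA1 _
    · exact hA2 hx
  · intro a
    obtain ⟨P, hP, hP0⟩ := hjint a
    have h1 : IsIntegral (locS V D) (iA a) := by
      let i : C0 →+* locS V D := iC.codRestrict (locS V D) hCT
      refine ⟨P.map i, hP.map i, ?_⟩
      rw [Polynomial.eval₂_map]
      have h4 : (algebraMap (locS V D) K).comp i = iA.comp jA := RingHom.ext fun y => rfl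
      rw [h4, ← Polynomial.hom_eval₂, hP0, map_zero]
    obtain ⟨y, hy⟩ := IsIntegrallyClosed.isIntegral_iff.1 h1
    change iA a ∈ locS V D
    rw [← hy]
    exact y.2

end rel

end Pool.Agent.Run7.h945.TR
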