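import Pool.Agent.Run7.h945.TR.Geo2

set_option autoImplicit false
set_option linter.unusedSectionVars false

open Polynomial

namespace Pool.Agent.Run7.h945.TR

section defs

variable {σ S : Type*} [CommRing S]

/-- The homomorphism `f ↦ f (z + θ w)` for a vector `w` of polynomials. -/
noncomputable def Fw (w : σ → MvPolynomial σ S) : MvPolynomial σ S →ₐ[S] (MvPolynomial σ S)[X] :=
  MvPolynomial.aeval fun j => C (MvPolynomial.X j) + C (w j) * X

/-- Invariance: `f (z + θ w) = f (z)` modulo `θ ^ p - b θ`. -/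
def InvR (p : ℕ) (b : MvPolynomial σ S) (w : σ → MvPolynomial σ S) (f : MvPolynomial σ S) : Prop :=
  AS p b ∣ Fw w f - C f

/-- The vector `g * v`. -/
noncomputable def gv (g : MvPolynomial σ S) (v : σ → S) : σ → MvPolynomial σ S :=
  fun j => g * MvPolynomial.C (v j)

lemma Fw_X (w : σ → MvPolynomial σ S) (j : σ) :
    Fw w (MvPolynomial.X j) = C (MvPolynomial.X j) + C (w j) * X := by
  unfold Fw
  rw [MvPolynomial.aeval_X]

lemma Fw_C (w : σ → MvPolynomial σ S) (a : S) :
    Fw w (MvPolynomial.C a) = C (MvPolynomial.C a) := by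
  unfold Fw
  rw [MvPolynomial.aeval_C]
  rfl

lemma Fw_gv (g : MvPolynomial σ S) (v : σ → S) (f : MvPolynomial σ S) :
    Fw (gv g v) f = (Fs v f).comp (C g * X) := by
  induction f using MvPolynomial.induction_on with
  | C a => rw [Fw_C, Fs_C, C_comp]
  | add f g hf hg => rw [map_add, map_add, hf, hg, add_comp]
  | mul_X f j hf =>
    rw [map_mul, map_mul, hf, mul_comp, Fw_X, Fs_X]
    congr 1
    simp only [gv, add_comp, mul_comp, C_comp, X_comp, map_mul]
    ring

lemma Fw_of_inv {v : σ → S} {a : MvPolynomial σ S} (ha : Fs v a = C a) (g : MvPolynomial σ S) :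
    Fw (gv g v) a = C a := by
  rw [Fw_gv, ha, C_comp]

lemma InvR.mul {p : ℕ} {b : MvPolynomial σ S} {w : σ → MvPolynomial σ S} {f g : MvPolynomial σ S}
    (hf : InvR p b w f) (hg : InvR p b w g) : InvR p b w (f * g) := by
  unfold InvR at *
  have e : Fw w (f * g) - C (f * g) = Fw w f * (Fw w g - C g) + C g * (Fw w f - C f) := by
    rw [map_mul, map_mul]
    ring
  rw [e]
  exact dvd_add (hg.mul_left _) (hf.mul_left _)

lemma InvR.add {p : ℕ} {b : MvPolynomial σ S} {w : σ → MvPolynomial σ S} {f g : MvPolynomial σ S}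
    (hf : InvR p b w f) (hg : InvR p b w g) : InvR p b w (f + g) := by
  unfold InvR at *
  have e : Fw w (f + g) - C (f + g) = (Fw w f - C f) + (Fw w g - C g) := by
    rw [map_add, map_add]
    ring
  rw [e]
  exact dvd_add hf hg

lemma InvR.of_eq {p : ℕ} {b : MvPolynomial σ S} {w : σ → MvPolynomial σ S}
    {f : MvPolynomial σ S} (h : Fw w f = C f) : InvR p b w f := by
  unfold InvR
  rw [h, sub_self]
  exact dvd_zero _

lemma InvR.const (p : ℕ) (b : MvPolynomial σ S) (w : σ → MvPolynomial σ S) (a : S) :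
    InvR p b w (MvPolynomial.C a) := InvR.of_eq (Fw_C w a)

end defs

section change

variable {σ S S' : Type*} [CommRing S] [CommRing S']

lemma Fw_map (ι : S →+* S') (w : σ → MvPolynomial σ S) (f : MvPolynomial σ S) :
    Fw (fun j => MvPolynomial.map ι (w j)) (MvPolynomial.map ι f) =
      (Fw w f).map (MvPolynomial.map ι : MvPolynomial σ S →+* MvPolynomial σ S') := by
  induction f using MvPolynomial.induction_on with
  | C a => rw [MvPolynomial.map_C, Fw_C, Fw_C, map_C, MvPolynomial.map_C]
  | add f g hf hg => rw [map_add, map_add, map_add, Polynomial.map_add, hf, hg]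
  | mul_X f j hf =>
    rw [map_mul, map_mul, map_mul, Polynomial.map_mul, hf, MvPolynomial.map_X, Fw_X, Fw_X,
      Polynomial.map_add, Polynomial.map_mul, map_C, map_C, map_X, MvPolynomial.map_X]

lemma invR_map {p : ℕ} (hp : 1 < p) (ι : S →+* S') (hι : Function.Injective ι)
    (b : MvPolynomial σ S) (w : σ → MvPolynomial σ S) (f : MvPolynomial σ S) :
    InvR p (MvPolynomial.map ι b) (fun j => MvPolynomial.map ι (w j)) (MvPolynomial.map ι f) ↔
      InvR p b w f := by
  unfold InvR
  rw [Fw_map]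
  have e1 : (C (MvPolynomial.map ι f) : (MvPolynomial σ S')[X]) =
      (C f).map (MvPolynomial.map ι : MvPolynomial σ S →+* MvPolynomial σ S') := by
    rw [map_C]
  have e2 : AS p (MvPolynomial.map ι b : MvPolynomial σ S') =
      (AS p b).map (MvPolynomial.map ι : MvPolynomial σ S →+* MvPolynomial σ S') := by
    rw [AS_map]
  rw [e1, e2, ← Polynomial.map_sub]
  exact Polynomial.map_dvd_map _ (MvPolynomial.map_injective ι hι) (AS_monic hp _)

lemma gv_map (ι : S →+* S') (g : MvPolynomial σ S) (v : σ → S) :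
    (fun j => MvPolynomial.map ι (gv g v j)) = gv (MvPolynomial.map ι g) (fun j => ι (v j)) := by
  funext j
  simp only [gv, map_mul, MvPolynomial.map_C]

/-- The invariants under the additive group are compatible with the change of rings. -/
lemma ga_map (ι : S →+* S') {v : σ → S} {a : MvPolynomial σ S} (ha : Fs v a = C a) :
    Fs (fun j => ι (v j)) (MvPolynomial.map ι a) = C (MvPolynomial.map ι a) := by
  rw [Fs_map, ha, map_C]

end change

section pivot

variable {σ S : Type*} [DecidableEq σ] [CommRing S]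

/-- The change of coordinates. -/
noncomputable def alE (i : σ) (c : σ → S) : MvPolynomial σ S ≃ₐ[S] MvPolynomial σ S :=
  AlgEquiv.ofAlgHom (al i fun j => - c j) (al i c)
    (by
      apply AlgHom.ext
      intro f
      have h := al_al i (fun j => - c j) f
      simp only [neg_neg] at h
      exact h)
    (by
      apply AlgHom.ext
      intro f
      exact al_al i c f)

lemma alE_apply (i : σ) (c : σ → S) (f : MvPolynomial σ S) :
    alE i c f = al i (fun j => - c j) f := rfl

/-- The isomorphism to the polynomials in the pivot coordinate. -/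
noncomputable def ps (i : σ) (c : σ → S) :
    MvPolynomial σ S ≃ₐ[S] (MvPolynomial {j // j ≠ i} S)[X] := (alE i c).trans (ei i)

/-- The same as a homomorphism. -/
noncomputable def pH (i : σ) (c : σ → S) :
    MvPolynomial σ S →ₐ[S] (MvPolynomial {j // j ≠ i} S)[X] := (ps i c).toAlgHom

lemma pH_apply (i : σ) (c : σ → S) (f : MvPolynomial σ S) : pH i c f = ps i c f := rfl

lemma ps_self (i : σ) (c : σ → S) : ps i c (MvPolynomial.X i) = X := by
  unfold ps
  rw [AlgEquiv.trans_apply, alE_apply, al_X, if_pos rfl, ei_X_self]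

lemma ps_ne {i j : σ} (c : σ → S) (h : j ≠ i) : ps i c (MvPolynomial.X j) =
    C (MvPolynomial.X ⟨j, h⟩) + C (MvPolynomial.C (c j)) * X := by
  unfold ps
  rw [AlgEquiv.trans_apply, alE_apply, al_X, if_neg h, map_sub, map_mul, ei_X_ne h, ei_X_self,
    ei_C]
  simp only [map_neg]
  ring

lemma ps_C (i : σ) (c : σ → S) (a : S) : ps i c (MvPolynomial.C a) = C (MvPolynomial.C a) :=
  (ps i c).commutes a

lemma pH_injective (i : σ) (c : σ → S) : Function.Injective (pH i c) := (ps i c).injective

lemma map_Fw (i : σ) (c v : σ → S) (hv : ∀ j, j ≠ i → v j = c j * v i) (g : MvPolynomial σ S)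
    (g' : MvPolynomial {j // j ≠ i} S) (hg : ps i c g = C g') (f : MvPolynomial σ S) :
    (Fw (gv g v) f).map (pH i c : MvPolynomial σ S →+* _) =
      sh (g' * MvPolynomial.C (v i)) (ps i c f) := by
  induction f using MvPolynomial.induction_on with
  | C a =>
    rw [Fw_C, map_C, ps_C, sh_C]
    change C (ps i c (MvPolynomial.C a)) = _
    rw [ps_C]
  | add f g hf hg => rw [map_add, Polynomial.map_add, hf, hg, map_add, map_add]
  | mul_X f j hf =>
    rw [map_mul, Polynomial.map_mul, hf, map_mul, map_mul]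
    congr 1
    rw [Fw_X, Polynomial.map_add, Polynomial.map_mul, map_C, map_C, map_X]
    change C (ps i c (MvPolynomial.X j)) + C (ps i c (gv g v j)) * X = _
    simp only [gv, map_mul, hg, ps_C]
    by_cases hj : j = i
    · subst hj
      rw [ps_self, sh_X]
      simp only [map_mul]
    · rw [ps_ne c hj, hv j hj]
      simp only [map_add, map_mul, sh_C, sh_X]
      ring

lemma ps_one (i : σ) (c : σ → S) : ps i c (1 : MvPolynomial σ S) = C 1 := by
  rw [map_one, map_one]

lemma gv_one (v : σ → S) : Fw (gv (1 : MvPolynomial σ S) v) = Fs v := by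
  unfold Fw Fs gv
  simp only [one_mul]

/-- The invariants of the additive group do not depend on the pivot coordinate. -/
lemma ps_of_ga [IsDomain S] {i : σ} {c v : σ → S} (hv : ∀ j, j ≠ i → v j = c j * v i)
    (hi : v i ≠ 0) {a : MvPolynomial σ S} (ha : Fs v a = C a) : ∃ a', ps i c a = C a' := by
  have h1 := map_Fw i c v hv 1 1 (ps_one i c) a
  rw [gv_one, ha, map_C, one_mul] at h1
  change C (ps i c a) = sh (MvPolynomial.C (v i)) (ps i c a) at h1
  refine ⟨(ps i c a).eval 0, ?_⟩
  have hh : (MvPolynomial.C (v i) : MvPolynomial {j // j ≠ i} S) ≠ 0 := MvPolynomial.C_ne_zero.2 hi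
  set F := ps i c a with hF
  have e3 : (mapRingHom (evalRingHom (0 : MvPolynomial {j // j ≠ i} S)))
      (sh (MvPolynomial.C (v i)) F) = F.comp (C (MvPolynomial.C (v i)) * X) := by
    have : ((mapRingHom (evalRingHom (0 : MvPolynomial {j // j ≠ i} S))).comp
        (sh (MvPolynomial.C (v i) : MvPolynomial {j // j ≠ i} S) :
          (MvPolynomial {j // j ≠ i} S)[X] →+* (MvPolynomial {j // j ≠ i} S)[X][X])) =
        (compRingHom (C (MvPolynomial.C (v i)) * X)) := by
      apply Polynomial.ringHom_ext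
      · intro a
        simp [sh_C]
      · simp [sh_X]
    exact congrArg (fun ψ : (MvPolynomial {j // j ≠ i} S)[X] →+*
      (MvPolynomial {j // j ≠ i} S)[X] => ψ F) this
  have h2 := congrArg (mapRingHom (evalRingHom (0 : MvPolynomial {j // j ≠ i} S))) h1
  rw [e3] at h2
  have h3 : (mapRingHom (evalRingHom (0 : MvPolynomial {j // j ≠ i} S))) (C F) =
      C (F.eval 0) := by simp
  rw [h3] at h2
  have h4 : (F - C (F.eval 0)).comp (C (MvPolynomial.C (v i)) * X) = 0 := by
    rw [sub_comp, C_comp, ← h2, sub_self]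
  exact sub_eq_zero.1 (comp_C_mul_X_injective hh h4)

lemma invR_iff [IsDomain S] {p : ℕ} (hp : 1 < p) {i : σ} {c v : σ → S}
    (hv : ∀ j, j ≠ i → v j = c j * v i)
    {b g : MvPolynomial σ S} {b' g' : MvPolynomial {j // j ≠ i} S} (hb : ps i c b = C b')
    (hg : ps i c g = C g') (f : MvPolynomial σ S) :
    InvR p b (gv g v) f ↔
      AS p (C b') ∣ sh (g' * MvPolynomial.C (v i)) (ps i c f) - C (ps i c f) := by
  unfold InvR
  rw [← map_Fw i c v hv g g' hg f]
  have e1 : (C (ps i c f) : (MvPolynomial {j // j ≠ i} S)[X][X]) =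
      (C f).map (pH i c : MvPolynomial σ S →+* _) := by
    rw [map_C]
    rfl
  have e2 : AS p (C b') = (AS p b).map (pH i c : MvPolynomial σ S →+* _) := by
    rw [AS_map]
    congr 1
    exact hb.symm
  rw [e1, e2, ← Polynomial.map_sub]
  exact (Polynomial.map_dvd_map _ (pH_injective i c) (AS_monic hp _)).symm

end pivot

section unit

variable {Q : Type*} [CommRing Q]

lemma pu_Fs (h : Q) (f : MvPolynomial PUnit.{1} Q) :
    (Fs (fun _ => h) f).map ((MvPolynomial.pUnitAlgEquiv Q).toAlgHom :
      MvPolynomial PUnit.{1} Q →+* Q[X]) =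
      sh h (MvPolynomial.pUnitAlgEquiv Q f) := by
  induction f using MvPolynomial.induction_on with
  | C a =>
    rw [Fs_C, map_C]
    have e : MvPolynomial.pUnitAlgEquiv Q (MvPolynomial.C a : MvPolynomial PUnit.{1} Q) = C a :=
      (MvPolynomial.pUnitAlgEquiv Q).commutes a
    change C (MvPolynomial.pUnitAlgEquiv Q (MvPolynomial.C a)) = _
    rw [e, sh_C]
  | add f g hf hg => rw [map_add, Polynomial.map_add, hf, hg, map_add, map_add]
  | mul_X f j hf =>
    rw [map_mul, Polynomial.map_mul, hf, map_mul, map_mul]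
    congr 1
    rw [Fs_X, Polynomial.map_add, Polynomial.map_mul, map_C, map_C, map_X]
    change C (MvPolynomial.pUnitAlgEquiv Q (MvPolynomial.X j)) +
      C (MvPolynomial.pUnitAlgEquiv Q (MvPolynomial.C h)) * X = _
    have e1 : MvPolynomial.pUnitAlgEquiv Q (MvPolynomial.C h : MvPolynomial PUnit.{1} Q) = C h :=
      (MvPolynomial.pUnitAlgEquiv Q).commutes h
    have e2 : MvPolynomial.pUnitAlgEquiv Q (MvPolynomial.X j : MvPolynomial PUnit.{1} Q) = X := by
      simp
    rw [e1, e2, sh_X]

lemma pu_inv {p : ℕ} (hp : 1 < p) (b h : Q) (f : MvPolynomial PUnit.{1} Q) :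
    Inv p b (fun _ => h) f ↔ AS p (C b) ∣ sh h (MvPolynomial.pUnitAlgEquiv Q f) -
      C (MvPolynomial.pUnitAlgEquiv Q f) := by
  unfold Inv
  rw [← pu_Fs]
  have e1 : (C (MvPolynomial.pUnitAlgEquiv Q f) : Q[X][X]) =
      (C f).map ((MvPolynomial.pUnitAlgEquiv Q).toAlgHom :
      MvPolynomial PUnit.{1} Q →+* Q[X]) := by
    rw [map_C]
    rfl
  have e2 : AS p (C b : Q[X]) = (AS p (MvPolynomial.C b)).map
      ((MvPolynomial.pUnitAlgEquiv Q).toAlgHom : MvPolynomial PUnit.{1} Q →+* Q[X]) := by
    rw [AS_map]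
    congr 1
    exact ((MvPolynomial.pUnitAlgEquiv Q).commutes b).symm
  rw [e1, e2, ← Polynomial.map_sub]
  exact (Polynomial.map_dvd_map _ (MvPolynomial.pUnitAlgEquiv Q).injective (AS_monic hp _)).symm

/-- In one variable there are always pivots. -/
lemma good_unit (p : ℕ) (n : ℕ) : ∀ l : List (Q × (PUnit.{1} → Q)), l.length = n → Good p l := by
  induction n with
  | zero =>
    intro l hl
    rw [List.length_eq_zero_iff] at hl
    subst hl
    exact Good.nil
  | succ n ih =>
    intro l hl
    obtain ⟨⟨b, v⟩, l, rfl⟩ : ∃ x l', l = x :: l' := by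
      cases l with
      | nil => simp at hl
      | cons x l' => exact ⟨x, l', rfl⟩
    rw [List.length_cons, Nat.add_right_cancel_iff] at hl
    by_cases h : v PUnit.unit = 0
    · exact Good.zero b v l (funext fun _ => h) (ih l hl)
    · exact Good.step b v l PUnit.unit (fun _ => 1) h (fun j => by rw [one_mul])
        (ih _ (by rw [List.length_map, hl]))

end unit

section smooth

variable {σ : Type} [Finite σ] [DecidableEq σ]

/-- The ring of invariants is smooth, if there is a pivot. -/
theorem smooth_rep {k S : Type*} [Field k] [CommRing S] [IsDomain S] [Algebra k S]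
    [Algebra.Smooth k S] {p : ℕ} [Fact p.Prime] [CharP k p] {v : σ → S}
    (hpiv : (∀ j, v j = 0) ∨ ∃ i, ∃ c : σ → S, ∀ j, v j = c j * v i)
    (l : List (MvPolynomial σ S × MvPolynomial σ S))
    (hl : ∀ x ∈ l, Fs v x.1 = C x.1 ∧ Fs v x.2 = C x.2)
    (D : Subalgebra k (MvPolynomial σ S))
    (hD : ∀ f, f ∈ D ↔ ∀ x ∈ l, InvR p x.1 (gv x.2 v) f) : Algebra.Smooth k D := by
  have hp : p.Prime := Fact.out
  have h0 : (∀ j, v j = 0) ∨ ∃ i, v i ≠ 0 ∧ ∃ c : σ → S, ∀ j, v j = c j * v i := by
    rcases hpiv with h | ⟨i, c, hc⟩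
    · exact Or.inl h
    · by_cases hi : v i = 0
      · exact Or.inl fun j => by rw [hc j, hi, mul_zero]
      · exact Or.inr ⟨i, hi, c, hc⟩
  rcases h0 with hv0 | ⟨i, hi, c, hc⟩
  · have htop : D = ⊤ := by
      rw [eq_top_iff]
      intro f _
      rw [hD]
      intro x _
      have e : gv x.2 v = gv x.2 (fun _ => (0 : S)) := by
        funext j
        simp only [gv, hv0 j]
      rw [e]
      exact InvR.of_eq (by rw [Fw_gv, Fs_zero, C_comp])
    have h0 : Algebra.Smooth S (MvPolynomial σ S) := ⟨inferInstance, inferInstance⟩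
    have h1 : Algebra.Smooth k (MvPolynomial σ S) := Algebra.Smooth.comp k S (MvPolynomial σ S)
    rw [htop]
    exact Algebra.Smooth.of_equiv (Subalgebra.topEquiv (R := k) (A := MvPolynomial σ S)).symm
  · let Q := MvPolynomial {j // j ≠ i} S
    have hQp : CharP Q p := charP_of_injective_algebraMap (algebraMap k Q).injective p
    have hv : ∀ j, j ≠ i → v j = c j * v i := fun j _ => hc j
    have hex : ∀ a : MvPolynomial σ S, ∃ a' : Q, Fs v a = C a → ps i c a = C a' := by
      intro a
      by_cases ha : Fs v a = C a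
      · obtain ⟨a', ha'⟩ := ps_of_ga hv hi ha
        exact ⟨a', fun _ => ha'⟩
      · exact ⟨0, fun h => absurd h ha⟩
    choose q hq using hex
    let l' : List (Q × (PUnit.{1} → Q)) :=
      l.map fun x => (q x.1, fun _ => q x.2 * MvPolynomial.C (v i))
    obtain ⟨φ, hφ, hφ2⟩ := good_rec (p := p) (good_unit p _ l' rfl)
    let e1 : MvPolynomial PUnit.{1} Q ≃ₐ[Q] Q[X] := MvPolynomial.pUnitAlgEquiv Q
    let χ : MvPolynomial PUnit.{1} Q →ₐ[k] MvPolynomial σ S :=
      (((ps i c).symm.restrictScalars k : Q[X] ≃ₐ[k] MvPolynomial σ S) : Q[X] →ₐ[k] _).comp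
        (((e1.restrictScalars k : MvPolynomial PUnit.{1} Q ≃ₐ[k] Q[X]) :
          MvPolynomial PUnit.{1} Q →ₐ[k] Q[X]).comp (φ.restrictScalars k))
    have hχa : ∀ g, χ g = (ps i c).symm (e1 (φ g)) := fun _ => rfl
    have hχ : Function.Injective χ := by
      intro f g hfg
      rw [hχa, hχa] at hfg
      exact hφ (e1.injective ((ps i c).symm.injective hfg))
    have hmem : ∀ f, f ∈ D ↔ INV p l' (e1.symm (ps i c f)) := by
      intro f
      rw [hD]
      unfold INV
      simp only [l']
      rw [List.forall_mem_map]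
      refine forall₂_congr fun x hx => ?_
      rw [invR_iff hp.one_lt hv (hq _ (hl x hx).1) (hq _ (hl x hx).2), pu_inv hp.one_lt]
      change _ ↔ _ ∣ sh _ (e1 (e1.symm _)) - C (e1 (e1.symm _))
      rw [AlgEquiv.apply_symm_apply]
    have e : D = χ.range := by
      ext f
      rw [hmem, AlgHom.mem_range, hφ2]
      constructor
      · rintro ⟨g, hg⟩
        refine ⟨g, ?_⟩
        rw [hχa, ← hg, AlgEquiv.apply_symm_apply, AlgEquiv.symm_apply_apply]
      · rintro ⟨g, hg⟩
        refine ⟨g, ?_⟩
        rw [← hg, hχa, AlgEquiv.apply_symm_apply, AlgEquiv.symm_apply_apply]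
    have h0 : Algebra.Smooth S Q := ⟨inferInstance, inferInstance⟩
    have h1 : Algebra.Smooth k Q := Algebra.Smooth.comp k S Q
    have h2 : Algebra.Smooth Q (MvPolynomial PUnit.{1} Q) := ⟨inferInstance, inferInstance⟩
    have h3 : Algebra.Smooth k (MvPolynomial PUnit.{1} Q) :=
      Algebra.Smooth.comp k Q (MvPolynomial PUnit.{1} Q)
    have h4 : Algebra.Smooth k χ.range := Algebra.Smooth.of_equiv (AlgEquiv.ofInjective χ hχ)
    rw [e]
    exact h4

end smooth

end Pool.Agent.Run7.h945.TR
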